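import Pool.Agent.SYM.Support

set_option autoImplicit false

/-!
# Supports in powers of `A_5`: index at least five for each coordinate
-/

namespace Pool.Agent.SYM

variable {T : Type*} [Group T] [Finite T] [IsSimpleGroup T]

/-- Support lemma with the least index `q` of a proper subgroup of `T`. -/
theorem support_q (hT : ∃ a b : T, a * b ≠ b * a) (q : ℕ) (hq : 1 ≤ q)
    (hq1 : ∀ H : Subgroup T, H ≠ ⊤ → q ≤ H.index) (hq2 : q ^ 2 ≤ Nat.card T) :
    ∀ (n : ℕ) (K : Subgroup (Fin n → T)),
    ∃ B : Finset (Fin n), q ^ B.card ≤ K.index ∧ ∀ i ∉ B, ∀ x : T, Pi.mulSingle i x ∈ K := by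
  classical
  intro n
  induction n with
  | zero =>
    intro K
    refine ⟨∅, ?_, fun i => i.elim0⟩
    simpa using Nat.one_le_iff_ne_zero.2 (Subgroup.index_ne_zero_of_finite (H := K))
  | succ n ih =>
    intro K
    obtain ⟨B', hB', hB'2⟩ := ih (K.map (tl T n))
    have hidx := index_eq K
    have himg : ∀ i : Fin n, i.succ ∉ B'.map (Fin.succEmb n) → i ∉ B' := by
      intro i hi h
      exact hi (Finset.mem_map_of_mem _ h)
    by_cases hL : K.comap (hd T n) = ⊤
    · refine ⟨B'.map (Fin.succEmb n), ?_, ?_⟩
      · rw [Finset.card_map, hidx, hL, Subgroup.index_top, mul_one]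
        exact hB'
      · have h0 : ∀ x : T, cns x 1 ∈ K := by
          intro x
          have : x ∈ K.comap (hd T n) := by rw [hL]; exact Subgroup.mem_top x
          exact this
        intro i
        refine Fin.cases ?_ (fun i => ?_) i
        · intro _ x
          rw [single_zero]
          exact h0 x
        · intro hi x
          obtain ⟨k, hk, hkx⟩ := hB'2 i (himg i hi) x
          have h1 : (cns (k 0) 1)⁻¹ * k ∈ K := K.mul_mem (K.inv_mem (h0 _)) hk
          have h2 : k = cns (k 0) (Pi.mulSingle i x) := by rw [← hkx]; exact eq_cns k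
          rw [h2] at h1
          rw [single_succ]
          have h3 : (cns (cns (k 0) (Pi.mulSingle i x) 0) 1)⁻¹ * cns (k 0) (Pi.mulSingle i x) =
              cns (1 : T) (Pi.mulSingle i x) := by
            rw [cns_inv, cns_mul]
            simp [cns]
          rwa [h3] at h1
    · have hL2 : q ≤ (K.comap (hd T n)).index := hq1 _ hL
      by_cases hbad : ∃ i : Fin n, Has (K.map (tl T n)) i ∧ ¬ Has K i.succ
      · obtain ⟨i0, hi1, hi2⟩ := hbad
        refine ⟨insert 0 (insert i0.succ (B'.map (Fin.succEmb n))), ?_, ?_⟩
        · have h1 : (insert 0 (insert i0.succ (B'.map (Fin.succEmb n)))).card ≤ B'.card + 2 := by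
            refine (Finset.card_insert_le _ _).trans ?_
            have := Finset.card_insert_le i0.succ (B'.map (Fin.succEmb n))
            rw [Finset.card_map] at this
            omega
          calc q ^ (insert 0 (insert i0.succ (B'.map (Fin.succEmb n)))).card
              ≤ q ^ (B'.card + 2) := Nat.pow_le_pow_right hq h1
            _ = q ^ B'.card * q ^ 2 := pow_add _ _ _
            _ ≤ (K.map (tl T n)).index * Nat.card T := Nat.mul_le_mul hB' hq2
            _ = K.index := by rw [hidx, bot_of_bad hi1 hi2, Subgroup.index_bot]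
        · intro i
          refine Fin.cases ?_ (fun i => ?_) i
          · intro h
            exact absurd (Finset.mem_insert_self _ _) h
          · intro h x
            by_contra hx
            have h1 : i ∉ B' := by
              apply himg
              intro h2
              exact h (Finset.mem_insert_of_mem (Finset.mem_insert_of_mem h2))
            have h3 : i = i0 := unique_bad hT (hB'2 i h1) (fun h4 => hx (h4 x)) hi1 hi2
            apply h
            rw [h3]
            exact Finset.mem_insert_of_mem (Finset.mem_insert_self _ _)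
      · push Not at hbad
        refine ⟨insert 0 (B'.map (Fin.succEmb n)), ?_, ?_⟩
        · have h1 : (insert 0 (B'.map (Fin.succEmb n))).card ≤ B'.card + 1 := by
            refine (Finset.card_insert_le _ _).trans ?_
            rw [Finset.card_map]
          calc q ^ (insert 0 (B'.map (Fin.succEmb n))).card
              ≤ q ^ (B'.card + 1) := Nat.pow_le_pow_right hq h1
            _ = q ^ B'.card * q := pow_succ _ _
            _ ≤ (K.map (tl T n)).index * (K.comap (hd T n)).index := Nat.mul_le_mul hB' hL2
            _ = K.index := hidx.symm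
        · intro i
          refine Fin.cases ?_ (fun i => ?_) i
          · intro h
            exact absurd (Finset.mem_insert_self _ _) h
          · intro h x
            have h1 : i ∉ B' := by
              apply himg
              intro h2
              exact h (Finset.mem_insert_of_mem h2)
            exact hbad i (hB'2 i h1) x

/-- The same for any finite index type. -/
theorem support_q' (hT : ∃ a b : T, a * b ≠ b * a) (q : ℕ) (hq : 1 ≤ q)
    (hq1 : ∀ H : Subgroup T, H ≠ ⊤ → q ≤ H.index) (hq2 : q ^ 2 ≤ Nat.card T) {ι : Type*}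
    [Finite ι] [DecidableEq ι] (K : Subgroup (ι → T)) :
    ∃ B : Finset ι, q ^ B.card ≤ K.index ∧ ∀ i ∉ B, ∀ x : T, Pi.mulSingle i x ∈ K := by
  obtain ⟨n, ⟨e⟩⟩ := Finite.exists_equiv_fin ι
  let E : (Fin n → T) ≃* (ι → T) :=
    { toFun := fun v i => v (e i)
      invFun := fun w j => w (e.symm j)
      left_inv := fun v => by funext j; simp
      right_inv := fun w => by funext i; simp
      map_mul' := fun _ _ => rfl }
  obtain ⟨B, hB, hB2⟩ := support_q hT q hq hq1 hq2 n (K.comap E.toMonoidHom)
  refine ⟨B.map e.symm.toEmbedding, ?_, ?_⟩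
  · rw [Finset.card_map]
    rwa [Subgroup.index_comap_of_surjective K E.surjective] at hB
  · intro i hi x
    have h1 : e i ∉ B := by
      intro h
      apply hi
      rw [Finset.mem_map]
      exact ⟨e i, h, by simp⟩
    have h2 := hB2 (e i) h1 x
    rw [Subgroup.mem_comap] at h2
    have h3 : E.toMonoidHom (Pi.mulSingle (e i) x) = Pi.mulSingle i x := by
      funext j
      change (Pi.mulSingle (e i) x : Fin n → T) (e j) = (Pi.mulSingle i x : ι → T) j
      by_cases h : j = i
      · subst h
        simp
      · rw [Pi.mulSingle_eq_of_ne (fun h4 => h (e.injective h4)), Pi.mulSingle_eq_of_ne h]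
    rwa [h3] at h2

omit [Finite T] in
/-- a proper subgroup of a finite simple group of order more than `24` has index at least `5` -/
theorem five_le_index [Finite T] (hc : 24 < Nat.card T) (H : Subgroup T) (hH : H ≠ ⊤) :
    5 ≤ H.index := by
  by_contra hcon
  push Not at hcon
  have hker : H.normalCore = ⊥ := by
    rcases IsSimpleGroup.eq_bot_or_eq_top_of_normal H.normalCore inferInstance with h | h
    · exact h
    · exact absurd (top_le_iff.1 (h ▸ H.normalCore_le)) hH
  rw [Subgroup.normalCore_eq_ker] at hker
  have hinj : Function.Injective (MulAction.toPermHom T (T ⧸ H)) :=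
    (MonoidHom.ker_eq_bot_iff _).1 hker
  have h1 : Nat.card T ≤ Nat.card (Equiv.Perm (T ⧸ H)) := Nat.card_le_card_of_injective _ hinj
  rw [Nat.card_perm] at h1
  have h2 : Nat.card (T ⧸ H) = H.index := rfl
  rw [h2] at h1
  have h3 : (H.index).factorial ≤ Nat.factorial 4 := Nat.factorial_le (by omega)
  have h4 : Nat.factorial 4 = 24 := rfl
  omega

end Pool.Agent.SYM

namespace Pool.Agent.PSY

/-- **Supports in a power of `A_5`.** A subgroup `K` of `A_5^ι` that does not contain the factors
`i ∈ B` has index at least `5^|B|`. -/
theorem support5_le {ι : Type} [Finite ι] [DecidableEq ι]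
    (K : Subgroup (ι → alternatingGroup (Fin 5))) (B : Finset ι)
    (hB : ∀ i ∈ B, ∃ x : alternatingGroup (Fin 5), Pi.mulSingle i x ∉ K) :
    5 ^ B.card ≤ K.index := by
  have : IsSimpleGroup (alternatingGroup (Fin 5)) := alternatingGroup.isSimpleGroup (by simp)
  have hcard : Nat.card (alternatingGroup (Fin 5)) = 60 := by
    rw [nat_card_alternatingGroup]
    simp [Nat.factorial]
  obtain ⟨B', h1, h2⟩ := Pool.Agent.SYM.support_q' Pool.Agent.SYM.a5_noncomm 5 (by norm_num)
    (fun H hH => Pool.Agent.SYM.five_le_index (by rw [hcard]; norm_num) H hH)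
    (by rw [hcard]; norm_num) K
  refine (Nat.pow_le_pow_right (by norm_num) (Finset.card_le_card ?_)).trans h1
  intro i hi
  by_contra h
  obtain ⟨x, hx⟩ := hB i hi
  exact hx (h2 i h x)

end Pool.Agent.PSY
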