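import Pool.Agent.PSY.Frac

set_option autoImplicit false

/-!
# The fraction of all permutations of the vertices which are symmetries of a circuit
-/

namespace Pool.Agent.PSY

/-- The index of the inverse image of a subgroup is at most the index of the subgroup. -/
theorem index_comap_le {G G' : Type} [Group G] [Group G'] [Finite G] (f : G' →* G)
    (H : Subgroup G) : (H.comap f).index ≤ H.index := by
  have hinj : Function.Injective
      (fun q : G' ⧸ H.comap f => (QuotientGroup.mk (f q.out) : G ⧸ H)) := by
    intro q r hqr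
    have h1 : (QuotientGroup.mk (f q.out) : G ⧸ H) = QuotientGroup.mk (f r.out) := hqr
    rw [← Quotient.out_eq q, ← Quotient.out_eq r]
    change (QuotientGroup.mk q.out : G' ⧸ H.comap f) = QuotientGroup.mk r.out
    rw [QuotientGroup.eq] at h1 ⊢
    rw [Subgroup.mem_comap, map_mul, map_inv]
    exact h1
  exact Nat.card_le_card_of_injective _ hinj

/-- The permutations of the vertices which are symmetries of the circuit up to `U`. -/
def symGroup {V : Type} (C : Circuit (Sym2 V)) (U : Finset C.Gate) :
    Subgroup (Equiv.Perm V) where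
  carrier := {σ | ∃ π, C.AutU U (pairs σ) π}
  one_mem' := ⟨1, by rw [map_one]; exact autU_one C U⟩
  mul_mem' := by
    rintro σ σ' ⟨π, h⟩ ⟨π', h'⟩
    exact ⟨π * π', by rw [map_mul]; exact autU_mul C U _ _ _ _ h h'⟩
  inv_mem' := by
    rintro σ ⟨π, h⟩
    exact ⟨π⁻¹, by rw [map_inv]; exact autU_inv C U _ _ h⟩

theorem mem_symGroup {V : Type} {C : Circuit (Sym2 V)} {U : Finset C.Gate}
    {σ : Equiv.Perm V} : σ ∈ symGroup C U ↔ ∃ π, C.AutU U (pairs σ) π := Iff.rfl

/-- From the fraction of the block permutations to the fraction of all permutations. -/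
theorem card_sym_le (N t X : ℕ) (b : Fin t × Fin 5 ↪ Fin N)
    (C : Circuit (Sym2 (Fin N))) (U : Finset C.Gate)
    (h : Nat.card {a : Fin t → A5 // ∃ π, C.AutU U (pairs (blk b a)) π} ≤ 12 ^ t * X) :
    Nat.card {σ : Equiv.Perm (Fin N) // ∃ π, C.AutU U (pairs σ) π} * 5 ^ t ≤
      N.factorial * X := by
  have h1 : Nat.card (symGroup C U) * (symGroup C U).index = N.factorial := by
    rw [Subgroup.card_mul_index, Nat.card_eq_fintype_card, Fintype.card_perm, Fintype.card_fin]
  have h2 : Nat.card ((symGroup C U).comap (blk b)) *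
      ((symGroup C U).comap (blk b)).index = 60 ^ t := by
    have h60 : Fintype.card A5 = 60 := by
      rw [← Nat.card_eq_fintype_card, nat_card_alternatingGroup, Nat.card_eq_fintype_card,
        Fintype.card_fin]
      rfl
    rw [Subgroup.card_mul_index, Nat.card_eq_fintype_card, Fintype.card_fun, Fintype.card_fin,
      h60]
  have h3 : Nat.card ((symGroup C U).comap (blk b)) ≤ 12 ^ t * X := h
  have h4 := index_comap_le (blk b) (symGroup C U)
  have h5 : 60 ^ t ≤ 12 ^ t * X * (symGroup C U).index := by
    rw [← h2]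
    exact Nat.mul_le_mul h3 h4
  have h6 : 12 ^ t * 5 ^ t ≤ 12 ^ t * (X * (symGroup C U).index) := by
    rw [← mul_pow, ← mul_assoc]
    exact h5
  have h7 : 5 ^ t ≤ X * (symGroup C U).index :=
    Nat.le_of_mul_le_mul_left h6 (by positivity)
  calc Nat.card {σ : Equiv.Perm (Fin N) // ∃ π, C.AutU U (pairs σ) π} * 5 ^ t
      ≤ Nat.card (symGroup C U) * (X * (symGroup C U).index) := Nat.mul_le_mul_left _ h7
    _ = N.factorial * X := by rw [← h1]; ring

/-- `t` disjoint five-element sets of vertices exist. -/
theorem exists_blocks (N t : ℕ) (h : 5 * t ≤ N) : Nonempty (Fin t × Fin 5 ↪ Fin N) := by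
  refine Function.Embedding.nonempty_of_card_le ?_
  rw [Fintype.card_prod, Fintype.card_fin, Fintype.card_fin, Fintype.card_fin]
  omega

/-- **Every circuit for the clique function is almost asymmetric**: the number of all
permutations of the vertices which are symmetries. -/
theorem fracN (N t k : ℕ) (ht : t ≤ k) (hk : k + 5 * t ≤ N)
    (C : Circuit (Sym2 (Fin N))) (hC : C.Computes (clique k)) (U : Finset C.Gate) :
    Nat.card {σ : Equiv.Perm (Fin N) // ∃ π, C.AutU U (pairs σ) π} * 5 ^ t ≤
      N.factorial * (C.size + 1) ^ (24000 * (C.wiresInto U + 1)) := by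
  obtain ⟨b⟩ := exists_blocks N t (by omega)
  refine card_sym_le N t _ b C U ?_
  have h1 : Nat.card {a : Fin t → A5 // ∃ π, C.AutU U (pairs (blk b a)) π} =
      Nat.card {a : Fin t → alternatingGroup (Fin 5) // IsSym b C U a} :=
    Nat.card_congr (Equiv.subtypeEquivRight (fun a => (isSym_iff.trans mem_SymOf).symm))
  rw [h1]
  exact frac N t k b ht hk C hC U

end Pool.Agent.PSY
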