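import Pool.Agent.PSY.CubD

set_option autoImplicit false

/-!
# The clique function and the instances: definitions
-/

namespace Pool.Agent.PSY

open Pool.Agent.NXL

open Classical in
/-- The clique function: `X` lists the edges of a graph on `V` (the bits `X s(x, x)` are ignored);
is there a clique with `k` vertices? -/
noncomputable def clique {V : Type} (k : ℕ) (X : Sym2 V → Bool) : Bool :=
  decide (∃ s : Finset V, s.card = k ∧ ∀ x ∈ s, ∀ y ∈ s, x ≠ y → X s(x, y) = true)

/-- The action of a permutation of the vertices on the pairs. -/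
def pairs {V : Type} : Equiv.Perm V →* Equiv.Perm (Sym2 V) where
  toFun σ := ⟨Sym2.map σ, Sym2.map σ.symm, fun e => by simp [Sym2.map_map], fun e => by
    simp [Sym2.map_map]⟩
  map_one' := by
    ext e; simp
  map_mul' σ τ := by
    ext e; simp [Sym2.map_map]

theorem pairs_mk {V : Type} (σ : Equiv.Perm V) (x y : V) : pairs σ s(x, y) = s(σ x, σ y) := rfl

/-- The permutation of the vertices which acts as `a n` on the block of `n`. -/
noncomputable def blk {V ι : Type} (b : ι × Fin 5 ↪ V) : (ι → A5) →* Equiv.Perm V :=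
  (Equiv.Perm.viaEmbeddingHom b).comp
    { toFun := fun a => Equiv.prodShear (Equiv.refl ι) fun i => (a i : Equiv.Perm (Fin 5))
      map_one' := by ext x <;> simp
      map_mul' := fun a a' => by ext x <;> simp }

/-- The adjacency in the instance with right hand sides `c`; the vertices in `Q` are joined to
all others of the instance. -/
def Adj {M : ℕ} {V : Type} (b : Nd M × Fin 5 ↪ V) (Q : Finset V) (c : Eg M → ZMod 2)
    (x y : V) : Prop :=
  (x ∈ Q ∧ y ∈ Q) ∨ (x ∈ Q ∧ ∃ n p, p ≠ 4 ∧ y = b (n, p)) ∨ (y ∈ Q ∧ ∃ n p, p ≠ 4 ∧ x = b (n, p)) ∨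
    ∃ n p n' p', n ≠ n' ∧ p ≠ 4 ∧ p' ≠ 4 ∧ x = b (n, p) ∧ y = b (n', p') ∧
      (∀ e, src e = n → tgt e = n' → cons c e p p' = true) ∧
      (∀ e, src e = n' → tgt e = n → cons c e p' p = true)

theorem Adj.symm {M : ℕ} {V : Type} {b : Nd M × Fin 5 ↪ V} {Q : Finset V}
    {c : Eg M → ZMod 2} {x y : V} (h : Adj b Q c x y) : Adj b Q c y x := by
  rcases h with ⟨h1, h2⟩ | h | h | ⟨n, p, n', p', h1, h2, h3, h4, h5, h6, h7⟩
  · exact Or.inl ⟨h2, h1⟩
  · exact Or.inr (Or.inr (Or.inl h))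
  · exact Or.inr (Or.inl h)
  · exact Or.inr (Or.inr (Or.inr ⟨n', p', n, p, h1.symm, h3, h2, h5, h4, h7, h6⟩))

theorem adj_symm {M : ℕ} {V : Type} (b : Nd M × Fin 5 ↪ V) (Q : Finset V)
    (c : Eg M → ZMod 2) : Std.Symm (Adj b Q c) := ⟨fun _ _ h => Adj.symm h⟩

open Classical in
/-- The instance. -/
noncomputable def inst {M : ℕ} {V : Type} (b : Nd M × Fin 5 ↪ V) (Q : Finset V)
    (c : Eg M → ZMod 2) (e : Sym2 V) : Bool :=
  decide (e ∈ Sym2.fromRel (adj_symm b Q c))

theorem inst_mk {M : ℕ} {V : Type} (b : Nd M × Fin 5 ↪ V) (Q : Finset V)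
    (c : Eg M → ZMod 2) (x y : V) : inst b Q c s(x, y) = true ↔ Adj b Q c x y := by
  simp [inst]

open Classical in
/-- The nodes whose blocks meet the pair `e`. -/
noncomputable def sp {ι V : Type} [Fintype ι] (b : ι × Fin 5 ↪ V) (e : Sym2 V) : Finset ι :=
  Finset.univ.filter fun n => ∃ p, b (n, p) ∈ e

end Pool.Agent.PSY
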