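import Mathlib

set_option autoImplicit false

/-!
# Circuits with arbitrary symmetric gates
-/

namespace Pool.Agent.PSY

/-- A circuit with arbitrary symmetric gates and inputs `I`: the gate `g` reads the gates and
inputs in the finite set `reads g` and applies the function `fn g` to the number of those with
value `true`. `rank` shows that there are no cycles. -/
structure SymCircuit (I : Type) where
  Gate : Type
  fin : Fintype Gate
  rank : Gate → ℕ
  reads : Gate → Finset (Gate ⊕ I)
  rank_lt : ∀ g h, Sum.inl h ∈ reads g → rank h < rank g
  fn : Gate → ℕ → Bool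
  out : Gate

attribute [instance] SymCircuit.fin

namespace SymCircuit

variable {I : Type}

/-- The number of gates. -/
def size (C : SymCircuit I) : ℕ := Fintype.card C.Gate

/-- `v` gives the values of all gates on the input `X`. -/
def IsVal (C : SymCircuit I) (X : I → Bool) (v : C.Gate → Bool) : Prop :=
  ∀ g, v g = C.fn g ((C.reads g).filter fun x => Sum.elim v X x = true).card

/-- The circuit computes `f`. -/
def Computes (C : SymCircuit I) (f : (I → Bool) → Bool) : Prop :=
  ∀ X, ∃ v, C.IsVal X v ∧ v C.out = f X

/-- The number of wires into the gates in `U`. -/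
def wires (C : SymCircuit I) (U : Finset C.Gate) : ℕ := ∑ g ∈ U, (C.reads g).card

/-- The permutation `s` of the inputs is a symmetry of the circuit up to the gates in `U`: there is
a permutation `π` of the gates which fixes the output and all gates in `U` and which, together
with `s`, preserves the function of every gate outside `U` and the set that it reads. -/
def IsSymmetry (C : SymCircuit I) (U : Finset C.Gate) (s : Equiv.Perm I) : Prop :=
  ∃ π : Equiv.Perm C.Gate, π C.out = C.out ∧ (∀ g ∈ U, π g = g) ∧
    ∀ g, g ∉ U → C.fn (π g) = C.fn g ∧ ∀ x, Sum.map π s x ∈ C.reads (π g) ↔ x ∈ C.reads g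

end SymCircuit

/-- The permutation `σ` of the vertices is even on each of the five-element sets
`{b (i, p) | p}` and fixes all other vertices. -/
def EvenInBlocks {V : Type} {t : ℕ} (b : Fin t × Fin 5 ↪ V) (σ : Equiv.Perm V) : Prop :=
  (∀ i, ∃ a ∈ alternatingGroup (Fin 5), ∀ p, σ (b (i, p)) = b (i, a p)) ∧
    ∀ x, x ∉ Set.range b → σ x = x

end Pool.Agent.PSY
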