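import Pool.Agent.PSY.IndU
import Pool.Agent.PSY.SymD

set_option autoImplicit false

/-!
# Circuits with arbitrary symmetric gates as circuits with weights
-/

namespace Pool.Agent.PSY

namespace SymCircuit

variable {I : Type}

open Classical in
/-- The circuit as a circuit with weights. -/
noncomputable def toCircuit (C : SymCircuit I) : Circuit I where
  Gate := C.Gate
  fin := C.fin
  rank := C.rank
  w := fun g h => if Sum.inl h ∈ C.reads g then 1 else 0
  wi := fun g i => if Sum.inr i ∈ C.reads g then 1 else 0
  rank_lt := fun g h hw => C.rank_lt g h (by by_contra hn; exact hw (if_neg hn))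
  fn := fun g s => C.fn g ⌊s⌋₊
  out := C.out

open Classical in
theorem sum_reads [Fintype I] (C : SymCircuit I) (X : I → Bool) (v : C.Gate → Bool)
    (g : C.Gate) :
    (∑ h : C.Gate, if v h = true then (if Sum.inl h ∈ C.reads g then (1 : ℝ) else 0) else 0) +
      (∑ i : I, if X i = true then (if Sum.inr i ∈ C.reads g then (1 : ℝ) else 0) else 0) =
      (((C.reads g).filter fun x => Sum.elim v X x = true).card : ℝ) := by
  have h1 : ((C.reads g).filter fun x => Sum.elim v X x = true) =
      Finset.univ.filter fun x : C.Gate ⊕ I => x ∈ C.reads g ∧ Sum.elim v X x = true := by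
    ext x; simp
  rw [h1, Finset.card_filter, Nat.cast_sum, Fintype.sum_sum_type]
  congr 1
  · refine Finset.sum_congr rfl fun h _ => ?_
    by_cases h2 : v h = true <;> by_cases h3 : Sum.inl h ∈ C.reads g <;> simp [h2, h3]
  · refine Finset.sum_congr rfl fun i _ => ?_
    by_cases h2 : X i = true <;> by_cases h3 : Sum.inr i ∈ C.reads g <;> simp [h2, h3]

theorem toCircuit_val [Fintype I] (C : SymCircuit I) (X : I → Bool) (v : C.Gate → Bool)
    (hv : C.IsVal X v) (g : C.Gate) : v g = C.toCircuit.val X g := by
  classical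
  refine val_unique C.toCircuit X v (fun g => ?_) g
  have h := sum_reads C X v g
  have h2 := hv g
  have h3 : C.fn g ⌊(∑ h : C.Gate, if v h = true then
        (if Sum.inl h ∈ C.reads g then (1 : ℝ) else 0) else 0) +
      (∑ i : I, if X i = true then (if Sum.inr i ∈ C.reads g then (1 : ℝ) else 0) else 0)⌋₊ =
      v g := by
    rw [h, Nat.floor_natCast, h2]
  exact h3.symm

theorem toCircuit_computes [Fintype I] (C : SymCircuit I) (f : (I → Bool) → Bool)
    (hC : C.Computes f) : C.toCircuit.Computes f := by
  intro X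
  obtain ⟨v, hv, ho⟩ := hC X
  rw [← ho]
  exact (toCircuit_val C X v hv C.out).symm

theorem toCircuit_wires [Fintype I] (C : SymCircuit I) (U : Finset C.Gate) :
    C.toCircuit.wiresInto U ≤ C.wires U := by
  classical
  have h1 : ∀ g h, C.toCircuit.w g h ≠ 0 ↔ Sum.inl h ∈ C.reads g := by
    intro g h
    simp only [toCircuit]
    by_cases h2 : Sum.inl h ∈ C.reads g <;> simp [h2]
  have h3 : ∀ g i, C.toCircuit.wi g i ≠ 0 ↔ Sum.inr i ∈ C.reads g := by
    intro g i
    simp only [toCircuit]
    by_cases h2 : Sum.inr i ∈ C.reads g <;> simp [h2]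
  have h4 : ∀ g, (C.reads g).card = (Finset.univ.filter fun h => Sum.inl h ∈ C.reads g).card +
      (Finset.univ.filter fun i => Sum.inr i ∈ C.reads g).card := by
    intro g
    have h5 : C.reads g = Finset.univ.filter fun x : C.Gate ⊕ I => x ∈ C.reads g := by
      ext x; simp
    conv_lhs => rw [h5]
    rw [Finset.card_filter, Fintype.sum_sum_type, Finset.card_filter, Finset.card_filter]
  have h6 : ((U ×ˢ (Finset.univ : Finset C.Gate)).filter
      (fun p => C.toCircuit.w p.1 p.2 ≠ 0)).card =
      ∑ g ∈ U, (Finset.univ.filter fun h : C.Gate => Sum.inl h ∈ C.reads g).card := by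
    rw [Finset.card_filter, Finset.sum_product]
    refine Finset.sum_congr rfl fun g _ => ?_
    rw [Finset.card_filter]
    exact Finset.sum_congr rfl fun h _ => if_congr (h1 g h) rfl rfl
  have h7 : ((U ×ˢ (Finset.univ : Finset I)).filter
      (fun p => C.toCircuit.wi p.1 p.2 ≠ 0)).card =
      ∑ g ∈ U, (Finset.univ.filter fun i : I => Sum.inr i ∈ C.reads g).card := by
    rw [Finset.card_filter, Finset.sum_product]
    refine Finset.sum_congr rfl fun g _ => ?_
    rw [Finset.card_filter]
    exact Finset.sum_congr rfl fun i _ => if_congr (h3 g i) rfl rfl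
  refine le_of_eq ?_
  calc C.toCircuit.wiresInto U
      = ∑ g ∈ U, (Finset.univ.filter fun h : C.Gate => Sum.inl h ∈ C.reads g).card +
        ∑ g ∈ U, (Finset.univ.filter fun i : I => Sum.inr i ∈ C.reads g).card := by
        rw [← h6, ← h7]; rfl
    _ = C.wires U := by
        rw [← Finset.sum_add_distrib]
        exact Finset.sum_congr rfl fun g _ => (h4 g).symm

theorem toCircuit_autU (C : SymCircuit I) (U : Finset C.Gate) (s : Equiv.Perm I)
    (h : C.IsSymmetry U s) : ∃ π, C.toCircuit.AutU U s π := by
  classical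
  obtain ⟨π, h1, h2, h3⟩ := h
  refine ⟨π, h2, h1, fun g hg => ⟨fun k => ?_, fun i => ?_, ?_⟩⟩
  · have := (h3 g hg).2 (Sum.inl k)
    simp only [Sum.map_inl] at this
    exact if_congr this rfl rfl
  · have := (h3 g hg).2 (Sum.inr i)
    simp only [Sum.map_inr] at this
    exact if_congr this rfl rfl
  · exact congrArg (fun f : ℕ → Bool => fun s : ℝ => f ⌊s⌋₊) (h3 g hg).1

end SymCircuit

end Pool.Agent.PSY
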