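import Pool.Agent.PSY.CubD

set_option autoImplicit false

/-!
# Equivalent twists; an instance with one twist has no solution
-/

namespace Pool.Agent.PSY

open Pool.Agent.NXL

theorem src_ne_tgt {M : ℕ} (e : Eg M) : src e ≠ tgt e := by
  have h1 : ∀ k : Fin 8, k ≠ k + 1 := by decide
  have h2 : ∀ j : Fin 4, (Fin.castAdd 4 j : Fin 8) ≠ Fin.natAdd 4 j := by decide
  rcases e with p | p
  · intro h
    exact h1 p.2 (congrArg Prod.snd h)
  · intro h
    exact h2 p.2 (congrArg Prod.snd h)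

theorem Eqv.refl {M : ℕ} (B : Finset (Nd M)) (c : Eg M → ZMod 2) : Eqv B c c :=
  ⟨1, fun _ _ => rfl, fun _ _ _ => rfl⟩

theorem Eqv.trans {M : ℕ} {B : Finset (Nd M)} {c c' c'' : Eg M → ZMod 2} (h : Eqv B c c')
    (h' : Eqv B c' c'') : Eqv B c c'' := by
  obtain ⟨a, ha, hc⟩ := h
  obtain ⟨a', ha', hc'⟩ := h'
  refine ⟨a' * a, fun n hn => ?_, fun e p q => ?_⟩
  · rw [Pi.mul_apply, ha n hn, ha' n hn, one_mul]
  · rw [← hc e p q, ← hc' e _ _]
    rfl

theorem Eqv.symm {M : ℕ} {B : Finset (Nd M)} {c c' : Eg M → ZMod 2} (h : Eqv B c c') :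
    Eqv B c' c := by
  obtain ⟨a, ha, hc⟩ := h
  refine ⟨a⁻¹, fun n hn => ?_, fun e p q => ?_⟩
  · rw [Pi.inv_apply, ha n hn, inv_one]
  · rw [← hc e _ _]
    have h1 : ∀ (n : Nd M) (p : Fin 5),
        (a n : Equiv.Perm (Fin 5)) (((a⁻¹ n : A5) : Equiv.Perm (Fin 5)) p) = p := by
      intro n p
      rw [Pi.inv_apply]
      exact Equiv.apply_symm_apply _ _
    rw [h1, h1]

/-- An instance with one twist has no solution. -/
theorem not_sol {M : ℕ} [NeZero M] (z : Vt M) (y : Nd M → Fin 5) :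
    ¬ ∀ e, cons (tw z) e (y (src e)) (y (tgt e)) = true := by
  classical
  intro h
  have h1 : ∀ e : Eg M, fS e (y (src e)) + fT e (y (tgt e)) = tw z e := by
    intro e
    exact (of_decide_eq_true (h e)).2.2
  have h2 : ∑ e : Eg M, (fS e (y (src e)) + fT e (y (tgt e))) = 1 := by
    rw [Finset.sum_congr rfl fun e _ => h1 e]
    unfold tw
    rw [Finset.sum_pi_single' (Sum.inl (z, 0)) (1 : ZMod 2) Finset.univ,
      if_pos (Finset.mem_univ _)]
  have h3 : ∑ e : Eg M, (fS e (y (src e)) + fT e (y (tgt e))) = 0 := by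
    rw [Fintype.sum_sum_type]
    have h4 : ∑ p : Vt M × Fin 8, (fS (Sum.inl p : Eg M) (y (src (Sum.inl p))) +
        fT (Sum.inl p : Eg M) (y (tgt (Sum.inl p)))) =
        ∑ p : Vt M × Fin 8, fv (y p) + ∑ p : Vt M × Fin 8, fu (y p) := by
      rw [Finset.sum_add_distrib]
      congr 1
      exact Equiv.sum_comp (Equiv.prodCongr (Equiv.refl (Vt M)) (Equiv.addRight (1 : Fin 8)))
        fun p => fu (y p)
    have h5 : ∑ p : Vt M × Fin 4, (fS (Sum.inr p : Eg M) (y (src (Sum.inr p))) +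
        fT (Sum.inr p : Eg M) (y (tgt (Sum.inr p)))) =
        ∑ p : Vt M × Fin 8, (fu (y p) + fv (y p)) := by
      rw [Finset.sum_add_distrib, Fintype.sum_prod_type (f := fun p : Vt M × Fin 8 =>
        fu (y p) + fv (y p))]
      have h6 : ∀ w : Vt M, ∑ k : Fin 8, (fu (y (w, k)) + fv (y (w, k))) =
          ∑ j : Fin 4, (fu (y (w, Fin.castAdd 4 j)) + fv (y (w, Fin.castAdd 4 j))) +
            ∑ j : Fin 4, (fu (y (w, Fin.natAdd 4 j)) + fv (y (w, Fin.natAdd 4 j))) := by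
        intro w
        exact Fin.sum_univ_add (fun k : Fin (4 + 4) => fu (y (w, k)) + fv (y (w, k)))
      rw [Finset.sum_congr rfl fun w _ => h6 w, Finset.sum_add_distrib]
      congr 1
      · rw [Fintype.sum_prod_type]
        rfl
      · rw [Fintype.sum_prod_type_right, Finset.sum_comm (f := fun (w : Vt M) (j : Fin 4) =>
            fu (y (w, (Fin.natAdd 4 j : Fin 8))) + fv (y (w, (Fin.natAdd 4 j : Fin 8))))]
        refine Finset.sum_congr rfl fun j _ => ?_
        exact Equiv.sum_comp (T j) fun w =>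
          fu (y (w, (Fin.natAdd 4 j : Fin 8))) + fv (y (w, (Fin.natAdd 4 j : Fin 8)))
    rw [h4, h5, Finset.sum_add_distrib]
    have h6 : ∀ u v : ZMod 2, v + u + (u + v) = 0 := by decide
    exact h6 _ _
  rw [h3] at h2
  exact absurd h2 (by decide)

end Pool.Agent.PSY
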