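import Pool.Agent.PSY.ClqD
import Pool.Agent.PSY.Par

set_option autoImplicit false

/-!
# Cliques in the instances
-/

namespace Pool.Agent.PSY

open Pool.Agent.NXL

/-- Every vertex with a neighbour is in `Q` or active in a block. -/
theorem Adj.left {M : ℕ} {V : Type} {b : Nd M × Fin 5 ↪ V} {Q : Finset V}
    {c : Eg M → ZMod 2} {x y : V} (h : Adj b Q c x y) :
    x ∈ Q ∨ ∃ n p, p ≠ 4 ∧ x = b (n, p) := by
  rcases h with h | h | h | ⟨n, p, n', p', h1, h2, h3, h4, h5, h6, h7⟩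
  · exact Or.inl h.1
  · exact Or.inl h.1
  · exact Or.inr h.2
  · exact Or.inr ⟨n, p, h2, h4⟩

/-- The adjacency of two vertices in blocks. -/
theorem Adj.blocks {M : ℕ} {V : Type} {b : Nd M × Fin 5 ↪ V} {Q : Finset V}
    (hQ : ∀ x ∈ Q, x ∉ Set.range b) {c : Eg M → ZMod 2} {n n' : Nd M} {p p' : Fin 5}
    (h : Adj b Q c (b (n, p)) (b (n', p'))) :
    n ≠ n' ∧ p ≠ 4 ∧ p' ≠ 4 ∧ (∀ e, src e = n → tgt e = n' → cons c e p p' = true) ∧
      (∀ e, src e = n' → tgt e = n → cons c e p' p = true) := by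
  rcases h with h | h | h | ⟨m, q, m', q', h1, h2, h3, h4, h5, h6, h7⟩
  · exact absurd ⟨_, rfl⟩ (hQ _ h.1)
  · exact absurd ⟨_, rfl⟩ (hQ _ h.1)
  · exact absurd ⟨_, rfl⟩ (hQ _ h.1)
  · have e1 := b.injective h4
    have e2 := b.injective h5
    simp only [Prod.mk.injEq] at e1 e2
    obtain ⟨rfl, rfl⟩ := e1
    obtain ⟨rfl, rfl⟩ := e2
    exact ⟨h1, h2, h3, h6, h7⟩

theorem card_Nd (M : ℕ) [NeZero M] : Fintype.card (Nd M) = 8 * M ^ 2 := by
  simp only [Nd, Vt, Fintype.card_prod, ZMod.card, Fintype.card_fin]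
  ring

/-- The untwisted instance has a large clique. -/
theorem clique_zero {M : ℕ} [NeZero M] {V : Type} (b : Nd M × Fin 5 ↪ V) (Q : Finset V)
    (hQ : ∀ x ∈ Q, x ∉ Set.range b) :
    clique (Q.card + 8 * M ^ 2) (inst b Q (0 : Eg M → ZMod 2)) = true := by
  classical
  unfold clique
  rw [decide_eq_true_eq]
  let g : Nd M ↪ V := ⟨fun n => b (n, 0), fun n n' h => by
    have := b.injective h
    simpa using this⟩
  refine ⟨Q ∪ Finset.univ.map g, ?_, ?_⟩
  · rw [Finset.card_union_of_disjoint, Finset.card_map, Finset.card_univ, card_Nd]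
    rw [Finset.disjoint_left]
    intro x hx hx'
    obtain ⟨n, -, rfl⟩ := Finset.mem_map.mp hx'
    exact hQ _ hx ⟨_, rfl⟩
  · intro x hx y hy hxy
    rw [inst_mk]
    have hmem : ∀ x ∈ Q ∪ Finset.univ.map g, x ∈ Q ∨ ∃ n, x = b (n, 0) := by
      intro x hx
      rcases Finset.mem_union.mp hx with h | h
      · exact Or.inl h
      · obtain ⟨n, -, rfl⟩ := Finset.mem_map.mp h
        exact Or.inr ⟨n, rfl⟩
    rcases hmem x hx with h | ⟨n, rfl⟩ <;> rcases hmem y hy with h' | ⟨n', rfl⟩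
    · exact Or.inl ⟨h, h'⟩
    · exact Or.inr (Or.inl ⟨h, n', 0, by decide, rfl⟩)
    · exact Or.inr (Or.inr (Or.inl ⟨h', n, 0, by decide, rfl⟩))
    · refine Or.inr (Or.inr (Or.inr ⟨n, 0, n', 0, ?_, by decide, by decide, rfl, rfl,
        fun e _ _ => cons_zero e, fun e _ _ => cons_zero e⟩))
      rintro rfl
      exact hxy rfl

/-- The twisted instance has no large clique. -/
theorem clique_twist {M : ℕ} [NeZero M] {V : Type} (b : Nd M × Fin 5 ↪ V) (Q : Finset V)
    (hQ : ∀ x ∈ Q, x ∉ Set.range b) (z : Vt M) :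
    clique (Q.card + 8 * M ^ 2) (inst b Q (tw z)) = false := by
  classical
  unfold clique
  rw [decide_eq_false_iff_not]
  rintro ⟨s, hs, hcl⟩
  have hM : 0 < M ^ 2 := pow_pos (Nat.pos_of_ne_zero (NeZero.ne M)) 2
  have hadj : ∀ x ∈ s, ∀ y ∈ s, x ≠ y → Adj b Q (tw z) x y := fun x hx y hy h =>
    (inst_mk b Q (tw z) x y).mp (hcl x hx y hy h)
  have hact : ∀ x ∈ s, x ∈ Q ∨ ∃ n p, p ≠ 4 ∧ x = b (n, p) := by
    intro x hx
    have h2 : 1 < s.card := by omega
    obtain ⟨y, hy, hyx⟩ := Finset.exists_mem_ne h2 x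
    exact (hadj x hx y hy (Ne.symm hyx)).left
  -- the node of a vertex
  have hnode : ∀ x ∈ s \ Q, ∃ n : Nd M, ∃ p, p ≠ 4 ∧ x = b (n, p) := by
    intro x hx
    rw [Finset.mem_sdiff] at hx
    rcases hact x hx.1 with h | h
    · exact absurd h hx.2
    · exact h
  choose! nd hnd using hnode
  have hinj : Set.InjOn nd (s \ Q : Finset V) := by
    intro x hx y hy hxy
    by_contra hne
    obtain ⟨p, hp, hxp⟩ := hnd x hx
    obtain ⟨q, hq, hyq⟩ := hnd y hy
    have hx' := (Finset.mem_sdiff.mp (Finset.mem_coe.mp hx)).1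
    have hy' := (Finset.mem_sdiff.mp (Finset.mem_coe.mp hy)).1
    have h := hadj x hx' y hy' hne
    rw [hxp, hyq] at h
    exact (h.blocks hQ).1 hxy
  have hcard : (Finset.univ : Finset (Nd M)).card ≤ (s \ Q).card := by
    rw [Finset.card_univ, card_Nd]
    have h1 : s.card ≤ (s \ Q).card + Q.card := by
      have := Finset.card_le_card (show s ⊆ (s \ Q) ∪ Q from fun x hx => by
        by_cases h : x ∈ Q
        · exact Finset.mem_union_right _ h
        · exact Finset.mem_union_left _ (Finset.mem_sdiff.mpr ⟨hx, h⟩))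
      exact this.trans (Finset.card_union_le _ _)
    omega
  have hsurj : ∀ n : Nd M, ∃ p, p ≠ 4 ∧ b (n, p) ∈ s := by
    intro n
    have himg : (s \ Q).image nd = Finset.univ := by
      apply Finset.eq_univ_of_card
      rw [Finset.card_image_of_injOn hinj]
      refine le_antisymm ?_ ?_
      · rw [← Finset.card_image_of_injOn hinj]
        exact Finset.card_le_univ _
      · rw [← Finset.card_univ]; exact hcard
    have hn : n ∈ (s \ Q).image nd := by rw [himg]; exact Finset.mem_univ n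
    obtain ⟨x, hx, rfl⟩ := Finset.mem_image.mp hn
    obtain ⟨p, hp, hxp⟩ := hnd x hx
    exact ⟨p, hp, by rw [← hxp]; exact (Finset.mem_sdiff.mp hx).1⟩
  choose y hy4 hys using hsurj
  refine not_sol z y fun e => ?_
  have hne : b (src e, y (src e)) ≠ b (tgt e, y (tgt e)) := by
    intro h
    have := b.injective h
    simp only [Prod.mk.injEq] at this
    exact src_ne_tgt e this.1
  exact ((hadj _ (hys _) _ (hys _) hne).blocks hQ).2.2.2.1 e rfl rfl

end Pool.Agent.PSY
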