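import Pool.Agent.PSY.BlkA
import Pool.Agent.PSY.Cliq

set_option autoImplicit false

/-!
# The blocks of the instance among the given blocks
-/

namespace Pool.Agent.PSY

open Pool.Agent.NXL

/-- From `t` blocks to the `8 M ^ 2` blocks of the instance: an embedding `j` of the nodes into the
blocks, the vertices `Q` joined to everything, and the extension of the group elements. -/
theorem exists_emb {M : ℕ} [NeZero M] {V : Type} [Fintype V] (t k : ℕ) (b : Fin t × Fin 5 ↪ V)
    (h8 : 8 * M ^ 2 ≤ t) (hk : t ≤ k) (hkV : k + 5 * t ≤ Fintype.card V) :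
    ∃ (b' : Nd M × Fin 5 ↪ V) (Q : Finset V), (∀ x ∈ Q, x ∉ Set.range b') ∧
      Q.card + 8 * M ^ 2 = k ∧
      ∀ a : Nd M → A5, ∃ a' : Fin t → A5,
        (∀ i p, blk b' a (b (i, p)) = b (i, (a' i : Equiv.Perm (Fin 5)) p)) ∧
        ∀ x, x ∉ Set.range b → blk b' a x = x := by
  classical
  have hcard : Fintype.card (Nd M) ≤ Fintype.card (Fin t) := by
    rw [card_Nd, Fintype.card_fin]
    exact h8
  obtain ⟨j⟩ := Function.Embedding.nonempty_of_card_le hcard
  let b' : Nd M × Fin 5 ↪ V := (j.prodMap (Function.Embedding.refl (Fin 5))).trans b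
  have hb' : ∀ n p, b' (n, p) = b (j n, p) := fun n p => rfl
  obtain ⟨R, hR⟩ : ∃ R : Finset V, R = Finset.univ.map b' := ⟨_, rfl⟩
  have hRc : R.card = 5 * (8 * M ^ 2) := by
    rw [hR, Finset.card_map, Finset.card_univ, Fintype.card_prod, card_Nd, Fintype.card_fin]
    ring
  have hmemR : ∀ x, x ∈ R ↔ x ∈ Set.range b' := by
    intro x
    rw [hR, Finset.mem_map, Set.mem_range]
    constructor
    · rintro ⟨y, _, hy⟩
      exact ⟨y, hy⟩
    · rintro ⟨y, hy⟩
      exact ⟨y, Finset.mem_univ _, hy⟩
  have hcompl : k - 8 * M ^ 2 ≤ (Rᶜ).card := by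
    rw [Finset.card_compl, hRc]
    omega
  obtain ⟨Q, hQ1, hQ2⟩ := Finset.exists_subset_card_eq hcompl
  refine ⟨b', Q, ?_, by omega, ?_⟩
  · intro x hx hxr
    have h1 := hQ1 hx
    rw [Finset.mem_compl] at h1
    exact h1 ((hmemR x).2 hxr)
  · intro a
    refine ⟨fun i => if h : ∃ n, j n = i then a h.choose else 1, ?_, ?_⟩
    · intro i p
      by_cases h : ∃ n, j n = i
      · obtain ⟨n, hn⟩ := h
        subst hn
        have h1 : (if h : ∃ m, j m = j n then a h.choose else 1) = a n := by
          have h2 : ∃ m, j m = j n := ⟨n, rfl⟩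
          rw [dif_pos h2]
          congr 1
          exact j.injective h2.choose_spec
        change blk b' a (b' (n, p)) = _
        rw [blk_apply]
        change b' (n, (a n : Equiv.Perm (Fin 5)) p) =
          b (j n, ((if h : ∃ m, j m = j n then a h.choose else 1 : A5) : Equiv.Perm (Fin 5)) p)
        rw [h1]
        rfl
      · have h1 : b (i, p) ∉ Set.range b' := by
          rintro ⟨⟨n, q⟩, hq⟩
          rw [hb'] at hq
          have h2 := b.injective hq
          exact h ⟨n, congrArg Prod.fst h2⟩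
        rw [blk_apply_of_not b' a _ h1]
        change b (i, p) =
          b (i, ((if h : ∃ m, j m = i then a h.choose else 1 : A5) : Equiv.Perm (Fin 5)) p)
        rw [dif_neg h]
        rfl
    · intro x hx
      refine blk_apply_of_not b' a x ?_
      rintro ⟨⟨n, q⟩, hq⟩
      exact hx ⟨(j n, q), hq⟩

end Pool.Agent.PSY
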