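import Mathlib

set_option autoImplicit false

/-!
# Numbers
-/

namespace Pool.Agent.PSY

/-- The size of the cubic graph for `t` blocks. -/
theorem choose_M2 (t : ℕ) (ht : 3528 ≤ t) :
    ∃ M : ℕ, Odd M ∧ 8 * M ^ 2 ≤ t ∧ 5 * t < 48 * M ^ 2 ∧ 441 ≤ M ^ 2 := by
  obtain ⟨k, hk⟩ : ∃ k, k = Nat.findGreatest (fun k => 8 * (2 * k + 1) ^ 2 ≤ t) t := ⟨_, rfl⟩
  have h10 : 10 ≤ k := by
    rw [hk]
    exact Nat.le_findGreatest (P := fun k => 8 * (2 * k + 1) ^ 2 ≤ t) (by omega)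
      (by norm_num; omega)
  have h0 : 8 * (2 * k + 1) ^ 2 ≤ t := by
    rw [hk]
    exact Nat.findGreatest_spec (P := fun k => 8 * (2 * k + 1) ^ 2 ≤ t) (m := 0) (Nat.zero_le t)
      (by norm_num; omega)
  have h1 : t < 8 * (2 * (k + 1) + 1) ^ 2 := by
    by_contra h
    push Not at h
    have h2 : k + 1 ≤ t := by nlinarith
    have h3 := Nat.le_findGreatest (P := fun k => 8 * (2 * k + 1) ^ 2 ≤ t) h2 h
    omega
  refine ⟨2 * k + 1, odd_two_mul_add_one k, h0, ?_, ?_⟩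
  · have h3 : 441 * (2 * (k + 1) + 1) ^ 2 ≤ 529 * (2 * k + 1) ^ 2 := by nlinarith
    have h2 : 0 < (2 * k + 1) ^ 2 := by positivity
    omega
  · nlinarith

/-- The numbers of the final step. -/
theorem num_final (t F e M : ℕ) (he : 1 ≤ e) (hte : 4000 * (F + 1) * e ≤ t)
    (hM : 5 * t < 48 * M ^ 2) : 640 * ((F + 2) * max (e - 1) 2) < 7 * M ^ 2 := by
  have h1 : max (e - 1) 2 ≤ 2 * e := by omega
  have h2 : (F + 2) * max (e - 1) 2 ≤ (2 * (F + 1)) * (2 * e) :=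
    Nat.mul_le_mul (by omega) h1
  have h3 : (2 * (F + 1)) * (2 * e) = 4 * ((F + 1) * e) := by ring
  have h4 : 4000 * (F + 1) * e = 4000 * ((F + 1) * e) := by ring
  rw [h3] at h2
  rw [h4] at hte
  omega

end Pool.Agent.PSY
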