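import Pool.Agent.PSY.LowU
import Pool.Agent.PSY.Emb
import Pool.Agent.PSY.Num2
import Pool.Agent.PSY.Grp5

set_option autoImplicit false

/-!
# The fraction of the block permutations which are symmetries of a circuit
-/

namespace Pool.Agent.PSY

/-- The element `a` of `A_5^t` is a symmetry of the circuit up to the gates in `U`: the
permutation `σ` of the vertices, which acts as `a i` on the `i`-th five-set and fixes all other
vertices, is induced by a permutation `π` of the gates that fixes the output and the gates of `U`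
and preserves the functions of all other gates and all wires into them. -/
def IsSym {V : Type} {t : ℕ} (b : Fin t × Fin 5 ↪ V) (C : Circuit (Sym2 V))
    (U : Finset C.Gate) (a : Fin t → alternatingGroup (Fin 5)) : Prop :=
  ∃ σ : Equiv.Perm V, (∀ i p, σ (b (i, p)) = b (i, (a i : Equiv.Perm (Fin 5)) p)) ∧
    (∀ x, x ∉ Set.range b → σ x = x) ∧ ∃ π, C.AutU U (pairs σ) π

/-- The block permutations which are induced by a permutation of the gates that fixes the output
and the gates of `U` and respects all other gates. -/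
def SymOf {V : Type} {t : ℕ} (b : Fin t × Fin 5 ↪ V) (C : Circuit (Sym2 V))
    (U : Finset C.Gate) : Subgroup (Fin t → A5) where
  carrier := {a | ∃ π, C.AutU U (pairs (blk b a)) π}
  one_mem' := ⟨1, by rw [map_one, map_one]; exact autU_one C U⟩
  mul_mem' := by
    rintro a a' ⟨π, h⟩ ⟨π', h'⟩
    exact ⟨π * π', by rw [map_mul, map_mul]; exact autU_mul C U _ _ _ _ h h'⟩
  inv_mem' := by
    rintro a ⟨π, h⟩
    exact ⟨π⁻¹, by rw [map_inv, map_inv]; exact autU_inv C U _ _ h⟩

theorem mem_SymOf {V : Type} {t : ℕ} {b : Fin t × Fin 5 ↪ V} {C : Circuit (Sym2 V)}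
    {U : Finset C.Gate} {a : Fin t → A5} :
    a ∈ SymOf b C U ↔ ∃ π, C.AutU U (pairs (blk b a)) π := Iff.rfl

theorem eq_blk {V : Type} {t : ℕ} (b : Fin t × Fin 5 ↪ V) (a : Fin t → A5) (σ : Equiv.Perm V)
    (h1 : ∀ i p, σ (b (i, p)) = b (i, (a i : Equiv.Perm (Fin 5)) p))
    (h2 : ∀ x, x ∉ Set.range b → σ x = x) : σ = blk b a := by
  ext x
  by_cases hx : x ∈ Set.range b
  · obtain ⟨⟨i, p⟩, rfl⟩ := hx
    rw [h1, blk_apply]
  · rw [h2 x hx, blk_apply_of_not b a x hx]

theorem isSym_iff {V : Type} {t : ℕ} {b : Fin t × Fin 5 ↪ V} {C : Circuit (Sym2 V)}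
    {U : Finset C.Gate} {a : Fin t → A5} : IsSym b C U a ↔ a ∈ SymOf b C U := by
  rw [mem_SymOf]
  constructor
  · rintro ⟨σ, h1, h2, h3⟩
    rwa [eq_blk b a σ h1 h2] at h3
  · intro h
    exact ⟨blk b a, fun i p => blk_apply b a i p, fun x hx => blk_apply_of_not b a x hx, h⟩

theorem nat_card_A5 : Nat.card A5 = 60 := by
  have h := nat_card_alternatingGroup (α := Fin 5)
  rw [h]
  simp [Nat.factorial]

theorem card_pow (t : ℕ) : Nat.card (Fin t → A5) = 60 ^ t := by
  rw [Nat.card_fun, Nat.card_fin, nat_card_A5]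

/-- A sub-collection of the blocks. -/
theorem blk_sub {V : Type} {t t' : ℕ} (b : Fin t × Fin 5 ↪ V) (j : Fin t' ↪ Fin t)
    (a' : Fin t' → A5) : ∃ a : Fin t → A5, (∀ i, i ∉ Set.range j → a i = 1) ∧
      blk b a = blk ((j.prodMap (Function.Embedding.refl (Fin 5))).trans b) a' := by
  classical
  set b' := (j.prodMap (Function.Embedding.refl (Fin 5))).trans b with hb'
  have hbb : ∀ n p, b' (n, p) = b (j n, p) := fun n p => rfl
  refine ⟨fun i => if h : ∃ n, j n = i then a' h.choose else 1, ?_, ?_⟩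
  · intro i hi
    refine dif_neg ?_
    rintro ⟨n, hn⟩
    exact hi ⟨n, hn⟩
  · ext x
    by_cases hx : x ∈ Set.range b
    · obtain ⟨⟨i, p⟩, rfl⟩ := hx
      by_cases h : ∃ n, j n = i
      · obtain ⟨n, hn⟩ := h
        subst hn
        have h1 : (if h : ∃ m, j m = j n then a' h.choose else 1) = a' n := by
          have h2 : ∃ m, j m = j n := ⟨n, rfl⟩
          rw [dif_pos h2]
          congr 1
          exact j.injective h2.choose_spec
        rw [blk_apply]
        change b (j n, ((if h : ∃ m, j m = j n then a' h.choose else 1 : A5) :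
          Equiv.Perm (Fin 5)) p) = blk b' a' (b' (n, p))
        rw [h1, blk_apply]
        rfl
      · have h1 : b (i, p) ∉ Set.range b' := by
          rintro ⟨⟨n, q⟩, hq⟩
          rw [hbb] at hq
          have h2 := b.injective hq
          exact h ⟨n, congrArg Prod.fst h2⟩
        rw [blk_apply_of_not b' a' _ h1, blk_apply]
        change b (i, ((if h : ∃ m, j m = i then a' h.choose else 1 : A5) :
          Equiv.Perm (Fin 5)) p) = b (i, p)
        rw [dif_neg h]
        rfl
    · have h1 : x ∉ Set.range b' := by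
        rintro ⟨⟨n, q⟩, hq⟩
        exact hx ⟨(j n, q), hq⟩
      rw [blk_apply_of_not b _ _ hx, blk_apply_of_not b' a' _ h1]

/-- **From invariant circuits to all circuits.** -/
theorem frac_of_block {V : Type} [Fintype V] (t : ℕ) (b : Fin t × Fin 5 ↪ V)
    (C : Circuit (Sym2 V)) (U : Finset C.Gate) (D : ℕ) (hD : 0 < D)
    (hblock : ∀ (t' : ℕ) (b' : Fin t' × Fin 5 ↪ V), t' ≤ t →
      (∀ a : Fin t' → A5, ∃ π, C.AutU U (pairs (blk b' a)) π) → 2 ^ (t' / D) ≤ C.size) :
    Nat.card (SymOf b C U) ≤ 12 ^ t * (2 * C.size) ^ (3 * D) := by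
  classical
  set H := SymOf b C U with hH
  obtain ⟨B, hB⟩ : ∃ B : Finset (Fin t),
      B = Finset.univ.filter (fun i => ∃ x : A5, Pi.mulSingle i x ∉ H) := ⟨_, rfl⟩
  have hmemB : ∀ i, i ∈ B ↔ ∃ x : A5, Pi.mulSingle i x ∉ H := by
    intro i; rw [hB]; simp
  have h1 : 5 ^ B.card ≤ H.index := support5_le H B (fun i hi => (hmemB i).1 hi)
  have hoff : ∀ a : Fin t → A5, (∀ i ∈ B, a i = 1) → a ∈ H := by
    intro a ha
    refine Subgroup.pi_mem_of_mulSingle_mem a (fun i => ?_)
    by_cases hi : i ∈ B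
    · rw [ha i hi, Pi.mulSingle_one]
      exact one_mem _
    · by_contra hcon
      exact hi ((hmemB i).2 ⟨_, hcon⟩)
  have hBt : B.card ≤ t := by
    have := Finset.card_le_univ B
    rwa [Fintype.card_fin] at this
  have hcompl : (Bᶜ).card = t - B.card := by
    rw [Finset.card_compl, Fintype.card_fin]
  let j : Fin (t - B.card) ↪ Fin t :=
    ((Bᶜ).orderEmbOfFin hcompl).toEmbedding
  have hj : ∀ n, j n ∉ B := by
    intro n
    have : (Bᶜ).orderEmbOfFin hcompl n ∈ Bᶜ := Finset.orderEmbOfFin_mem _ _ _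
    exact Finset.mem_compl.1 this
  have h2 := hblock (t - B.card) ((j.prodMap (Function.Embedding.refl (Fin 5))).trans b)
    (Nat.sub_le _ _) (fun a' => by
      obtain ⟨a, ha1, ha2⟩ := blk_sub b j a'
      rw [← ha2]
      refine mem_SymOf.1 (hoff a (fun i hi => ha1 i ?_))
      rintro ⟨n, hn⟩
      exact hj n (hn ▸ hi))
  have h3 : 2 ^ (t - B.card) ≤ (2 * C.size) ^ D := by
    calc 2 ^ (t - B.card) ≤ 2 ^ (((t - B.card) / D + 1) * D) := by
          refine Nat.pow_le_pow_right (by norm_num) ?_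
          have := Nat.lt_div_mul_add (a := t - B.card) hD
          rw [Nat.add_mul]
          omega
      _ = (2 * 2 ^ ((t - B.card) / D)) ^ D := by
          rw [pow_mul, pow_succ]
          ring
      _ ≤ (2 * C.size) ^ D := Nat.pow_le_pow_left (Nat.mul_le_mul_left 2 h2) D
  have h5 : 5 ^ (t - B.card) ≤ (2 * C.size) ^ (3 * D) := by
    calc 5 ^ (t - B.card) ≤ 8 ^ (t - B.card) := Nat.pow_le_pow_left (by norm_num) _
      _ = (2 ^ (t - B.card)) ^ 3 := by
          rw [← pow_mul, mul_comm, pow_mul]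
          norm_num
      _ ≤ ((2 * C.size) ^ D) ^ 3 := Nat.pow_le_pow_left h3 3
      _ = (2 * C.size) ^ (3 * D) := by rw [← pow_mul, mul_comm D 3]
  have h4 : Nat.card H * H.index = 60 ^ t := by
    rw [H.card_mul_index, card_pow]
  have h6 : 5 ^ t * Nat.card H ≤ 5 ^ t * (12 ^ t * (2 * C.size) ^ (3 * D)) := by
    calc 5 ^ t * Nat.card H = Nat.card H * (5 ^ B.card * 5 ^ (t - B.card)) := by
          rw [← pow_add, Nat.add_sub_of_le hBt]
          ring
      _ ≤ Nat.card H * (H.index * (2 * C.size) ^ (3 * D)) :=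
          Nat.mul_le_mul_left _ (Nat.mul_le_mul h1 h5)
      _ = (Nat.card H * H.index) * (2 * C.size) ^ (3 * D) := by ring
      _ = (5 * 12) ^ t * (2 * C.size) ^ (3 * D) := by rw [h4]
      _ = 5 ^ t * (12 ^ t * (2 * C.size) ^ (3 * D)) := by rw [mul_pow]; ring
  exact Nat.le_of_mul_le_mul_left h6 (by positivity)

/-- **Invariant circuits.** -/
theorem block_lowerU {V : Type} [Fintype V] (t k : ℕ) (b : Fin t × Fin 5 ↪ V)
    (hk : t ≤ k) (hkV : k + 5 * t ≤ Fintype.card V) (C : Circuit (Sym2 V)) (U : Finset C.Gate)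
    [Fintype (Sym2 V)]
    (hinv : ∀ a : Fin t → A5, ∃ π, C.AutU U (pairs (blk b a)) π) (hC : C.Computes (clique k)) :
    2 ^ (t / (4000 * (C.wiresInto U + 1))) ≤ C.size := by
  obtain ⟨F, hF⟩ : ∃ F, F = C.wiresInto U := ⟨_, rfl⟩
  rw [← hF]
  obtain ⟨e, he⟩ : ∃ e, e = t / (4000 * (F + 1)) := ⟨_, rfl⟩
  rw [← he]
  rcases Nat.eq_zero_or_pos e with h0 | he1
  · rw [h0, pow_zero]
    exact Fintype.card_pos_iff.2 ⟨C.out⟩
  · have hte : 4000 * (F + 1) * e ≤ t := by
      rw [he]
      exact Nat.mul_div_le t (4000 * (F + 1))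
    have ht : 4000 ≤ t := by
      have h1 : 4000 * (F + 1) * e = 4000 * ((F + 1) * e) := by ring
      have h2 : 1 ≤ (F + 1) * e := Nat.mul_pos (Nat.succ_pos F) he1
      omega
    obtain ⟨M, hM, h8, h5, h441⟩ := choose_M2 t (by omega)
    have : NeZero M := ⟨by rintro rfl; norm_num at h441⟩
    obtain ⟨b', Q, hQ, hQc, hext⟩ := exists_emb t k b h8 hk hkV
    have hnum : 1280 * ((F + 1) * max (e - 1) 2) < 7 * M ^ 2 := by
      have h1 : max (e - 1) 2 ≤ 2 * e := by omega
      have h2 : (F + 1) * max (e - 1) 2 ≤ (F + 1) * (2 * e) := Nat.mul_le_mul_left _ h1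
      have h3 : (F + 1) * (2 * e) = 2 * ((F + 1) * e) := by ring
      have h4 : 4000 * (F + 1) * e = 4000 * ((F + 1) * e) := by ring
      omega
    rw [hF] at hnum
    refine (Nat.pow_le_pow_right (by norm_num) (by omega : e ≤ max (e - 1) 2 + 1)).trans ?_
    refine clique_lowerU hM b' Q hQ (max (e - 1) 2) (le_max_right _ _) C U hnum ?_ ?_
    · intro a
      obtain ⟨a', h1, h2⟩ := hext a
      rw [eq_blk b a' (blk b' a) h1 h2]
      exact hinv a'
    · rw [hQc]
      exact hC

/-- **Every circuit for the clique function is almost asymmetric.** -/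
theorem frac2 {V : Type} [Fintype V] [Fintype (Sym2 V)] (t k : ℕ) (b : Fin t × Fin 5 ↪ V)
    (hk : t ≤ k) (hkV : k + 5 * t ≤ Fintype.card V) (C : Circuit (Sym2 V)) (U : Finset C.Gate)
    (hC : C.Computes (clique k)) :
    Nat.card {a : Fin t → alternatingGroup (Fin 5) // IsSym b C U a} ≤
      12 ^ t * (2 * C.size) ^ (12000 * (C.wiresInto U + 1)) := by
  have h1 : Nat.card {a : Fin t → alternatingGroup (Fin 5) // IsSym b C U a} =
      Nat.card (SymOf b C U) :=
    Nat.card_congr (Equiv.subtypeEquivRight (fun a => isSym_iff))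
  rw [h1]
  have h2 := frac_of_block t b C U (4000 * (C.wiresInto U + 1)) (by positivity)
    (fun t' b' ht' hinv => block_lowerU t' k b' (ht'.trans hk) (by omega) C U hinv hC)
  have h3 : 3 * (4000 * (C.wiresInto U + 1)) = 12000 * (C.wiresInto U + 1) := by ring
  rwa [h3] at h2

theorem two_mul_pow_le (S m : ℕ) : (2 * S) ^ m ≤ (S + 1) ^ (2 * m) := by
  rw [pow_mul]
  exact Nat.pow_le_pow_left (by nlinarith) m

/-- **Every circuit for the clique function is almost asymmetric**, with `S + 1` for `2 S`. -/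
theorem frac (N t k : ℕ) (b : Fin t × Fin 5 ↪ Fin N) (ht : t ≤ k) (hk : k + 5 * t ≤ N)
    (C : Circuit (Sym2 (Fin N))) (hC : C.Computes (clique k)) (U : Finset C.Gate) :
    Nat.card {a : Fin t → alternatingGroup (Fin 5) // IsSym b C U a} ≤
      12 ^ t * (C.size + 1) ^ (24000 * (C.wiresInto U + 1)) := by
  refine (frac2 t k b ht (by rw [Fintype.card_fin]; exact hk) C U hC).trans ?_
  refine Nat.mul_le_mul_left _ ?_
  have h2 : 24000 * (C.wiresInto U + 1) = 2 * (12000 * (C.wiresInto U + 1)) := by ring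
  rw [h2]
  exact two_mul_pow_le C.size (12000 * (C.wiresInto U + 1))

end Pool.Agent.PSY
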