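import Pool.Agent.PSY.IndU

set_option autoImplicit false

/-!
# Substituting constants and new inputs into a circuit
-/

namespace Pool.Agent.PSY

variable {I J : Type}

/-- The substituted input: `τ i = some j` means that the input `i` becomes the new input `j`,
`τ i = none` that it becomes the constant `κ i`. -/
def subst (τ : I → Option J) (κ : I → Bool) (Y : J → Bool) (i : I) : Bool :=
  (τ i).elim (κ i) Y

open Classical in
/-- The circuit after the substitution. -/
noncomputable def Circuit.restr [Fintype I] (C : Circuit I) (τ : I → Option J) (κ : I → Bool) :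
    Circuit J where
  Gate := C.Gate
  fin := C.fin
  rank := C.rank
  w := C.w
  wi := fun g j => ∑ i : I, if τ i = some j then C.wi g i else 0
  rank_lt := C.rank_lt
  fn := fun g s => C.fn g (s + ∑ i : I, if τ i = none ∧ κ i = true then C.wi g i else 0)
  out := C.out

theorem restr_sum [Fintype I] [Fintype J] (C : Circuit I) (τ : I → Option J) (κ : I → Bool)
    (Y : J → Bool) (g : C.Gate) :
    (∑ j : J, if Y j = true then (C.restr τ κ).wi g j else 0) +
      (∑ i : I, open Classical in if τ i = none ∧ κ i = true then C.wi g i else 0) =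
    ∑ i : I, if subst τ κ Y i = true then C.wi g i else 0 := by
  classical
  have h1 : (∑ j : J, if Y j = true then (C.restr τ κ).wi g j else 0) =
      ∑ i : I, ∑ j : J, if Y j = true ∧ τ i = some j then C.wi g i else 0 := by
    rw [Finset.sum_comm]
    refine Finset.sum_congr rfl (fun j _ => ?_)
    by_cases hj : Y j = true
    · rw [if_pos hj]
      change (∑ i : I, if τ i = some j then C.wi g i else 0) = _
      exact Finset.sum_congr rfl (fun i _ => if_congr (by simp [hj]) rfl rfl)
    · rw [if_neg hj]
      symm
      exact Finset.sum_eq_zero (fun i _ => if_neg (fun h => hj h.1))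
  rw [h1, ← Finset.sum_add_distrib]
  refine Finset.sum_congr rfl (fun i _ => ?_)
  unfold subst
  cases hτ : τ i with
  | none => simp
  | some j =>
    have h2 : (∑ j' : J, if Y j' = true ∧ (some j : Option J) = some j' then C.wi g i else 0) =
        if Y j = true then C.wi g i else 0 := by
      rw [Finset.sum_eq_single j]
      · exact if_congr (by simp) rfl rfl
      · intro j' _ hj'
        exact if_neg (fun h => hj' (Option.some.inj h.2).symm)
      · intro h
        exact absurd (Finset.mem_univ j) h
    rw [h2]
    simp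

theorem restr_val [Fintype I] [Fintype J] (C : Circuit I) (τ : I → Option J) (κ : I → Bool)
    (Y : J → Bool) (g : C.Gate) :
    (C.restr τ κ).val Y g = C.val (subst τ κ Y) g := by
  classical
  symm
  refine val_unique (C.restr τ κ) Y (fun g => C.val (subst τ κ Y) g) (fun g => ?_) g
  have h1 := val_eq C (subst τ κ Y) g
  rw [h1]
  change C.fn g _ = C.fn g (_ + ∑ i : I, if τ i = none ∧ κ i = true then C.wi g i else 0)
  rw [add_assoc, restr_sum C τ κ Y g]
  rfl

theorem restr_autU [Fintype I] [Fintype J] (C : Circuit I) (τ : I → Option J) (κ : I → Bool)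
    (U : Finset C.Gate) (s : Equiv.Perm I) (s' : Equiv.Perm J)
    (hτ : ∀ i, τ (s i) = (τ i).map s') (hκ : ∀ i, κ (s i) = κ i) (π : Equiv.Perm C.Gate)
    (h : C.AutU U s π) : (C.restr τ κ).AutU U s' π := by
  classical
  obtain ⟨h1, h2, h3⟩ := h
  refine ⟨h1, h2, fun g hg => ⟨fun k => (h3 g hg).1 k, fun j => ?_, ?_⟩⟩
  · change (∑ i : I, if τ i = some (s' j) then C.wi (π g) i else 0) =
      ∑ i : I, if τ i = some j then C.wi g i else 0
    rw [← Equiv.sum_comp s]
    refine Finset.sum_congr rfl (fun i _ => ?_)
    rw [(h3 g hg).2.1 i, hτ i]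
    refine if_congr ?_ rfl rfl
    cases τ i with
    | none => simp
    | some j' => simp
  · have h4 : (∑ i : I, if τ i = none ∧ κ i = true then C.wi (π g) i else 0) =
        ∑ i : I, if τ i = none ∧ κ i = true then C.wi g i else 0 := by
      rw [← Equiv.sum_comp s]
      refine Finset.sum_congr rfl (fun i _ => ?_)
      rw [(h3 g hg).2.1 i, hτ i, hκ i]
      refine if_congr ?_ rfl rfl
      cases τ i with
      | none => simp
      | some j' => simp
    funext x
    change C.fn (π g) (x + ∑ i : I, if τ i = none ∧ κ i = true then C.wi (π g) i else 0) =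
      C.fn g (x + ∑ i : I, if τ i = none ∧ κ i = true then C.wi g i else 0)
    rw [h4, (h3 g hg).2.2]

theorem restr_wires [Fintype I] [Fintype J] (C : Circuit I) (τ : I → Option J) (κ : I → Bool)
    (U : Finset C.Gate) : (C.restr τ κ).wiresInto U ≤ C.wiresInto U := by
  classical
  unfold Circuit.wiresInto
  refine Nat.add_le_add (le_of_eq ?_) ?_
  · exact congrArg Finset.card (Finset.filter_congr (fun p _ => Iff.rfl))
  · have key : ∀ p : C.Gate × J, (C.restr τ κ).wi p.1 p.2 ≠ 0 →
        ∃ i : I, τ i = some p.2 ∧ C.wi p.1 i ≠ 0 := by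
      intro p hp
      by_contra hcon
      push Not at hcon
      apply hp
      change (∑ i : I, if τ i = some p.2 then C.wi p.1 i else 0) = 0
      refine Finset.sum_eq_zero (fun i _ => ?_)
      by_cases h1 : τ i = some p.2
      · rw [if_pos h1]; exact hcon i h1
      · rw [if_neg h1]
    rcases isEmpty_or_nonempty I with hI | hI
    · refine le_of_eq_of_le (Finset.card_eq_zero.2 ?_) (Nat.zero_le _)
      refine Finset.filter_eq_empty_iff.2 (fun p _ hp => ?_)
      obtain ⟨i, _⟩ := key p hp
      exact hI.false i
    choose! f hf1 hf2 using key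
    refine Finset.card_le_card_of_injOn (fun p : C.Gate × J => (p.1, f p)) ?_ ?_
    · intro p hp
      have hp' := Finset.mem_filter.1 (Finset.mem_coe.1 hp)
      refine Finset.mem_coe.2 (Finset.mem_filter.2 ⟨?_, hf2 p hp'.2⟩)
      exact Finset.mem_product.2 ⟨(Finset.mem_product.1 hp'.1).1, Finset.mem_univ _⟩
    · intro p hp q hq hpq
      have hp' := Finset.mem_filter.1 (Finset.mem_coe.1 hp)
      have hq' := Finset.mem_filter.1 (Finset.mem_coe.1 hq)
      have hpq' : (p.1, f p) = (q.1, f q) := hpq
      have h1 : p.1 = q.1 := (Prod.mk.inj hpq').1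
      have h2 : f p = f q := (Prod.mk.inj hpq').2
      have h3 := hf1 p hp'.2
      rw [h2, hf1 q hq'.2] at h3
      exact Prod.ext h1 (Option.some.inj h3).symm

end Pool.Agent.PSY
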