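import Pool.Agent.PSY.ClqD

set_option autoImplicit false

/-!
# The action on the blocks
-/

namespace Pool.Agent.PSY

theorem blk_apply {V ι : Type} (b : ι × Fin 5 ↪ V) (a : ι → A5) (n : ι) (p : Fin 5) :
    blk b a (b (n, p)) = b (n, (a n : Equiv.Perm (Fin 5)) p) := by
  change (Equiv.Perm.viaEmbedding _ b) (b (n, p)) = _
  rw [Equiv.Perm.viaEmbedding_apply]
  rfl

theorem blk_apply_of_not {V ι : Type} (b : ι × Fin 5 ↪ V) (a : ι → A5) (x : V)
    (hx : x ∉ Set.range b) : blk b a x = x := by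
  change (Equiv.Perm.viaEmbedding _ b) x = x
  exact Equiv.Perm.viaEmbedding_apply_of_notMem _ b x hx

end Pool.Agent.PSY
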