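import Pool.Agent.PSY.Grp5
import Pool.Agent.PSY.BlkA

set_option autoImplicit false

/-!
# Actions of alternating groups contain many blocks with five points

If the alternating group of degree `m` acts in a nontrivial way on a set `V` with less than
`5 ^ (l + 1)` points and `t (5 l + 4) ≤ m`, `5 l + 5 ≤ m`, then there are `t` disjoint five-element
sets in `V` on which every element of `A_5 ^ t` is induced by an element of the alternating group.
-/

namespace Pool.Agent.PSY

open Equiv

/-! ### Three-cycles -/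

section c3
variable {α : Type} [DecidableEq α]

/-- The three-cycle `x → y → z → x`. -/
def c3 (x y z : α) : Perm α := swap x y * swap y z

theorem c3_apply {x y z : α} (hxy : x ≠ y) (hxz : x ≠ z) : c3 x y z x = y := by
  unfold c3
  rw [Perm.mul_apply, swap_apply_of_ne_of_ne hxy hxz, swap_apply_left]

theorem c3_of_ne {x y z w : α} (h1 : w ≠ x) (h2 : w ≠ y) (h3 : w ≠ z) : c3 x y z w = w := by
  unfold c3
  rw [Perm.mul_apply, swap_apply_of_ne_of_ne h2 h3, swap_apply_of_ne_of_ne h1 h2]

theorem c3_mem [Fintype α] {x y z : α} (hxy : x ≠ y) (hyz : y ≠ z) :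
    c3 x y z ∈ alternatingGroup α := by
  unfold c3
  rw [Perm.mem_alternatingGroup, map_mul, Perm.sign_swap hxy, Perm.sign_swap hyz]
  rfl

end c3

/-! ### The embedding of `A_5` -/

/-- `a` on the five points of `y`. -/
noncomputable def via {α : Type} (y : Fin 5 ↪ α) (a : A5) : Perm α :=
  Perm.viaEmbedding (a : Perm (Fin 5)) y

theorem via_apply {α : Type} (y : Fin 5 ↪ α) (a : A5) (p : Fin 5) :
    via y a (y p) = y ((a : Perm (Fin 5)) p) := Perm.viaEmbedding_apply _ _ _

theorem via_apply_of_not {α : Type} (y : Fin 5 ↪ α) (a : A5) (x : α) (hx : x ∉ Set.range y) :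
    via y a x = x := Perm.viaEmbedding_apply_of_notMem _ _ _ hx

theorem sign_via_embedding {α β : Type} [Fintype α] [DecidableEq α] [Fintype β] [DecidableEq β]
    (e : Perm α) (y : α ↪ β) : Perm.sign (Perm.viaEmbedding e y) = Perm.sign e := by
  classical
  unfold Perm.viaEmbedding
  exact @Perm.sign_extendDomain _ _ _ _ _ _ e _ (fun a => Classical.propDecidable _)
    (Equiv.ofInjective y y.injective)

theorem via_mem {α : Type} [Fintype α] [DecidableEq α] (y : Fin 5 ↪ α) (a : A5) :
    via y a ∈ alternatingGroup α := by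
  rw [Perm.mem_alternatingGroup, via, sign_via_embedding]
  exact a.2

theorem blk_mem {α ι : Type} [Fintype α] [DecidableEq α] [Fintype ι] (b : ι × Fin 5 ↪ α)
    (a : ι → A5) : blk b a ∈ alternatingGroup α := by
  classical
  rw [Perm.mem_alternatingGroup]
  change Perm.sign (Perm.viaEmbedding _ b) = 1
  rw [sign_via_embedding]
  have h : Equiv.prodShear (Equiv.refl ι) (fun i => (a i : Perm (Fin 5))) =
      Equiv.prodCongrRight (fun i => (a i : Perm (Fin 5))) := by
    ext x <;> rfl
  refine (congrArg Perm.sign h).trans ?_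
  rw [Perm.sign_prodCongrRight]
  exact Finset.prod_eq_one fun i _ => (a i).2

theorem blk_single {α ι : Type} [DecidableEq ι] (b : ι × Fin 5 ↪ α) (i : ι) (a : A5)
    (y : Fin 5 ↪ α) (hy : ∀ p, y p = b (i, p)) : blk b (Pi.mulSingle i a) = via y a := by
  ext x
  by_cases hx : x ∈ Set.range b
  · obtain ⟨⟨j, p⟩, rfl⟩ := hx
    rw [blk_apply]
    by_cases hji : j = i
    · subst hji
      rw [Pi.mulSingle_eq_same, ← hy, ← hy, via_apply]
    · rw [Pi.mulSingle_eq_of_ne hji, via_apply_of_not]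
      · rfl
      · rintro ⟨q, hq⟩
        rw [hy] at hq
        exact hji (congrArg Prod.fst (b.injective hq)).symm
  · rw [blk_apply_of_not b _ x hx, via_apply_of_not]
    rintro ⟨q, hq⟩
    rw [hy] at hq
    exact hx ⟨_, hq⟩

/-! ### Part A: a large set whose alternating group is in `K` -/

section partA
variable {α : Type} [Fintype α] [DecidableEq α] (K : Subgroup (Perm α))

/-- All even permutations of `D` are in `K`. -/
def AltIn (D : Finset α) : Prop :=
  ∀ g ∈ alternatingGroup α, (∀ x ∉ D, g x = x) → g ∈ K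

/-- All even permutations of the five points of `y` are in `K`. -/
def Good5 (y : Fin 5 ↪ α) : Prop := ∀ a : A5, via y a ∈ K

theorem altIn_insert {D : Finset α} {x : α} (hx : x ∉ D) (hD : AltIn K D)
    (h : ∀ d ∈ D, ∃ k ∈ K, k ∈ alternatingGroup α ∧ (∀ z ∉ insert x D, k z = z) ∧ k x = d) :
    AltIn K (insert x D) := by
  intro g hg hgs
  by_cases hgx : g x = x
  · refine hD g hg fun z hz => ?_
    by_cases hzx : z = x
    · rw [hzx, hgx]
    · exact hgs z (by simp [hzx, hz])
  · have hd : g x ∈ D := by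
      by_contra hd
      have h1 : g x ∉ insert x D := by simp [hgx, hd]
      exact hgx (g.injective (hgs _ h1))
    obtain ⟨k, hk, hka, hks, hkx⟩ := h _ hd
    have h2 : k⁻¹ * g ∈ K := by
      refine hD _ (mul_mem (inv_mem hka) hg) fun z hz => ?_
      rw [Perm.mul_apply]
      by_cases hzx : z = x
      · subst hzx
        rw [Perm.inv_eq_iff_eq, hkx]
      · have h3 : z ∉ insert x D := by simp [hzx, hz]
        rw [hgs z h3, Perm.inv_eq_iff_eq, hks z h3]
    have h4 : g = k * (k⁻¹ * g) := by group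
    rw [h4]
    exact mul_mem hk h2

theorem altIn_small {D : Finset α} (hD : D.card ≤ 2) : AltIn K D := by
  intro g hg hgs
  have h1 : g.support ⊆ D := by
    intro z hz
    by_contra h
    exact (Perm.mem_support.1 hz) (hgs z h)
  have h2 : g.support.card ≤ 2 := (Finset.card_le_card h1).trans hD
  have h3 : g = 1 := by
    by_contra hne
    have h4 : ¬ g.support.card ≤ 1 := fun h => hne (Perm.card_support_le_one.1 h)
    have h5 : g.support.card = 2 := by omega
    have h6 := (Perm.card_support_eq_two.1 h5).sign_eq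
    rw [Perm.mem_alternatingGroup.1 hg] at h6
    exact absurd h6 (by decide)
  rw [h3]
  exact K.one_mem

omit [Fintype α] in
/-- Five points with three given ones. -/
theorem exists_five {W : Finset α} (hW : 5 ≤ W.card) {x y z : α} (hx : x ∈ W) (hy : y ∈ W)
    (hz : z ∈ W) (hxy : x ≠ y) (hxz : x ≠ z) (hyz : y ≠ z) :
    ∃ e : Fin 5 ↪ α, (∀ p, e p ∈ W) ∧ e 0 = x ∧ e 1 = y ∧ e 2 = z := by
  have h1 : 1 < ((W.erase x).erase y |>.erase z).card := by
    rw [Finset.card_erase_of_mem, Finset.card_erase_of_mem, Finset.card_erase_of_mem hx]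
    · omega
    · simp [hy, hxy.symm]
    · simp [hz, hxz.symm, hyz.symm]
  obtain ⟨u, hu, w, hw, huw⟩ := Finset.one_lt_card.1 h1
  simp only [Finset.mem_erase, ne_eq] at hu hw
  obtain ⟨hu1, hu2, hu3, hu4⟩ := hu
  obtain ⟨hw1, hw2, hw3, hw4⟩ := hw
  refine ⟨⟨![x, y, z, u, w], ?_⟩, ?_, rfl, rfl, rfl⟩
  · intro i j hij
    fin_cases i <;> fin_cases j <;> simp_all [eq_comm]
  · intro p
    fin_cases p
    · exact hx
    · exact hy
    · exact hz
    · exact hu4
    · exact hw4

/-- The three-cycle on the first three points of `e`. -/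
theorem good_three {e : Fin 5 ↪ α} (he : Good5 K e) :
    ∃ k ∈ K, k ∈ alternatingGroup α ∧ (∀ w, w ≠ e 0 → w ≠ e 1 → w ≠ e 2 → k w = w) ∧
      k (e 0) = e 1 := by
  refine ⟨via e ⟨c3 0 1 2, c3_mem (by decide) (by decide)⟩, he _, via_mem _ _, ?_, ?_⟩
  · intro w h0 h1 h2
    by_cases hw : w ∈ Set.range e
    · obtain ⟨p, rfl⟩ := hw
      rw [via_apply]
      congr 1
      refine c3_of_ne ?_ ?_ ?_
      · rintro rfl; exact h0 rfl
      · rintro rfl; exact h1 rfl
      · rintro rfl; exact h2 rfl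
    · exact via_apply_of_not _ _ _ hw
  · rw [via_apply]
    congr 1

theorem altIn_of_good {W : Finset α} (hW : 5 ≤ W.card)
    (h : ∀ e : Fin 5 ↪ α, (∀ p, e p ∈ W) → Good5 K e) : ∀ D ⊆ W, AltIn K D := by
  intro D
  induction D using Finset.induction_on with
  | empty => exact fun _ => altIn_small K (by simp)
  | insert x D hx ih =>
    intro hDW
    have hxW : x ∈ W := hDW (Finset.mem_insert_self _ _)
    have hDW' : D ⊆ W := fun z hz => hDW (Finset.mem_insert_of_mem hz)
    by_cases hc : D.card ≤ 1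
    · refine altIn_small K ?_
      rw [Finset.card_insert_of_notMem hx]
      omega
    · refine altIn_insert K hx (ih hDW') fun d hd => ?_
      obtain ⟨d', hd', hdd'⟩ := Finset.exists_mem_ne (by omega : 1 < D.card) d
      have hxd : x ≠ d := fun h => hx (h ▸ hd)
      have hxd' : x ≠ d' := fun h => hx (h ▸ hd')
      obtain ⟨e, he, e0, e1, e2⟩ := exists_five hW hxW (hDW' hd) (hDW' hd') hxd hxd' hdd'.symm
      obtain ⟨k, hk, hka, hks, hkx⟩ := good_three K (h e he)
      refine ⟨k, hk, hka, fun z hz => hks z ?_ ?_ ?_, ?_⟩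
      · rw [e0]; rintro rfl; exact hz (Finset.mem_insert_self _ _)
      · rw [e1]; rintro rfl; exact hz (Finset.mem_insert_of_mem hd)
      · rw [e2]; rintro rfl; exact hz (Finset.mem_insert_of_mem hd')
      · rw [← e0, hkx, e1]

theorem bad_of_max {D : Finset α} (hD : AltIn K D) (hmax : ∀ x ∉ D, ¬ AltIn K (insert x D))
    (e : Fin 5 ↪ α) (h0 : e 0 ∉ D) (h1 : ∀ p, p ≠ 0 → e p ∈ D) : ¬ Good5 K e := by
  intro he
  refine hmax _ h0 (altIn_insert K h0 hD fun d hd => ?_)
  obtain ⟨k, hk, hka, hks, hkx⟩ := good_three K he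
  have hk' : ∀ z ∉ insert (e 0) D, k z = z := by
    intro z hz
    refine hks z ?_ ?_ ?_
    · rintro rfl; exact hz (Finset.mem_insert_self _ _)
    · rintro rfl; exact hz (Finset.mem_insert_of_mem (h1 1 (by decide)))
    · rintro rfl; exact hz (Finset.mem_insert_of_mem (h1 2 (by decide)))
  by_cases hd1 : d = e 1
  · exact ⟨k, hk, hka, hk', hkx.trans hd1.symm⟩
  · -- a third point of `D`
    obtain ⟨u, hu, hu1, hud⟩ : ∃ u ∈ D, u ≠ e 1 ∧ u ≠ d := by
      by_cases h2 : e 2 = d
      · exact ⟨e 3, h1 3 (by decide), fun h => by simpa using e.injective h,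
          fun h => by simpa using e.injective (h.trans h2.symm)⟩
      · exact ⟨e 2, h1 2 (by decide), fun h => by simpa using e.injective h, h2⟩
    have hc : c3 (e 1) d u ∈ K := by
      refine hD _ (c3_mem (Ne.symm hd1) hud.symm) fun z hz => c3_of_ne ?_ ?_ ?_
      · rintro rfl; exact hz (h1 1 (by decide))
      · rintro rfl; exact hz hd
      · rintro rfl; exact hz hu
    refine ⟨c3 (e 1) d u * k, mul_mem hc hk, mul_mem (c3_mem (Ne.symm hd1) hud.symm) hka,
      fun z hz => ?_, ?_⟩
    · rw [Perm.mul_apply, hk' z hz]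
      refine c3_of_ne ?_ ?_ ?_
      · rintro rfl; exact hz (Finset.mem_insert_of_mem (h1 1 (by decide)))
      · rintro rfl; exact hz (Finset.mem_insert_of_mem hd)
      · rintro rfl; exact hz (Finset.mem_insert_of_mem hu)
    · rw [Perm.mul_apply, hkx, c3_apply (Ne.symm hd1) hu1.symm]

/-- There is a family of `n` disjoint bad five-element sets. -/
def Fam (n : ℕ) : Prop :=
  ∃ (ι : Type) (_ : Fintype ι) (c : ι × Fin 5 ↪ α), Fintype.card ι = n ∧
    ∀ i, ∀ y : Fin 5 ↪ α, (∀ p, y p = c (i, p)) → ¬ Good5 K y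

/-- **Part A.** -/
theorem exists_D {l : ℕ} (hl : 5 * l + 5 ≤ Fintype.card α) (hfam : ¬ Fam K (l + 1)) :
    ∃ D : Finset α, AltIn K D ∧ Fintype.card α ≤ D.card + 5 * l ∧
      ∀ e : Fin 5 ↪ α, e 0 ∉ D → (∀ p, p ≠ 0 → e p ∈ D) → ¬ Good5 K e := by
  classical
  have hex : ∃ n, ¬ Fam K n := ⟨l + 1, hfam⟩
  have hn0 : Nat.find hex ≠ 0 := by
    intro h0
    have h1 := Nat.find_spec hex
    rw [h0] at h1
    exact h1 ⟨Empty, inferInstance, ⟨fun x => x.1.elim, fun x => x.1.elim⟩, rfl,
      fun i => i.elim⟩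
  obtain ⟨s, hs⟩ := Nat.exists_eq_succ_of_ne_zero hn0
  have hsl : s ≤ l := by
    have h1 : Nat.find hex ≤ l + 1 := Nat.find_min' hex hfam
    omega
  have hfs : Fam K s := by
    by_contra h
    have h1 := Nat.find_min' hex h
    omega
  obtain ⟨ι, _, c, hcard, hc⟩ := hfs
  set W : Finset α := (Finset.univ.map c)ᶜ with hW
  have hWc : W.card = Fintype.card α - 5 * s := by
    rw [hW, Finset.card_compl, Finset.card_map, Finset.card_univ, Fintype.card_prod, hcard,
      Fintype.card_fin, mul_comm]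
  have hW5 : 5 ≤ W.card := by omega
  have hgood : ∀ e : Fin 5 ↪ α, (∀ p, e p ∈ W) → Good5 K e := by
    intro e he
    by_contra hbad
    have h1 := Nat.find_spec hex
    refine h1 ⟨ι ⊕ Unit, inferInstance, ⟨fun x => Sum.elim (fun i => c (i, x.2)) (fun _ => e x.2) x.1,
      ?_⟩, ?_, ?_⟩
    · have hne : ∀ i p q, c (i, p) ≠ e q := by
        intro i p q h
        have h2 := he q
        rw [hW, Finset.mem_compl, Finset.mem_map] at h2
        exact h2 ⟨(i, p), Finset.mem_univ _, h⟩
      rintro ⟨i | i, p⟩ ⟨j | j, q⟩ h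
      · have h3 := c.injective h
        simp only [Prod.mk.injEq] at h3
        rw [h3.1, h3.2]
      · exact absurd h (hne _ _ _)
      · exact absurd h.symm (hne _ _ _)
      · have h3 : p = q := e.injective h
        rw [h3]
    · rw [Fintype.card_sum, hcard, Fintype.card_unit, hs]
    · rintro (i | i) y hy
      · exact hc i y fun p => hy p
      · have h3 : y = e := by
          ext p
          exact hy p
        rw [h3]
        exact hbad
  have hWin : AltIn K W := altIn_of_good K hW5 hgood W (Finset.Subset.refl _)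
  -- a largest set
  obtain ⟨D, hD, hDmax⟩ := Finset.exists_max_image
    (Finset.univ.filter fun D : Finset α => W ⊆ D ∧ AltIn K D) Finset.card
    ⟨W, by simp [hWin]⟩
  simp only [Finset.mem_filter, Finset.mem_univ, true_and] at hD hDmax
  refine ⟨D, hD.2, ?_, fun e h0 h1 => bad_of_max K hD.2 (fun x hx hins => ?_) e h0 h1⟩
  · have h1 := Finset.card_le_card hD.1
    omega
  · have h1 := hDmax (insert x D) ⟨hD.1.trans (Finset.subset_insert _ _), hins⟩
    rw [Finset.card_insert_of_notMem hx] at h1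
    omega

end partA

/-! ### Part B: the blocks -/

theorem inv_app {α : Type} (g : Perm α) (x : α) : g⁻¹ (g x) = x := g.symm_apply_apply x

theorem app_inv {α : Type} (g : Perm α) (x : α) : g (g⁻¹ x) = x := g.apply_symm_apply x

theorem exists_ne3 (p q r : Fin 5) : ∃ s : Fin 5, s ≠ p ∧ s ≠ q ∧ s ≠ r := by
  revert p q r
  decide

/-- Even permutations that fix `0` move every point `p ≠ 0` to every point `q ≠ 0`. -/
theorem exists_fix0 {p q : Fin 5} (hp : p ≠ 0) (hq : q ≠ 0) :
    ∃ h : A5, (h : Perm (Fin 5)) 0 = 0 ∧ (h : Perm (Fin 5)) p = q := by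
  by_cases hpq : p = q
  · exact ⟨1, rfl, hpq⟩
  · obtain ⟨s, hs1, hs2, hs3⟩ := exists_ne3 p q 0
    refine ⟨⟨c3 p q s, c3_mem hpq hs2.symm⟩, ?_, ?_⟩
    · exact c3_of_ne hp.symm hq.symm hs3.symm
    · exact c3_apply hpq hs1.symm

theorem exists_mv (p : Fin 5) : ∃ h : A5, (h : Perm (Fin 5)) 0 = p := by
  by_cases hp : p = 0
  · exact ⟨1, hp.symm⟩
  · obtain ⟨s, hs1, hs2, -⟩ := exists_ne3 p 0 0
    exact ⟨⟨c3 0 p s, c3_mem (Ne.symm hp) hs1.symm⟩, c3_apply (Ne.symm hp) hs2.symm⟩

/-- The stabilizer of a point in `A_5` is a maximal subgroup. -/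
theorem stab_max (Q : Subgroup A5) (h0 : ∀ a : A5, (a : Perm (Fin 5)) 0 = 0 → a ∈ Q)
    (hQ : ∃ a, a ∉ Q) (a : A5) (ha : a ∈ Q) : (a : Perm (Fin 5)) 0 = 0 := by
  by_contra hne
  obtain ⟨c, hc⟩ := hQ
  by_cases hc0 : (c : Perm (Fin 5)) 0 = 0
  · exact hc (h0 c hc0)
  · obtain ⟨h, h1, h2⟩ := exists_fix0 hne hc0
    have h3 : c⁻¹ * (h * a) ∈ Q := by
      refine h0 _ ?_
      change ((c : Perm (Fin 5))⁻¹ * ((h : Perm (Fin 5)) * (a : Perm (Fin 5)))) 0 = 0
      rw [Perm.mul_apply, Perm.mul_apply, h2, Perm.inv_eq_iff_eq]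
    have h4 : c = (h * a) * (c⁻¹ * (h * a))⁻¹ := by group
    refine hc ?_
    rw [h4]
    exact mul_mem (mul_mem (h0 h h1) ha) (inv_mem h3)

/-- An even permutation with given values on a set whose complement has two points. -/
theorem exists_even {α : Type} [Fintype α] [DecidableEq α] (R : Finset α)
    (hR : R.card + 2 ≤ Fintype.card α) (f : {r // r ∈ R} ↪ α) :
    ∃ g ∈ alternatingGroup α, ∀ r : {r // r ∈ R}, g r = f r := by
  classical
  set σ : Perm α := (Equiv.ofInjective f f.injective).extendSubtype with hσ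
  have hσf : ∀ r : {r // r ∈ R}, σ r = f r := by
    intro r
    exact Equiv.extendSubtype_apply_of_mem _ _ r.2
  rcases Int.units_eq_one_or (Perm.sign σ) with h | h
  · exact ⟨σ, Perm.mem_alternatingGroup.2 h, hσf⟩
  · have h1 : 1 < Rᶜ.card := by
      rw [Finset.card_compl]
      omega
    obtain ⟨p, hp, q, hq, hpq⟩ := Finset.one_lt_card.1 h1
    refine ⟨σ * swap p q, ?_, fun r => ?_⟩
    · rw [Perm.mem_alternatingGroup, map_mul, h, Perm.sign_swap hpq]
      rfl
    · rw [Perm.mul_apply, swap_apply_of_ne_of_ne, hσf]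
      · rintro h2
        exact (Finset.mem_compl.1 hp) (h2 ▸ r.2)
      · rintro h2
        exact (Finset.mem_compl.1 hq) (h2 ▸ r.2)

section partB
variable {α V : Type} [Fintype α] [DecidableEq α]

/-- The stabilizer of `v`, as a subgroup of the symmetric group. -/
def Kv (θ : alternatingGroup α →* Perm V) (v : V) : Subgroup (Perm α) where
  carrier := {g | ∃ h : g ∈ alternatingGroup α, θ ⟨g, h⟩ v = v}
  mul_mem' := by
    rintro g g' ⟨h, h1⟩ ⟨h', h1'⟩
    refine ⟨mul_mem h h', ?_⟩
    have h2 : (⟨g * g', mul_mem h h'⟩ : alternatingGroup α) = ⟨g, h⟩ * ⟨g', h'⟩ := rfl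
    rw [h2, map_mul, Perm.mul_apply, h1', h1]
  one_mem' := ⟨one_mem _, by
    have h2 : (⟨1, one_mem _⟩ : alternatingGroup α) = 1 := rfl
    rw [h2, map_one]
    rfl⟩
  inv_mem' := by
    rintro g ⟨h, h1⟩
    refine ⟨inv_mem h, ?_⟩
    have h2 : (⟨g⁻¹, inv_mem h⟩ : alternatingGroup α) = ⟨g, h⟩⁻¹ := rfl
    rw [h2, map_inv, Perm.inv_eq_iff_eq, h1]

theorem mem_Kv (θ : alternatingGroup α →* Perm V) (v : V) (g : alternatingGroup α) :
    (g : Perm α) ∈ Kv θ v ↔ θ g v = v :=
  ⟨fun ⟨_, h⟩ => h, fun h => ⟨g.2, h⟩⟩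

/-- The homomorphism from `A_5 ^ ι` to the alternating group. -/
noncomputable def ab {ι : Type} [Fintype ι] (b : ι × Fin 5 ↪ α) :
    (ι → A5) →* alternatingGroup α :=
  (blk b).codRestrict (alternatingGroup α) fun a => blk_mem b a

theorem ab_val {ι : Type} [Fintype ι] (b : ι × Fin 5 ↪ α) (a : ι → A5) :
    ((ab b a : alternatingGroup α) : Perm α) = blk b a := rfl

/-- A family of bad five-element sets has at most `log_5 |V|` members. -/
theorem not_fam [Fintype V] {l : ℕ} (hN : Fintype.card V < 5 ^ (l + 1))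
    (θ : alternatingGroup α →* Perm V) (v : V) : ¬ Fam (Kv θ v) (l + 1) := by
  classical
  rintro ⟨ι, _, c, hcard, hc⟩
  set H : Subgroup (ι → A5) := (Kv θ v).comap ((alternatingGroup α).subtype.comp (ab c)) with hH
  have hmem : ∀ a, a ∈ H ↔ θ (ab c a) v = v := fun a => mem_Kv θ v (ab c a)
  have h1 : 5 ^ (Finset.univ : Finset ι).card ≤ H.index := by
    refine support5_le H Finset.univ fun i _ => ?_
    have h2 := hc i ⟨fun p => c (i, p), fun p q h => by
      have := c.injective h
      simpa using this⟩ fun p => rfl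
    unfold Good5 at h2
    push Not at h2
    obtain ⟨a, ha⟩ := h2
    refine ⟨a, fun h3 => ha ?_⟩
    have h4 := blk_single c i a ⟨fun p => c (i, p), fun p q h => by
      have := c.injective h
      simpa using this⟩ fun p => rfl
    rw [← h4]
    exact h3
  rw [Finset.card_univ, hcard] at h1
  have h5 : H.index ≤ Fintype.card V := by
    have h6 : Function.Injective (Quotient.lift (fun a : ι → A5 => θ (ab c a) v)
        (fun a a' (h : (QuotientGroup.leftRel H) a a') => by
          rw [QuotientGroup.leftRel_apply, hmem, map_mul, map_mul, Perm.mul_apply, map_inv,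
            map_inv, Perm.inv_eq_iff_eq] at h
          exact h.symm) : (ι → A5) ⧸ H → V) := by
      intro x y
      refine Quotient.inductionOn₂ x y fun a a' h => ?_
      refine Quotient.sound ?_
      change (QuotientGroup.leftRel H) a a'
      rw [QuotientGroup.leftRel_apply, hmem, map_mul, map_mul, Perm.mul_apply, map_inv,
        map_inv, Perm.inv_eq_iff_eq]
      exact h.symm
    have h7 := Nat.card_le_card_of_injective _ h6
    rw [Nat.card_eq_fintype_card (α := V)] at h7
    exact h7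
  omega

omit [Fintype α] [DecidableEq α] in
theorem blk_of_single {ι : Type} [DecidableEq ι] (b : ι × Fin 5 ↪ α) (i : ι) (a : A5) (x : α)
    (hx : ∀ p, x ≠ b (i, p)) : blk b (Pi.mulSingle i a) x = x := by
  rw [blk_single b i a ⟨fun p => b (i, p), fun p q h => by
      have := b.injective h
      simpa using this⟩ fun p => rfl]
  exact via_apply_of_not _ _ _ (by rintro ⟨p, hp⟩; exact hx p hp.symm)

/-- **Blocks.** A nontrivial action of an alternating group of large degree contains many blocks of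
five points with the natural action of `A_5`, independently in all blocks. -/
theorem blocks_core [Fintype V] {t l : ℕ} (hN : Fintype.card V < 5 ^ (l + 1))
    (h1 : t * (5 * l + 4) ≤ Fintype.card α) (h2 : 5 * l + 5 ≤ Fintype.card α)
    (θ : alternatingGroup α →* Perm V) (hθ : ∃ g v, θ g v ≠ v) :
    ∃ b : Fin t × Fin 5 ↪ V, ∀ a : Fin t → A5, ∃ g : alternatingGroup α,
      ∀ i p, θ g (b (i, p)) = b (i, (a i : Perm (Fin 5)) p) := by
  classical
  obtain ⟨g0, v, hv⟩ := hθ
  obtain ⟨D, hD, hDc, hDbad⟩ := exists_D (Kv θ v) h2 (not_fam hN θ v)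
  -- a point outside `D`
  obtain ⟨x, hx⟩ : ∃ x, x ∉ D := by
    by_contra hall
    push Not at hall
    exact hv ((mem_Kv θ v g0).1 (hD g0 g0.2 fun z hz => absurd (hall z) hz))
  set R : Finset α := Dᶜ with hR
  have hxR : x ∈ R := Finset.mem_compl.2 hx
  have hRc : R.card ≤ 5 * l := by
    rw [hR, Finset.card_compl]
    omega
  -- the places
  obtain ⟨e⟩ : Nonempty ((Fin t × ({r // r ∈ R} ⊕ Fin 4)) ↪ α) := by
    refine Function.Embedding.nonempty_of_card_le ?_
    rw [Fintype.card_prod, Fintype.card_sum, Fintype.card_fin, Fintype.card_fin, Fintype.card_coe]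
    exact (Nat.mul_le_mul_left t (by omega)).trans h1
  choose g hg hge using fun j : Fin t => exists_even R (by omega)
    ⟨fun r => e (j, Sum.inl r), fun r r' h => by
      have := e.injective h
      simpa using this⟩
  have hge' : ∀ j (r : {r // r ∈ R}), g j r = e (j, Sum.inl r) := hge
  -- the five-element sets in `α`
  have hYinj : Function.Injective (fun z : Fin t × Fin 5 =>
      (Fin.cases (e (z.1, Sum.inl ⟨x, hxR⟩)) (fun q => e (z.1, Sum.inr q)) z.2 : α)) := by
    rintro ⟨i, p⟩ ⟨j, q⟩ h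
    revert h
    refine Fin.cases ?_ (fun p => ?_) p <;> refine Fin.cases ?_ (fun q => ?_) q <;> intro h
    · have h3 := e.injective h
      simp only [Prod.mk.injEq, and_true] at h3
      rw [h3]
    · have h3 := e.injective h
      simp at h3
    · have h3 := e.injective h
      simp at h3
    · have h3 := e.injective h
      simp only [Prod.mk.injEq] at h3
      have h4 : p = q := Sum.inr.inj h3.2
      rw [h3.1, h4]
  set Y : Fin t × Fin 5 ↪ α := ⟨_, hYinj⟩ with hY
  have hY0 : ∀ j, Y (j, 0) = e (j, Sum.inl ⟨x, hxR⟩) := fun j => rfl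
  have hYs : ∀ j (q : Fin 4), Y (j, q.succ) = e (j, Sum.inr q) := fun j q => rfl
  have hYr : ∀ j (r : {r // r ∈ R}), (r : α) ≠ x → ∀ i p, e (j, Sum.inl r) ≠ Y (i, p) := by
    intro j r hr i p
    refine Fin.cases ?_ (fun q => ?_) p
    · rw [hY0]
      intro h
      have h3 := e.injective h
      simp only [Prod.mk.injEq, Sum.inl.injEq] at h3
      exact hr (congrArg Subtype.val h3.2)
    · rw [hYs]
      intro h
      have h3 := e.injective h
      simp at h3
  -- the points
  set w : Fin t → V := fun j => θ ⟨g j, hg j⟩ v with hw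
  have hfix : ∀ j (h : alternatingGroup α),
      (∀ r : {r // r ∈ R}, (h : Perm α) (e (j, Sum.inl r)) = e (j, Sum.inl r)) → θ h (w j) = w j := by
    intro j h hh
    have h3 : ((⟨g j, hg j⟩⁻¹ * h * ⟨g j, hg j⟩ : alternatingGroup α) : Perm α) ∈ Kv θ v := by
      refine hD _ (SetLike.coe_mem _) fun z hz => ?_
      have hzR : z ∈ R := Finset.mem_compl.2 hz
      change ((g j)⁻¹ * (h : Perm α) * g j) z = z
      rw [Perm.mul_apply, Perm.mul_apply, Perm.inv_eq_iff_eq, hge' j ⟨z, hzR⟩, hh]
    rw [mem_Kv, map_mul, map_mul, Perm.mul_apply, Perm.mul_apply, map_inv,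
      Perm.inv_eq_iff_eq] at h3
    exact h3
  -- the subgroups `Q j`
  have hQ0 : ∀ j (a : A5), (a : Perm (Fin 5)) 0 = 0 →
      θ (ab Y (Pi.mulSingle j a)) (w j) = w j := by
    intro j a ha
    refine hfix j _ fun r => ?_
    rw [ab_val]
    by_cases hr : (r : α) = x
    · have h3 : r = ⟨x, hxR⟩ := Subtype.ext hr
      rw [h3, ← hY0, blk_apply, Pi.mulSingle_eq_same, ha]
    · exact blk_of_single Y j a _ fun p => hYr j r hr j p
  have hQbad : ∀ j, ∃ a : A5, θ (ab Y (Pi.mulSingle j a)) (w j) ≠ w j := by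
    intro j
    by_contra hall
    push Not at hall
    set y : Fin 5 ↪ α := ⟨fun p => (g j)⁻¹ (Y (j, p)), fun p q h => by
      have h3 := Y.injective ((g j)⁻¹.injective h)
      simpa using h3⟩ with hy
    have hyv : ∀ p, y p = (g j)⁻¹ (Y (j, p)) := fun p => rfl
    refine hDbad y ?_ ?_ ?_
    · rw [hyv, hY0, ← hge', inv_app]
      exact hx
    · intro p hp
      obtain ⟨q, rfl⟩ := Fin.exists_succ_eq.2 hp
      by_contra hnD
      have hzR : y q.succ ∈ R := Finset.mem_compl.2 hnD
      have h3 := hge' j ⟨_, hzR⟩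
      rw [show ((⟨y q.succ, hzR⟩ : {r // r ∈ R}) : α) = (g j)⁻¹ (Y (j, q.succ)) from rfl,
        app_inv, hYs] at h3
      have h4 := e.injective h3
      simp at h4
    · intro a
      have h3 : via y a = (g j)⁻¹ * blk Y (Pi.mulSingle j a) * g j := by
        ext z
        rw [Perm.mul_apply, Perm.mul_apply]
        by_cases hz : z ∈ Set.range y
        · obtain ⟨p, rfl⟩ := hz
          rw [via_apply, hyv, hyv, app_inv, blk_apply, Pi.mulSingle_eq_same]
        · rw [via_apply_of_not _ _ _ hz, blk_of_single Y j a, inv_app]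
          intro p hp
          exact hz ⟨p, by rw [hyv, ← hp, inv_app]⟩
      have h4 : ((⟨g j, hg j⟩⁻¹ * ab Y (Pi.mulSingle j a) * ⟨g j, hg j⟩ : alternatingGroup α) :
          Perm α) ∈ Kv θ v := by
        rw [mem_Kv, map_mul, map_mul, Perm.mul_apply, Perm.mul_apply, map_inv,
          Perm.inv_eq_iff_eq]
        exact hall a
      rw [h3]
      exact h4
  have hQ : ∀ j (a : A5), θ (ab Y (Pi.mulSingle j a)) (w j) = w j → (a : Perm (Fin 5)) 0 = 0 := by
    intro j a ha
    set Q : Subgroup A5 := (MulAction.stabilizer (Perm V) (w j)).comap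
      ((θ.comp (ab Y)).comp (MonoidHom.mulSingle (fun _ : Fin t => A5) j)) with hQd
    have hmem : ∀ a : A5, a ∈ Q ↔ θ (ab Y (Pi.mulSingle j a)) (w j) = w j := fun a => Iff.rfl
    refine stab_max Q (fun a h => (hmem a).2 (hQ0 j a h)) ?_ a ((hmem a).2 ha)
    obtain ⟨c, hc⟩ := hQbad j
    exact ⟨c, fun h => hc ((hmem c).1 h)⟩
  choose mv hmv using exists_mv
  have hc1 : ∀ j (a : A5) (p : Fin 5), (a : Perm (Fin 5)) 0 = p →
      θ (ab Y (Pi.mulSingle j a)) (w j) = θ (ab Y (Pi.mulSingle j (mv p))) (w j) := by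
    intro j a p ha
    have h3 : (((mv p)⁻¹ * a : A5) : Perm (Fin 5)) 0 = 0 := by
      change ((mv p : Perm (Fin 5))⁻¹ * (a : Perm (Fin 5))) 0 = 0
      rw [Perm.mul_apply, ha, Perm.inv_eq_iff_eq, hmv]
    have h4 := hQ0 j _ h3
    have h5 : (Pi.mulSingle j a : Fin t → A5) =
        Pi.mulSingle j (mv p) * Pi.mulSingle j ((mv p)⁻¹ * a) := by
      rw [← Pi.mulSingle_mul, mul_inv_cancel_left]
    rw [h5, map_mul, map_mul, Perm.mul_apply, h4]
  have hc4 : ∀ (a : Fin t → A5) i p,
      θ (ab Y a) (θ (ab Y (Pi.mulSingle i (mv p))) (w i)) =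
        θ (ab Y (Pi.mulSingle i (mv ((a i : Perm (Fin 5)) p)))) (w i) := by
    intro a i p
    have h3 : a * Pi.mulSingle i (mv p) =
        Pi.mulSingle i (a i * mv p) * Function.update a i 1 := by
      funext j
      rw [Pi.mul_apply, Pi.mul_apply]
      by_cases hj : j = i
      · subst hj
        rw [Pi.mulSingle_eq_same, Pi.mulSingle_eq_same, Function.update_self, mul_one]
      · rw [Pi.mulSingle_eq_of_ne hj, Pi.mulSingle_eq_of_ne hj, Function.update_of_ne hj,
          mul_one, one_mul]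
    have h4 : θ (ab Y (Function.update a i 1)) (w i) = w i := by
      refine hfix i _ fun r => ?_
      rw [ab_val]
      by_cases hr : (r : α) = x
      · have h3 : r = ⟨x, hxR⟩ := Subtype.ext hr
        rw [h3, ← hY0, blk_apply, Function.update_self]
        rfl
      · refine blk_apply_of_not Y _ _ ?_
        rintro ⟨⟨i', p'⟩, h5⟩
        exact hYr i r hr i' p' h5.symm
    rw [← Perm.mul_apply, ← map_mul, ← map_mul, h3, map_mul, map_mul, Perm.mul_apply, h4]
    refine hc1 i _ _ ?_
    change ((a i : Perm (Fin 5)) * (mv p : Perm (Fin 5))) 0 = _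
    rw [Perm.mul_apply, hmv]
  have hc2 : ∀ i p q, θ (ab Y (Pi.mulSingle i (mv p))) (w i) =
      θ (ab Y (Pi.mulSingle i (mv q))) (w i) → p = q := by
    intro i p q h
    have h3 : θ (ab Y (Pi.mulSingle i ((mv q)⁻¹ * mv p))) (w i) = w i := by
      rw [Pi.mulSingle_mul, map_mul, map_mul, Perm.mul_apply, h, Pi.mulSingle_inv, map_inv,
        map_inv, inv_app]
    have h4 := hQ i _ h3
    have h5 : ((mv q : Perm (Fin 5))⁻¹ * (mv p : Perm (Fin 5))) 0 = 0 := h4
    rw [Perm.mul_apply, hmv, Perm.inv_eq_iff_eq, hmv] at h5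
    exact h5
  refine ⟨⟨fun z => θ (ab Y (Pi.mulSingle z.1 (mv z.2))) (w z.1), ?_⟩, fun a => ⟨ab Y a, fun i p =>
    hc4 a i p⟩⟩
  rintro ⟨i, p⟩ ⟨j, q⟩ h
  have h' : θ (ab Y (Pi.mulSingle i (mv p))) (w i) = θ (ab Y (Pi.mulSingle j (mv q))) (w j) := h
  by_cases hij : i = j
  · subst hij
    rw [hc2 i p q h']
  · exfalso
    -- move `p` inside the block of `i`
    obtain ⟨s, hs, -, -⟩ := exists_ne3 p p p
    obtain ⟨c, hc⟩ : ∃ c : A5, (c : Perm (Fin 5)) p = s := by
      refine ⟨mv s * (mv p)⁻¹, ?_⟩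
      change ((mv s : Perm (Fin 5)) * (mv p : Perm (Fin 5))⁻¹) p = s
      have h3 : (mv p : Perm (Fin 5))⁻¹ p = 0 := by
        rw [Perm.inv_eq_iff_eq, hmv]
      rw [Perm.mul_apply, h3, hmv]
    have h3 := hc4 (Pi.mulSingle i c) i p
    have h4 := hc4 (Pi.mulSingle i c) j q
    rw [Pi.mulSingle_eq_same, hc] at h3
    rw [Pi.mulSingle_eq_of_ne (Ne.symm hij)] at h4
    rw [h', h4] at h3
    have h5 : θ (ab Y (Pi.mulSingle j (mv ((((1 : A5) : A5) : Perm (Fin 5)) q)))) (w j) =
        θ (ab Y (Pi.mulSingle j (mv q))) (w j) := rfl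
    rw [h5, ← h'] at h3
    exact hs (hc2 i p s h3).symm

end partB

/-- **Actions of alternating groups.** Let the alternating group of degree `m` act in a nontrivial
way on the finite set `V`, `|V| < 5 ^ (l + 1)`, `t (5 l + 4) ≤ m` and `5 l + 5 ≤ m`. Then there are
`t` disjoint five-element sets in `V` on which every element of `A_5 ^ t` is induced by an element
of the group. -/
theorem blocks_of_action {V : Type} [Fintype V] {m t l : ℕ} (hN : Fintype.card V < 5 ^ (l + 1))
    (h1 : t * (5 * l + 4) ≤ m) (h2 : 5 * l + 5 ≤ m)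
    (θ : alternatingGroup (Fin m) →* Equiv.Perm V) (hθ : ∃ g v, θ g v ≠ v) :
    ∃ b : Fin t × Fin 5 ↪ V, ∀ a : Fin t → A5, ∃ g : alternatingGroup (Fin m),
      ∀ i p, θ g (b (i, p)) = b (i, (a i : Equiv.Perm (Fin 5)) p) :=
  blocks_core hN (by rwa [Fintype.card_fin]) (by rwa [Fintype.card_fin]) θ hθ

end Pool.Agent.PSY
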