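import Pool.Agent.PSY.AltAct

set_option autoImplicit false

/-!
# Actions of alternating groups contain many blocks with five points: tight form

If the alternating group of degree `m` acts in a nontrivial way on a set `V` with less than
`5 ^ (l + 1)` points and `5 l + 5 t ≤ m`, `5 l + 5 ≤ m`, then there are `t` disjoint five-element
sets in `V` on which every element of `A_5 ^ t` is induced by an element of the alternating group.
-/

namespace Pool.Agent.PSY

open Equiv

/-- **Blocks.** A nontrivial action of an alternating group of large degree contains many blocks of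
five points with the natural action of `A_5`, independently in all blocks. -/
theorem blocks_core1 {α V : Type} [Fintype α] [DecidableEq α] [Fintype V] {t l : ℕ} (hN : Fintype.card V < 5 ^ (l + 1))
    (h1 : 5 * l + 5 * t ≤ Fintype.card α) (h2 : 5 * l + 5 ≤ Fintype.card α)
    (θ : alternatingGroup α →* Perm V) (hθ : ∃ g v, θ g v ≠ v) :
    ∃ b : Fin t × Fin 5 ↪ V, ∀ a : Fin t → A5, ∃ g : alternatingGroup α,
      ∀ i p, θ g (b (i, p)) = b (i, (a i : Perm (Fin 5)) p) := by
  classical
  obtain ⟨g0, v, hv⟩ := hθ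
  obtain ⟨D, hD, hDc, hDbad⟩ := exists_D (Kv θ v) h2 (not_fam hN θ v)
  -- a point outside `D`
  obtain ⟨x, hx⟩ : ∃ x, x ∉ D := by
    by_contra hall
    push Not at hall
    exact hv ((mem_Kv θ v g0).1 (hD g0 g0.2 fun z hz => absurd (hall z) hz))
  set R : Finset α := Dᶜ with hR
  have hxR : x ∈ R := Finset.mem_compl.2 hx
  have hRc : R.card ≤ 5 * l := by
    rw [hR, Finset.card_compl]
    omega
  -- the five-element sets in `α`
  obtain ⟨Y0⟩ : Nonempty ((Fin t × Fin 5) ↪ {z // z ∈ insert x D}) := by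
    refine Function.Embedding.nonempty_of_card_le ?_
    rw [Fintype.card_prod, Fintype.card_fin, Fintype.card_fin, Fintype.card_coe,
      Finset.card_insert_of_notMem hx]
    omega
  set Y : Fin t × Fin 5 ↪ α := Y0.trans (Function.Embedding.subtype _) with hY
  have hYR : ∀ (r : {r // r ∈ R}), (r : α) ≠ x → ∀ z, (r : α) ≠ Y z := by
    intro r hr z h
    have h3 : Y z ∈ insert x D := (Y0 z).2
    rw [← h, Finset.mem_insert] at h3
    rcases h3 with h3 | h3
    · exact hr h3
    · exact (Finset.mem_compl.1 r.2) h3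
  choose g hg hge using fun j : Fin t => exists_even R (by omega)
    ⟨fun r => if (r : α) = x then Y (j, 0) else r, fun r r' h => by
      by_cases hr : (r : α) = x
      · by_cases hr' : (r' : α) = x
        · exact Subtype.ext (hr.trans hr'.symm)
        · simp only [hr, hr', if_true, if_false] at h
          exact absurd h.symm (hYR r' hr' _)
      · by_cases hr' : (r' : α) = x
        · simp only [hr, hr', if_true, if_false] at h
          exact absurd h (hYR r hr _)
        · simp only [hr, hr', if_false] at h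
          exact Subtype.ext h⟩
  have hgx : ∀ j, g j x = Y (j, 0) := by
    intro j
    have h3 := hge j ⟨x, hxR⟩
    rw [h3]
    exact if_pos rfl
  have hgr : ∀ j (r : {r // r ∈ R}), (r : α) ≠ x → g j r = r := by
    intro j r hr
    rw [hge j r]
    exact if_neg hr
  -- the points
  set w : Fin t → V := fun j => θ ⟨g j, hg j⟩ v with hw
  have hfix : ∀ j (h : alternatingGroup α),
      (h : Perm α) (Y (j, 0)) = Y (j, 0) →
      (∀ r : {r // r ∈ R}, (r : α) ≠ x → (h : Perm α) r = r) → θ h (w j) = w j := by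
    intro j h hh0 hh
    have h3 : ((⟨g j, hg j⟩⁻¹ * h * ⟨g j, hg j⟩ : alternatingGroup α) : Perm α) ∈ Kv θ v := by
      refine hD _ (SetLike.coe_mem _) fun z hz => ?_
      have hzR : z ∈ R := Finset.mem_compl.2 hz
      change ((g j)⁻¹ * (h : Perm α) * g j) z = z
      rw [Perm.mul_apply, Perm.mul_apply, Perm.inv_eq_iff_eq]
      by_cases hzx : z = x
      · rw [hzx, hgx, hh0]
      · have h4 := hgr j ⟨z, hzR⟩ hzx
        have h5 := hh ⟨z, hzR⟩ hzx
        simp only at h4 h5
        rw [h4, h5]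
    rw [mem_Kv, map_mul, map_mul, Perm.mul_apply, Perm.mul_apply, map_inv,
      Perm.inv_eq_iff_eq] at h3
    exact h3
  -- the subgroups `Q j`
  have hQ0 : ∀ j (a : A5), (a : Perm (Fin 5)) 0 = 0 →
      θ (ab Y (Pi.mulSingle j a)) (w j) = w j := by
    intro j a ha
    refine hfix j _ ?_ fun r hr => ?_
    · rw [ab_val, blk_apply, Pi.mulSingle_eq_same, ha]
    · rw [ab_val]
      exact blk_of_single Y j a _ fun p => hYR r hr _
  have hQbad : ∀ j, ∃ a : A5, θ (ab Y (Pi.mulSingle j a)) (w j) ≠ w j := by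
    intro j
    by_contra hall
    push Not at hall
    set y : Fin 5 ↪ α := ⟨fun p => (g j)⁻¹ (Y (j, p)), fun p q h => by
      have h3 := Y.injective ((g j)⁻¹.injective h)
      simpa using h3⟩ with hy
    have hyv : ∀ p, y p = (g j)⁻¹ (Y (j, p)) := fun p => rfl
    refine hDbad y ?_ ?_ ?_
    · rw [hyv, ← hgx, inv_app]
      exact hx
    · intro p hp
      obtain ⟨q, rfl⟩ := Fin.exists_succ_eq.2 hp
      by_contra hnD
      have hzR : y q.succ ∈ R := Finset.mem_compl.2 hnD
      have hgy : g j (y q.succ) = Y (j, q.succ) := by rw [hyv, app_inv]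
      by_cases hzx : y q.succ = x
      · rw [hzx, hgx] at hgy
        have h4 := Y.injective hgy
        simp only [Prod.mk.injEq, true_and] at h4
        exact absurd h4.symm (Fin.succ_ne_zero q)
      · have h3 := hgr j ⟨y q.succ, hzR⟩ hzx
        exact hYR ⟨y q.succ, hzR⟩ hzx (j, q.succ) (h3.symm.trans hgy)
    · intro a
      have h3 : via y a = (g j)⁻¹ * blk Y (Pi.mulSingle j a) * g j := by
        ext z
        rw [Perm.mul_apply, Perm.mul_apply]
        by_cases hz : z ∈ Set.range y
        · obtain ⟨p, rfl⟩ := hz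
          rw [via_apply, hyv, hyv, app_inv, blk_apply, Pi.mulSingle_eq_same]
        · rw [via_apply_of_not _ _ _ hz, blk_of_single Y j a, inv_app]
          intro p hp
          exact hz ⟨p, by rw [hyv, ← hp, inv_app]⟩
      have h4 : ((⟨g j, hg j⟩⁻¹ * ab Y (Pi.mulSingle j a) * ⟨g j, hg j⟩ : alternatingGroup α) :
          Perm α) ∈ Kv θ v := by
        rw [mem_Kv, map_mul, map_mul, Perm.mul_apply, Perm.mul_apply, map_inv,
          Perm.inv_eq_iff_eq]
        exact hall a
      rw [h3]
      exact h4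
  have hQ : ∀ j (a : A5), θ (ab Y (Pi.mulSingle j a)) (w j) = w j → (a : Perm (Fin 5)) 0 = 0 := by
    intro j a ha
    set Q : Subgroup A5 := (MulAction.stabilizer (Perm V) (w j)).comap
      ((θ.comp (ab Y)).comp (MonoidHom.mulSingle (fun _ : Fin t => A5) j)) with hQd
    have hmem : ∀ a : A5, a ∈ Q ↔ θ (ab Y (Pi.mulSingle j a)) (w j) = w j := fun a => Iff.rfl
    refine stab_max Q (fun a h => (hmem a).2 (hQ0 j a h)) ?_ a ((hmem a).2 ha)
    obtain ⟨c, hc⟩ := hQbad j
    exact ⟨c, fun h => hc ((hmem c).1 h)⟩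
  choose mv hmv using exists_mv
  have hc1 : ∀ j (a : A5) (p : Fin 5), (a : Perm (Fin 5)) 0 = p →
      θ (ab Y (Pi.mulSingle j a)) (w j) = θ (ab Y (Pi.mulSingle j (mv p))) (w j) := by
    intro j a p ha
    have h3 : (((mv p)⁻¹ * a : A5) : Perm (Fin 5)) 0 = 0 := by
      change ((mv p : Perm (Fin 5))⁻¹ * (a : Perm (Fin 5))) 0 = 0
      rw [Perm.mul_apply, ha, Perm.inv_eq_iff_eq, hmv]
    have h4 := hQ0 j _ h3
    have h5 : (Pi.mulSingle j a : Fin t → A5) =
        Pi.mulSingle j (mv p) * Pi.mulSingle j ((mv p)⁻¹ * a) := by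
      rw [← Pi.mulSingle_mul, mul_inv_cancel_left]
    rw [h5, map_mul, map_mul, Perm.mul_apply, h4]
  have hc4 : ∀ (a : Fin t → A5) i p,
      θ (ab Y a) (θ (ab Y (Pi.mulSingle i (mv p))) (w i)) =
        θ (ab Y (Pi.mulSingle i (mv ((a i : Perm (Fin 5)) p)))) (w i) := by
    intro a i p
    have h3 : a * Pi.mulSingle i (mv p) =
        Pi.mulSingle i (a i * mv p) * Function.update a i 1 := by
      funext j
      rw [Pi.mul_apply, Pi.mul_apply]
      by_cases hj : j = i
      · subst hj
        rw [Pi.mulSingle_eq_same, Pi.mulSingle_eq_same, Function.update_self, mul_one]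
      · rw [Pi.mulSingle_eq_of_ne hj, Pi.mulSingle_eq_of_ne hj, Function.update_of_ne hj,
          mul_one, one_mul]
    have h4 : θ (ab Y (Function.update a i 1)) (w i) = w i := by
      refine hfix i _ ?_ fun r hr => ?_
      · rw [ab_val, blk_apply, Function.update_self]
        rfl
      · rw [ab_val]
        refine blk_apply_of_not Y _ _ ?_
        rintro ⟨z, h5⟩
        exact hYR r hr z h5.symm
    rw [← Perm.mul_apply, ← map_mul, ← map_mul, h3, map_mul, map_mul, Perm.mul_apply, h4]
    refine hc1 i _ _ ?_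
    change ((a i : Perm (Fin 5)) * (mv p : Perm (Fin 5))) 0 = _
    rw [Perm.mul_apply, hmv]
  have hc2 : ∀ i p q, θ (ab Y (Pi.mulSingle i (mv p))) (w i) =
      θ (ab Y (Pi.mulSingle i (mv q))) (w i) → p = q := by
    intro i p q h
    have h3 : θ (ab Y (Pi.mulSingle i ((mv q)⁻¹ * mv p))) (w i) = w i := by
      rw [Pi.mulSingle_mul, map_mul, map_mul, Perm.mul_apply, h, Pi.mulSingle_inv, map_inv,
        map_inv, inv_app]
    have h4 := hQ i _ h3
    have h5 : ((mv q : Perm (Fin 5))⁻¹ * (mv p : Perm (Fin 5))) 0 = 0 := h4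
    rw [Perm.mul_apply, hmv, Perm.inv_eq_iff_eq, hmv] at h5
    exact h5
  refine ⟨⟨fun z => θ (ab Y (Pi.mulSingle z.1 (mv z.2))) (w z.1), ?_⟩, fun a => ⟨ab Y a, fun i p =>
    hc4 a i p⟩⟩
  rintro ⟨i, p⟩ ⟨j, q⟩ h
  have h' : θ (ab Y (Pi.mulSingle i (mv p))) (w i) = θ (ab Y (Pi.mulSingle j (mv q))) (w j) := h
  by_cases hij : i = j
  · subst hij
    rw [hc2 i p q h']
  · exfalso
    -- move `p` inside the block of `i`
    obtain ⟨s, hs, -, -⟩ := exists_ne3 p p p
    obtain ⟨c, hc⟩ : ∃ c : A5, (c : Perm (Fin 5)) p = s := by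
      refine ⟨mv s * (mv p)⁻¹, ?_⟩
      change ((mv s : Perm (Fin 5)) * (mv p : Perm (Fin 5))⁻¹) p = s
      have h3 : (mv p : Perm (Fin 5))⁻¹ p = 0 := by
        rw [Perm.inv_eq_iff_eq, hmv]
      rw [Perm.mul_apply, h3, hmv]
    have h3 := hc4 (Pi.mulSingle i c) i p
    have h4 := hc4 (Pi.mulSingle i c) j q
    rw [Pi.mulSingle_eq_same, hc] at h3
    rw [Pi.mulSingle_eq_of_ne (Ne.symm hij)] at h4
    rw [h', h4] at h3
    have h5 : θ (ab Y (Pi.mulSingle j (mv ((((1 : A5) : A5) : Perm (Fin 5)) q)))) (w j) =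
        θ (ab Y (Pi.mulSingle j (mv q))) (w j) := rfl
    rw [h5, ← h'] at h3
    exact hs (hc2 i p s h3).symm

/-- **Actions of alternating groups, tight form.** Let the alternating group of degree `m` act in a
nontrivial way on the finite set `V`, `|V| < 5 ^ (l + 1)`, `5 l + 5 t ≤ m` and `5 l + 5 ≤ m`. Then
there are `t` disjoint five-element sets in `V` on which every element of `A_5 ^ t` is induced by an
element of the group. -/
theorem blocks_of_action1 {V : Type} [Fintype V] {m t l : ℕ} (hN : Fintype.card V < 5 ^ (l + 1))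
    (h1 : 5 * l + 5 * t ≤ m) (h2 : 5 * l + 5 ≤ m)
    (θ : alternatingGroup (Fin m) →* Equiv.Perm V) (hθ : ∃ g v, θ g v ≠ v) :
    ∃ b : Fin t × Fin 5 ↪ V, ∀ a : Fin t → A5, ∃ g : alternatingGroup (Fin m),
      ∀ i p, θ g (b (i, p)) = b (i, (a i : Equiv.Perm (Fin 5)) p) :=
  blocks_core1 hN (by rwa [Fintype.card_fin]) (by rwa [Fintype.card_fin]) θ hθ

end Pool.Agent.PSY
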