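import Mathlib

set_option autoImplicit false

/-!
# Circuits with arbitrary functions of weighted sums as gates, and their automorphisms
-/

namespace Pool.Agent.PSY

/-- A circuit with inputs `I`. The gate `g` applies the function `fn g` to the sum of the weights
of its wires with value `true`: `w g h` is the weight of the wire from the gate `h` to the gate
`g`, `wi g i` the weight of the wire from the input `i` to the gate `g` (weight `0` if there is no
wire). `rank` shows that there are no cycles. -/
structure Circuit (I : Type) where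
  Gate : Type
  fin : Fintype Gate
  rank : Gate → ℕ
  w : Gate → Gate → ℝ
  wi : Gate → I → ℝ
  rank_lt : ∀ g h, w g h ≠ 0 → rank h < rank g
  fn : Gate → ℝ → Bool
  out : Gate

attribute [instance] Circuit.fin

/-- The number of gates (inputs are not counted). -/
def Circuit.size {I : Type} (C : Circuit I) : ℕ := Fintype.card C.Gate

/-- The value of the gate `g` on the input `X`. -/
noncomputable def Circuit.val {I : Type} [Fintype I] (C : Circuit I) (X : I → Bool)
    (g : C.Gate) : Bool :=
  C.fn g ((∑ h : C.Gate, if _hlt : C.rank h < C.rank g then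
      (if C.val X h = true then C.w g h else 0) else 0)
    + ∑ i : I, if X i = true then C.wi g i else 0)
termination_by C.rank g

/-- The circuit computes `f`. -/
def Circuit.Computes {I : Type} [Fintype I] (C : Circuit I) (f : (I → Bool) → Bool) : Prop :=
  ∀ X, C.val X C.out = f X

/-- `π` is an automorphism of the circuit which induces the permutation `s` of the inputs. -/
def Circuit.Aut {I : Type} (C : Circuit I) (s : Equiv.Perm I) (π : Equiv.Perm C.Gate) : Prop :=
  (∀ g h, C.w (π g) (π h) = C.w g h) ∧ (∀ g i, C.wi (π g) (s i) = C.wi g i) ∧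
    (∀ g, C.fn (π g) = C.fn g) ∧ π C.out = C.out

/-- The values satisfy the equations of the gates. -/
theorem val_eq {I : Type} [Fintype I] (C : Circuit I) (X : I → Bool) (g : C.Gate) :
    C.val X g = C.fn g ((∑ h : C.Gate, if C.val X h = true then C.w g h else 0)
      + ∑ i : I, if X i = true then C.wi g i else 0) := by
  rw [Circuit.val]
  congr 2
  refine Finset.sum_congr rfl (fun h _ => ?_)
  by_cases hlt : C.rank h < C.rank g
  · rw [dif_pos hlt]
  · rw [dif_neg hlt]
    have h0 : C.w g h = 0 := by
      by_contra hne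
      exact hlt (C.rank_lt g h hne)
    rw [h0]
    simp

/-- The equations of the gates determine the values. -/
theorem val_unique {I : Type} [Fintype I] (C : Circuit I) (X : I → Bool) (v : C.Gate → Bool)
    (h : ∀ g, v g = C.fn g ((∑ h : C.Gate, if v h = true then C.w g h else 0)
      + ∑ i : I, if X i = true then C.wi g i else 0)) (g : C.Gate) : v g = C.val X g := by
  induction hn : C.rank g using Nat.strong_induction_on generalizing g with
  | _ n ih =>
    subst hn
    rw [h g, val_eq C X g]
    congr 2
    refine Finset.sum_congr rfl (fun k _ => ?_)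
    by_cases h0 : C.w g k = 0
    · simp [h0]
    · rw [ih (C.rank k) (C.rank_lt g k h0) k rfl]

theorem aut_one {I : Type} (C : Circuit I) : C.Aut 1 1 :=
  ⟨fun _ _ => rfl, fun _ _ => rfl, fun _ => rfl, rfl⟩

theorem aut_mul {I : Type} (C : Circuit I) (s s' : Equiv.Perm I) (π π' : Equiv.Perm C.Gate)
    (h : C.Aut s π) (h' : C.Aut s' π') : C.Aut (s * s') (π * π') := by
  refine ⟨fun g k => ?_, fun g i => ?_, fun g => ?_, ?_⟩
  · rw [Equiv.Perm.mul_apply, Equiv.Perm.mul_apply, h.1, h'.1]
  · rw [Equiv.Perm.mul_apply, Equiv.Perm.mul_apply, h.2.1, h'.2.1]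
  · rw [Equiv.Perm.mul_apply, h.2.2.1, h'.2.2.1]
  · rw [Equiv.Perm.mul_apply, h'.2.2.2, h.2.2.2]

theorem perm_inv_right {α : Type} (σ : Equiv.Perm α) (x : α) : σ (σ⁻¹ x) = x :=
  σ.apply_symm_apply x

theorem perm_inv_left {α : Type} (σ : Equiv.Perm α) (x : α) : σ⁻¹ (σ x) = x :=
  σ.symm_apply_apply x

theorem aut_inv {I : Type} (C : Circuit I) (s : Equiv.Perm I) (π : Equiv.Perm C.Gate)
    (h : C.Aut s π) : C.Aut s⁻¹ π⁻¹ := by
  refine ⟨fun g k => ?_, fun g i => ?_, fun g => ?_, ?_⟩
  · have := h.1 (π⁻¹ g) (π⁻¹ k)
    rw [perm_inv_right, perm_inv_right] at this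
    exact this.symm
  · have := h.2.1 (π⁻¹ g) (s⁻¹ i)
    rw [perm_inv_right, perm_inv_right] at this
    exact this.symm
  · have := h.2.2.1 (π⁻¹ g)
    rw [perm_inv_right] at this
    exact this.symm
  · rw [Equiv.Perm.inv_eq_iff_eq]
    exact h.2.2.2.symm

/-- Automorphisms move values. -/
theorem val_aut {I : Type} [Fintype I] (C : Circuit I) (s : Equiv.Perm I)
    (π : Equiv.Perm C.Gate) (hπ : C.Aut s π) (X Y : I → Bool) (hXY : ∀ i, Y (s i) = X i)
    (g : C.Gate) : C.val Y (π g) = C.val X g := by
  induction hn : C.rank g using Nat.strong_induction_on generalizing g with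
  | _ n ih =>
    subst hn
    rw [val_eq, val_eq C X g, hπ.2.2.1]
    congr 2
    · rw [← Equiv.sum_comp π]
      refine Finset.sum_congr rfl (fun h _ => ?_)
      rw [hπ.1]
      by_cases h0 : C.w g h = 0
      · simp [h0]
      · rw [ih (C.rank h) (C.rank_lt g h h0) h rfl]
    · rw [← Equiv.sum_comp s]
      refine Finset.sum_congr rfl (fun i _ => ?_)
      rw [hπ.2.1, hXY]

end Pool.Agent.PSY
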