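import Pool.Agent.PSY.Giant

set_option autoImplicit false

/-!
# The number of vertices outside the giant component
-/

namespace Pool.Agent.PSY

open Pool.Agent.NXL

open Classical in
/-- Few vertices lie outside the giant component. -/
theorem card_not_big {M : ℕ} [NeZero M] (hM : Odd M) (D : Finset (Vt M))
    (hD : 640 * D.card < 7 * M ^ 2) :
    (Finset.univ.filter fun z : Vt M => ¬ Big D z).card ≤ 24 * D.card := by
  obtain ⟨z0, hz0⟩ := exists_big hM D hD
  obtain ⟨NB, hNB⟩ : ∃ NB, NB = Finset.univ.filter fun z : Vt M => ¬ Big D z := ⟨_, rfl⟩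
  rw [← hNB]
  have hmem : ∀ z, z ∈ NB ↔ ¬ Big D z := by
    intro z
    rw [hNB]
    simp
  have hstep : ∀ z z', Step D z z' → Big D z' → Big D z := by
    intro z z' hs hb
    refine ⟨hs.1, lt_of_lt_of_le hb.2 (Nat.mul_le_mul_left 2 (Finset.card_le_card ?_))⟩
    intro w hw
    rw [mem_comp] at hw ⊢
    exact Relation.ReflTransGen.head hs hw
  have hR : ∀ z ∈ NB \ D, ∀ z', Step D z z' → z' ∈ NB \ D := by
    intro z hz z' hs
    rw [Finset.mem_sdiff, hmem] at hz ⊢
    exact ⟨fun hb => hz.1 (hstep z z' hs hb), hs.2.1⟩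
  have hRD : Disjoint (NB \ D) D := Finset.sdiff_disjoint
  have hW : comp D z0 ⊆ NBᶜ := by
    intro w hw
    rw [Finset.mem_compl, hmem, not_not]
    rw [mem_comp] at hw
    induction hw with
    | refl => exact hz0
    | tail _ hs ih => exact hstep _ _ hs.symm ih
  have h1 := Finset.card_le_card hW
  rw [Finset.card_compl, card_Vt_nat] at h1
  have h2 := hz0.2
  have h3 : (NB \ D).card ≤ NB.card := Finset.card_le_card Finset.sdiff_subset
  have h4 : NB.card ≤ (NB \ D).card + D.card := by
    have h := Finset.card_le_card (show NB ⊆ (NB \ D) ∪ D by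
      rw [Finset.sdiff_union_self_eq_union]
      exact Finset.subset_union_left)
    exact h.trans (Finset.card_union_le _ _)
  have hcb := closed_bound hM D (NB \ D) hR hRD
  obtain ⟨n, hn⟩ : ∃ n, n = M ^ 2 := ⟨_, rfl⟩
  have h0 : 0 < M ^ 2 := pow_pos (NeZero.pos M) 2
  rw [← hn] at hcb h1 h2 h0
  have h5 : n ≤ 2 * (n - (NB \ D).card) := by omega
  have h6 : (NB \ D).card * n ≤ (NB \ D).card * (2 * (n - (NB \ D).card)) :=
    Nat.mul_le_mul_left _ h5
  have h7 : n * (7 * (NB \ D).card) ≤ n * (160 * D.card) := by nlinarith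
  have h8 := Nat.le_of_mul_le_mul_left h7 h0
  omega

end Pool.Agent.PSY
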