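import Pool.Agent.PSY.CubD
import Pool.Agent.PSY.SymD

set_option autoImplicit false

/-!
# The constraint satisfaction function on the cubic Margulis graph: definitions
-/

namespace Pool.Agent.PSY

open Pool.Agent.NXL

/-- The inputs: one bit for every edge and every pair of points of the two blocks. -/
abbrev In (M : ℕ) : Type := Eg M × Fin 5 × Fin 5

open Classical in
/-- Is it possible to choose a point in every block such that all edges allow the chosen
pairs? -/
noncomputable def csp {M : ℕ} (X : In M → Bool) : Bool :=
  decide (∃ y : Nd M → Fin 5, ∀ e, X (e, y (src e), y (tgt e)) = true)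

/-- The even permutations `a` of the values at the nodes act on the inputs. -/
def move {M : ℕ} (a : Nd M → A5) (i : In M) : In M :=
  (i.1, (a (src i.1) : Equiv.Perm (Fin 5)) i.2.1, (a (tgt i.1) : Equiv.Perm (Fin 5)) i.2.2)

/-- The instance with right hand sides `c`. -/
def cinst {M : ℕ} (c : Eg M → ZMod 2) (i : In M) : Bool := cons c i.1 i.2.1 i.2.2

/-- The circuit is right on the instance `X`: its output is `csp X`. -/
def Right {M : ℕ} (C : SymCircuit (In M)) (X : In M → Bool) : Prop :=
  ∃ v, C.IsVal X v ∧ v C.out = csp X

open Classical in
/-- The probability that the circuit is right, if the instance is with probability `1 / 2` the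
untwisted one (which is solvable), and with probability `1 / 2` the one with a twist at a random
place `z` (which is not). -/
noncomputable def success {M : ℕ} [NeZero M] (C : SymCircuit (In M)) : ℝ :=
  (if Right C (cinst (0 : Eg M → ZMod 2)) then 1 else 0) / 2 +
    ((Finset.univ.filter fun z : Vt M => Right C (cinst (tw z))).card : ℝ) / (2 * (M : ℝ) ^ 2)

end Pool.Agent.PSY
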