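import Pool.Agent.NXL.Edge

set_option autoImplicit false

/-!
# The giant component of the Margulis graph after removal of few vertices
-/

namespace Pool.Agent.PSY

open Pool.Agent.NXL

/-- A step between two vertices outside `D`. -/
def Step {M : ℕ} (D : Finset (Vt M)) (z z' : Vt M) : Prop :=
  z ∉ D ∧ z' ∉ D ∧ ∃ j, z' = T j z ∨ z = T j z'

open Classical in
/-- The component of `z` outside `D`. -/
noncomputable def comp {M : ℕ} [NeZero M] (D : Finset (Vt M)) (z : Vt M) : Finset (Vt M) :=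
  Finset.univ.filter fun z' => Relation.ReflTransGen (Step D) z z'

/-- `z` lies outside `D` in a component with more than half of all vertices. -/
def Big {M : ℕ} [NeZero M] (D : Finset (Vt M)) (z : Vt M) : Prop :=
  z ∉ D ∧ M ^ 2 < 2 * (comp D z).card

theorem Step.symm {M : ℕ} {D : Finset (Vt M)} {a b : Vt M} (h : Step D a b) : Step D b a := by
  obtain ⟨j, hj⟩ := h.2.2
  exact ⟨h.2.1, h.1, j, hj.symm⟩

theorem Step.anti {M : ℕ} {D D' : Finset (Vt M)} (hD : D ⊆ D') {a b : Vt M} (h : Step D' a b) :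
    Step D a b :=
  ⟨fun h1 => h.1 (hD h1), fun h1 => h.2.1 (hD h1), h.2.2⟩

theorem mem_comp {M : ℕ} [NeZero M] (D : Finset (Vt M)) (v w : Vt M) :
    w ∈ comp D v ↔ Relation.ReflTransGen (Step D) v w := by
  classical
  unfold comp
  simp

theorem rtg_symm {M : ℕ} (D : Finset (Vt M)) : ∀ a b : Vt M,
    Relation.ReflTransGen (Step D) a b → Relation.ReflTransGen (Step D) b a := by
  intro a b h
  induction h with
  | refl => exact Relation.ReflTransGen.refl
  | tail _ hs ih => exact Relation.ReflTransGen.head hs.symm ih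

theorem card_Vt_nat (M : ℕ) [NeZero M] : Fintype.card (Vt M) = M ^ 2 := by
  rw [Fintype.card_prod, ZMod.card]
  ring

theorem Big.conn {M : ℕ} [NeZero M] {D : Finset (Vt M)} {z z' : Vt M} (h : Big D z)
    (h' : Big D z') : Relation.ReflTransGen (Step D) z z' := by
  classical
  have h1 : ¬ Disjoint (comp D z) (comp D z') := by
    intro hd
    have h2 := Finset.card_union_of_disjoint hd
    have h3 : (comp D z ∪ comp D z').card ≤ Fintype.card (Vt M) := Finset.card_le_univ _
    have h4 := h.2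
    have h5 := h'.2
    rw [card_Vt_nat] at h3
    omega
  rw [Finset.not_disjoint_iff] at h1
  obtain ⟨w, hw1, hw2⟩ := h1
  rw [mem_comp] at hw1 hw2
  exact hw1.trans (rtg_symm D z' w hw2)

theorem Big.mono {M : ℕ} [NeZero M] {D D' : Finset (Vt M)} (hD : D ⊆ D') {z : Vt M}
    (h : Big D' z) : Big D z := by
  refine ⟨fun h1 => h.1 (hD h1), lt_of_lt_of_le h.2 ?_⟩
  refine Nat.mul_le_mul_left 2 (Finset.card_le_card ?_)
  intro w hw
  rw [mem_comp] at hw ⊢
  induction hw with
  | refl => exact Relation.ReflTransGen.refl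
  | tail _ hs ih => exact ih.tail (hs.anti hD)

theorem bd_card_le {M : ℕ} [NeZero M] (D W : Finset (Vt M))
    (hW : ∀ z ∈ W, ∀ z', Step D z z' → z' ∈ W) (hWD : Disjoint W D) :
    (bd W).card ≤ 8 * D.card := by
  classical
  have hnot : ∀ z ∈ W, z ∉ D := fun z hz => Finset.disjoint_left.1 hWD hz
  have h1 : bd W ⊆ (D ×ˢ (Finset.univ : Finset (Fin 4))) ∪
      (D ×ˢ (Finset.univ : Finset (Fin 4))).image (fun p => ((T p.2).symm p.1, p.2)) := by
    intro e he
    unfold bd at he
    rw [Finset.mem_filter] at he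
    rw [Finset.mem_union]
    by_cases h2 : e.1 ∈ W
    · right
      have h3 : T e.2 e.1 ∉ W := fun h4 => he.2 ⟨fun _ => h4, fun _ => h2⟩
      have h4 : T e.2 e.1 ∈ D := by
        by_contra h5
        exact h3 (hW _ h2 _ ⟨hnot _ h2, h5, e.2, Or.inl rfl⟩)
      rw [Finset.mem_image]
      refine ⟨(T e.2 e.1, e.2), ?_, ?_⟩
      · simp [h4]
      · simp
    · left
      have h3 : T e.2 e.1 ∈ W := by
        by_contra h4
        exact he.2 ⟨fun h5 => absurd h5 h2, fun h5 => absurd h5 h4⟩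
      have h4 : e.1 ∈ D := by
        by_contra h5
        exact h2 (hW _ h3 _ ⟨hnot _ h3, h5, e.2, Or.inr rfl⟩)
      simp [h4]
  have h2 := Finset.card_le_card h1
  have h3 := Finset.card_union_le (D ×ˢ (Finset.univ : Finset (Fin 4)))
    ((D ×ˢ (Finset.univ : Finset (Fin 4))).image (fun p => ((T p.2).symm p.1, p.2)))
  have h4 : ((D ×ˢ (Finset.univ : Finset (Fin 4))).image
      (fun p => ((T p.2).symm p.1, p.2))).card ≤ (D ×ˢ (Finset.univ : Finset (Fin 4))).card :=
    Finset.card_image_le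
  have h5 : (D ×ˢ (Finset.univ : Finset (Fin 4))).card = D.card * 4 := by
    rw [Finset.card_product, Finset.card_univ, Fintype.card_fin]
  omega

/-- A closed set has many vertices or few, by the isoperimetric inequality. -/
theorem closed_bound {M : ℕ} [NeZero M] (hM : Odd M) (D W : Finset (Vt M))
    (hW : ∀ z ∈ W, ∀ z', Step D z z' → z' ∈ W) (hWD : Disjoint W D) :
    7 * (W.card * (M ^ 2 - W.card)) ≤ 80 * (M ^ 2 * D.card) := by
  have h1 := edge_bound M hM W
  have h3 := bd_card_le D W hW hWD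
  have hle : W.card ≤ M ^ 2 := by
    have h := Finset.card_le_univ W
    rwa [card_Vt_nat] at h
  have h6 : ((bd W).card : ℝ) ≤ 8 * (D.card : ℝ) := by exact_mod_cast h3
  have h5 : (0 : ℝ) ≤ (M : ℝ) ^ 2 := by positivity
  have h10 : (M : ℝ) ^ 2 * (bd W).card ≤ (M : ℝ) ^ 2 * (8 * (D.card : ℝ)) :=
    mul_le_mul_of_nonneg_left h6 h5
  have h11 : (7 : ℝ) * ((W.card : ℝ) * ((M : ℝ) ^ 2 - W.card)) ≤ 80 * ((M : ℝ) ^ 2 * D.card) := by
    linarith
  have h12 : ((M ^ 2 - W.card : ℕ) : ℝ) = (M : ℝ) ^ 2 - W.card := by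
    rw [Nat.cast_sub hle]
    push_cast
    ring
  rw [← h12] at h11
  exact_mod_cast h11

theorem closed_small {M : ℕ} [NeZero M] (hM : Odd M) (D W : Finset (Vt M))
    (hD : 640 * D.card < 7 * M ^ 2)
    (hW : ∀ z ∈ W, ∀ z', Step D z z' → z' ∈ W) (hWD : Disjoint W D) (h2 : 2 * W.card ≤ M ^ 2) :
    4 * W.card < M ^ 2 := by
  have h1 := closed_bound hM D W hW hWD
  have h0 : 0 < M ^ 2 := pow_pos (NeZero.pos M) 2
  obtain ⟨n, hn⟩ : ∃ n, n = M ^ 2 := ⟨_, rfl⟩
  rw [← hn] at h1 h0 h2 hD ⊢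
  by_contra h3
  push Not at h3
  have h4 : n ≤ 2 * (n - W.card) := by omega
  have h5 : n * n ≤ (4 * W.card) * (2 * (n - W.card)) := Nat.mul_le_mul h3 h4
  have h6 : 640 * D.card * n < 7 * n * n := Nat.mul_lt_mul_of_pos_right hD h0
  nlinarith

/-- **The giant component.** -/
theorem exists_big {M : ℕ} [NeZero M] (hM : Odd M) (D : Finset (Vt M))
    (hD : 640 * D.card < 7 * M ^ 2) : ∃ z, Big D z := by
  classical
  have hpos : 0 < M ^ 2 := pow_pos (NeZero.pos M) 2
  have hne : (Finset.univ.filter fun A : Finset (Vt M) =>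
      ((∀ z ∈ A, ∀ z', Step D z z' → z' ∈ A) ∧ Disjoint A D) ∧ 2 * A.card ≤ M ^ 2).Nonempty := by
    refine ⟨∅, ?_⟩
    rw [Finset.mem_filter]
    exact ⟨Finset.mem_univ _, ⟨by simp, by simp⟩, by simp⟩
  obtain ⟨A, hA, hmax⟩ := Finset.exists_max_image _ Finset.card hne
  rw [Finset.mem_filter] at hA
  have hAs := closed_small hM D A hD hA.2.1.1 hA.2.1.2 hA.2.2
  have hex : ∃ v, v ∉ A ∪ D := by
    by_contra h
    push Not at h
    have h1 : (A ∪ D) = Finset.univ := Finset.eq_univ_iff_forall.2 h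
    have h2 := Finset.card_union_le A D
    rw [h1, Finset.card_univ, card_Vt_nat] at h2
    omega
  obtain ⟨v, hv⟩ := hex
  rw [Finset.mem_union, not_or] at hv
  refine ⟨v, hv.2, ?_⟩
  by_contra hsm
  push Not at hsm
  have hC1 : ∀ z ∈ comp D v, ∀ z', Step D z z' → z' ∈ comp D v := by
    intro z hz z' hzz
    rw [mem_comp] at hz ⊢
    exact hz.tail hzz
  have hC2 : Disjoint (comp D v) D := by
    rw [Finset.disjoint_left]
    intro u hu
    rw [mem_comp] at hu
    rcases Relation.ReflTransGen.cases_tail hu with h | ⟨w, _, hw⟩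
    · rw [h]
      exact hv.2
    · exact hw.2.1
  have hCs := closed_small hM D _ hD hC1 hC2 hsm
  have hle := Finset.card_union_le A (comp D v)
  have hmem : (A ∪ comp D v) ∈ (Finset.univ.filter fun A : Finset (Vt M) =>
      ((∀ z ∈ A, ∀ z', Step D z z' → z' ∈ A) ∧ Disjoint A D) ∧ 2 * A.card ≤ M ^ 2) := by
    rw [Finset.mem_filter]
    refine ⟨Finset.mem_univ _, ⟨?_, ?_⟩, ?_⟩
    · intro z hz z' hzz
      rcases Finset.mem_union.1 hz with h | h
      · exact Finset.mem_union_left _ (hA.2.1.1 z h z' hzz)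
      · exact Finset.mem_union_right _ (hC1 z h z' hzz)
    · rw [Finset.disjoint_union_left]
      exact ⟨hA.2.1.2, hC2⟩
    · omega
  have h3 := hmax _ hmem
  have h4 : A.card < (A ∪ comp D v).card := by
    apply Finset.card_lt_card
    refine ⟨Finset.subset_union_left, ?_⟩
    intro h5
    exact hv.1 (h5 (Finset.mem_union_right _ ((mem_comp D v v).2 Relation.ReflTransGen.refl)))
  omega

end Pool.Agent.PSY
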