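import Pool.Agent.PSY.Par

set_option autoImplicit false

/-!
# The twist can be moved
-/

namespace Pool.Agent.PSY

open Pool.Agent.NXL

/-- The translation of a block by `(a, b)`. -/
def trp (a b : ZMod 2) : Equiv.Perm (Fin 5) :=
  (if a = 1 then Equiv.swap 0 1 * Equiv.swap 2 3 else 1) *
    (if b = 1 then Equiv.swap 0 2 * Equiv.swap 1 3 else 1)

theorem trp_mem (a b : ZMod 2) : trp a b ∈ alternatingGroup (Fin 5) := by
  have h1 : Equiv.swap (0 : Fin 5) 1 * Equiv.swap 2 3 ∈ alternatingGroup (Fin 5) := by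
    rw [Equiv.Perm.mem_alternatingGroup, Equiv.Perm.sign_mul,
      Equiv.Perm.sign_swap (by decide), Equiv.Perm.sign_swap (by decide)]
    rfl
  have h2 : Equiv.swap (0 : Fin 5) 2 * Equiv.swap 1 3 ∈ alternatingGroup (Fin 5) := by
    rw [Equiv.Perm.mem_alternatingGroup, Equiv.Perm.sign_mul,
      Equiv.Perm.sign_swap (by decide), Equiv.Perm.sign_swap (by decide)]
    rfl
  unfold trp
  refine mul_mem ?_ ?_
  · split_ifs
    · exact h1
    · exact one_mem _
  · split_ifs
    · exact h2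
    · exact one_mem _

theorem trp_four (a b : ZMod 2) (p : Fin 5) : trp a b p = 4 ↔ p = 4 := by
  revert a b p
  decide

theorem fu_trp (a b : ZMod 2) (p : Fin 5) (hp : p ≠ 4) : fu (trp a b p) = fu p + a := by
  revert a b p
  decide

theorem fv_trp (a b : ZMod 2) (p : Fin 5) (hp : p ≠ 4) : fv (trp a b p) = fv p + b := by
  revert a b p
  decide

/-- The change of the form at the first end. -/
def gS {M : ℕ} (a b : ZMod 2) : Eg M → ZMod 2
  | Sum.inl _ => b
  | Sum.inr _ => a + b

/-- The change of the form at the second end. -/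
def gT {M : ℕ} (a b : ZMod 2) : Eg M → ZMod 2
  | Sum.inl _ => a
  | Sum.inr _ => a + b

theorem fS_trp {M : ℕ} (a b : ZMod 2) (e : Eg M) (p : Fin 5) (hp : p ≠ 4) :
    fS e (trp a b p) = fS e p + gS a b e := by
  rcases e with _ | _
  · exact fv_trp a b p hp
  · change fu (trp a b p) + fv (trp a b p) = fu p + fv p + (a + b)
    rw [fu_trp a b p hp, fv_trp a b p hp]
    ring

theorem fT_trp {M : ℕ} (a b : ZMod 2) (e : Eg M) (p : Fin 5) (hp : p ≠ 4) :
    fT e (trp a b p) = fT e p + gT a b e := by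
  rcases e with _ | _
  · exact fu_trp a b p hp
  · change fu (trp a b p) + fv (trp a b p) = fu p + fv p + (a + b)
    rw [fu_trp a b p hp, fv_trp a b p hp]
    ring

/-- The change of the right hand sides by a translation of the block of `n`. -/
def dl {M : ℕ} (n : Nd M) (a b : ZMod 2) (e : Eg M) : ZMod 2 :=
  (if src e = n then gS a b e else 0) + (if tgt e = n then gT a b e else 0)

theorem Eqv.shift {M : ℕ} {B : Finset (Nd M)} (n : Nd M) (hn : n ∉ B) (a b : ZMod 2)
    (c : Eg M → ZMod 2) : Eqv B c (fun e => c e + dl n a b e) := by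
  classical
  refine ⟨Pi.mulSingle n ⟨trp a b, trp_mem a b⟩, fun m hm => ?_, fun e p q => ?_⟩
  · rw [Pi.mulSingle_eq_of_ne]
    rintro rfl
    exact hn hm
  · have h1 : ∀ (m : Nd M) (p : Fin 5),
        ((Pi.mulSingle n (⟨trp a b, trp_mem a b⟩ : A5) : Nd M → A5) m : Equiv.Perm (Fin 5)) p =
          if m = n then trp a b p else p := by
      intro m p
      by_cases h : m = n
      · subst h
        rw [Pi.mulSingle_eq_same, if_pos rfl]
      · rw [Pi.mulSingle_eq_of_ne h, if_neg h]
        rfl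
    rw [h1, h1]
    unfold cons
    rw [decide_eq_decide]
    by_cases hp : p = 4
    · have h2 : (if src e = n then trp a b p else p) = 4 := by
        split_ifs
        · exact (trp_four a b p).2 hp
        · exact hp
      constructor
      · rintro ⟨h, _⟩
        exact absurd h2 h
      · rintro ⟨h, _⟩
        exact absurd hp h
    by_cases hq : q = 4
    · have h2 : (if tgt e = n then trp a b q else q) = 4 := by
        split_ifs
        · exact (trp_four a b q).2 hq
        · exact hq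
      constructor
      · rintro ⟨_, h, _⟩
        exact absurd h2 h
      · rintro ⟨_, h, _⟩
        exact absurd hq h
    have h2 : (if src e = n then trp a b p else p) ≠ 4 := by
      split_ifs
      · exact fun h => hp ((trp_four a b p).1 h)
      · exact hp
    have h3 : (if tgt e = n then trp a b q else q) ≠ 4 := by
      split_ifs
      · exact fun h => hq ((trp_four a b q).1 h)
      · exact hq
    have h4 : fS e (if src e = n then trp a b p else p) =
        fS e p + (if src e = n then gS a b e else 0) := by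
      split_ifs
      · exact fS_trp a b e p hp
      · rw [add_zero]
    have h5 : fT e (if tgt e = n then trp a b q else q) =
        fT e q + (if tgt e = n then gT a b e else 0) := by
      split_ifs
      · exact fT_trp a b e q hq
      · rw [add_zero]
    rw [h4, h5]
    have h7 : ∀ (x y u v w : ZMod 2), (x + u) + (y + v) = w + (u + v) ↔ x + y = w := by decide
    have h8 := h7 (fS e p) (fT e q) (if src e = n then gS a b e else 0)
      (if tgt e = n then gT a b e else 0) (c e)
    constructor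
    · rintro ⟨_, _, h⟩
      exact ⟨hp, hq, h8.1 h⟩
    · rintro ⟨_, _, h⟩
      exact ⟨h2, h3, h8.2 h⟩

/-- The edge of the cycle which leaves the node. -/
def eO {M : ℕ} (n : Nd M) : Eg M := Sum.inl n

/-- The edge of the cycle which enters the node. -/
def eI {M : ℕ} (n : Nd M) : Eg M := Sum.inl (n.1, n.2 - 1)

theorem src_inl {M : ℕ} (p : Nd M) : src (Sum.inl p) = p := rfl

theorem tgt_inl {M : ℕ} (p : Nd M) : tgt (Sum.inl p) = (p.1, p.2 + 1) := rfl

/-- Three ways to be an edge at a node. -/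
theorem kinds {M : ℕ} (n : Nd M) (e : Eg M) (he : src e = n ∨ tgt e = n) :
    e = eO n ∨ e = eI n ∨ ∃ p, e = Sum.inr p := by
  rcases e with p | p
  · rcases he with he | he
    · left
      rw [← he]
      rfl
    · right; left
      rw [← he]
      change Sum.inl p = Sum.inl (p.1, p.2 + 1 - 1)
      rw [add_sub_cancel_right]
  · right; right
    exact ⟨p, rfl⟩

/-- Only one edge outside the cycle at every node. -/
theorem inr_unique {M : ℕ} (n : Nd M) (p p' : Vt M × Fin 4)
    (hp : src (Sum.inr p) = n ∨ tgt (Sum.inr p) = n)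
    (hp' : src (Sum.inr p') = n ∨ tgt (Sum.inr p') = n) : p = p' := by
  have h0 : ∀ j j' : Fin 4, (Fin.castAdd 4 j : Fin 8) ≠ Fin.natAdd 4 j' := by decide
  have h1 : ∀ j j' : Fin 4, (Fin.castAdd 4 j : Fin 8) = Fin.castAdd 4 j' → j = j' := by decide
  have h2 : ∀ j j' : Fin 4, (Fin.natAdd 4 j : Fin 8) = Fin.natAdd 4 j' → j = j' := by decide
  obtain ⟨z, j⟩ := p
  obtain ⟨z', j'⟩ := p'
  rcases hp with hp | hp <;> rcases hp' with hp' | hp'
  · have h : src (Sum.inr (z, j)) = src (Sum.inr (z', j') : Eg M) := hp.trans hp'.symm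
    have h3 : z = z' := congrArg Prod.fst h
    have h4 := h1 j j' (congrArg Prod.snd h)
    rw [h3, h4]
  · have h : src (Sum.inr (z, j)) = tgt (Sum.inr (z', j') : Eg M) := hp.trans hp'.symm
    exact absurd (congrArg Prod.snd h) (h0 j j')
  · have h : src (Sum.inr (z', j')) = tgt (Sum.inr (z, j) : Eg M) := hp'.trans hp.symm
    exact absurd (congrArg Prod.snd h) (h0 j' j)
  · have h : tgt (Sum.inr (z, j)) = tgt (Sum.inr (z', j') : Eg M) := hp.trans hp'.symm
    have h4 := h2 j j' (congrArg Prod.snd h)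
    subst h4
    have h3 : T j z = T j z' := congrArg Prod.fst h
    rw [(T j).injective h3]

theorem dl_eO {M : ℕ} (n : Nd M) (a b : ZMod 2) : dl n a b (eO n) = b := by
  unfold dl
  have h1 : src (eO n) = n := rfl
  have h2 : tgt (eO n) ≠ n := fun h => src_ne_tgt (eO n) (h1.trans h.symm)
  rw [if_pos h1, if_neg h2, add_zero]
  rfl

theorem tgt_eI {M : ℕ} (n : Nd M) : tgt (eI n) = n := by
  change (n.1, n.2 - 1 + 1) = n
  rw [sub_add_cancel]

theorem dl_eI {M : ℕ} (n : Nd M) (a b : ZMod 2) : dl n a b (eI n) = a := by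
  unfold dl
  have h1 : tgt (eI n) = n := tgt_eI n
  have h2 : src (eI n) ≠ n := fun h => src_ne_tgt (eI n) (h.trans h1.symm)
  rw [if_pos h1, if_neg h2, zero_add]
  rfl

theorem dl_inr {M : ℕ} (n : Nd M) (a b : ZMod 2) (p : Vt M × Fin 4)
    (hp : src (Sum.inr p) = n ∨ tgt (Sum.inr p) = n) : dl n a b (Sum.inr p) = a + b := by
  unfold dl
  rcases hp with h1 | h1
  · have h2 : tgt (Sum.inr p) ≠ n := fun h => src_ne_tgt (Sum.inr p) (h1.trans h.symm)
    rw [if_pos h1, if_neg h2, add_zero]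
    rfl
  · have h2 : src (Sum.inr p) ≠ n := fun h => src_ne_tgt (Sum.inr p) (h.trans h1.symm)
    rw [if_pos h1, if_neg h2, zero_add]
    rfl

theorem dl_not {M : ℕ} (n : Nd M) (a b : ZMod 2) (e : Eg M) (h1 : src e ≠ n) (h2 : tgt e ≠ n) :
    dl n a b e = 0 := by
  unfold dl
  rw [if_neg h1, if_neg h2, add_zero]

theorem eO_ne_eI {M : ℕ} (n : Nd M) : eO n ≠ eI n := by
  intro h
  have h1 : src (eI n) ≠ tgt (eI n) := src_ne_tgt _
  rw [tgt_eI, ← h] at h1
  exact h1 rfl

/-- Translation of the block of the node `n` changes two of the three edges at `n`. -/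
theorem Eqv.node {M : ℕ} {B : Finset (Nd M)} (n : Nd M) (hn : n ∉ B) (e e' : Eg M)
    (hee : e ≠ e') (he : src e = n ∨ tgt e = n) (he' : src e' = n ∨ tgt e' = n) :
    Eqv B (Pi.single e 1) (Pi.single e' 1) := by
  classical
  -- it is enough to find the translation
  suffices h : ∃ a b : ZMod 2, dl n a b e = 1 ∧ dl n a b e' = 1 ∧
      ∀ e'', e'' ≠ e → e'' ≠ e' → dl n a b e'' = 0 by
    obtain ⟨a, b, h1, h2, h3⟩ := h
    have h4 : (Pi.single e' 1 : Eg M → ZMod 2) =
        fun e'' => (Pi.single e 1 : Eg M → ZMod 2) e'' + dl n a b e'' := by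
      funext e''
      by_cases h5 : e'' = e
      · subst h5
        rw [Pi.single_eq_same, h1, Pi.single_eq_of_ne hee]
        rfl
      · by_cases h6 : e'' = e'
        · subst h6
          rw [Pi.single_eq_same, h2, Pi.single_eq_of_ne h5, zero_add]
        · rw [Pi.single_eq_of_ne h5, Pi.single_eq_of_ne h6, h3 e'' h5 h6, add_zero]
    rw [h4]
    exact Eqv.shift n hn a b _
  -- the third edge
  have hthird : ∀ (a b : ZMod 2) (e'' : Eg M), e'' ≠ eO n → e'' ≠ eI n →
      (∀ p, e'' = Sum.inr p → ¬(src (Sum.inr p) = n ∨ tgt (Sum.inr p) = n)) →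
        dl n a b e'' = 0 := by
    intro a b e'' h1 h2 h3
    by_cases h4 : src e'' = n ∨ tgt e'' = n
    · rcases kinds n e'' h4 with h5 | h5 | ⟨p, h5⟩
      · exact absurd h5 h1
      · exact absurd h5 h2
      · subst h5
        exact absurd h4 (h3 p rfl)
    · exact dl_not n a b e'' (fun h => h4 (Or.inl h)) (fun h => h4 (Or.inr h))
  have hinr : ∀ (a b : ZMod 2) (p : Vt M × Fin 4),
      (src (Sum.inr p) = n ∨ tgt (Sum.inr p) = n) → ∀ e'' : Eg M, e'' ≠ Sum.inr p →
      e'' ≠ eO n → e'' ≠ eI n → dl n a b e'' = 0 := by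
    intro a b p hp e'' h1 h2 h3
    refine hthird a b e'' h2 h3 fun p' hp' hp'' => h1 ?_
    rw [hp', inr_unique n p' p hp'' hp]
  have h11 : (1 : ZMod 2) + 1 = 0 := rfl
  rcases kinds n e he with h1 | h1 | ⟨p, h1⟩ <;> rcases kinds n e' he' with h2 | h2 | ⟨p', h2⟩
  · exact absurd (h1.trans h2.symm) hee
  · subst h1 h2
    refine ⟨1, 1, dl_eO n 1 1, dl_eI n 1 1, fun e'' h3 h4 => ?_⟩
    by_cases h5 : src e'' = n ∨ tgt e'' = n
    · rcases kinds n e'' h5 with h6 | h6 | ⟨p, h6⟩
      · exact absurd h6 h3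
      · exact absurd h6 h4
      · subst h6
        rw [dl_inr n 1 1 p h5, h11]
    · exact dl_not n 1 1 e'' (fun h => h5 (Or.inl h)) (fun h => h5 (Or.inr h))
  · subst h1 h2
    refine ⟨0, 1, dl_eO n 0 1, (dl_inr n 0 1 p' he').trans (zero_add 1), fun e'' h3 h4 => ?_⟩
    by_cases h5 : e'' = eI n
    · rw [h5, dl_eI]
    · exact hinr 0 1 p' he' e'' h4 h3 h5
  · subst h1 h2
    refine ⟨1, 1, dl_eI n 1 1, dl_eO n 1 1, fun e'' h3 h4 => ?_⟩
    by_cases h5 : src e'' = n ∨ tgt e'' = n
    · rcases kinds n e'' h5 with h6 | h6 | ⟨p, h6⟩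
      · exact absurd h6 h4
      · exact absurd h6 h3
      · subst h6
        rw [dl_inr n 1 1 p h5, h11]
    · exact dl_not n 1 1 e'' (fun h => h5 (Or.inl h)) (fun h => h5 (Or.inr h))
  · exact absurd (h1.trans h2.symm) hee
  · subst h1 h2
    refine ⟨1, 0, dl_eI n 1 0, (dl_inr n 1 0 p' he').trans (add_zero 1), fun e'' h3 h4 => ?_⟩
    by_cases h5 : e'' = eO n
    · rw [h5, dl_eO]
    · exact hinr 1 0 p' he' e'' h4 h5 h3
  · subst h1 h2
    refine ⟨0, 1, (dl_inr n 0 1 p he).trans (zero_add 1), dl_eO n 0 1, fun e'' h3 h4 => ?_⟩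
    by_cases h5 : e'' = eI n
    · rw [h5, dl_eI]
    · exact hinr 0 1 p he e'' h3 h4 h5
  · subst h1 h2
    refine ⟨1, 0, (dl_inr n 1 0 p he).trans (add_zero 1), dl_eI n 1 0, fun e'' h3 h4 => ?_⟩
    by_cases h5 : e'' = eO n
    · rw [h5, dl_eO]
    · exact hinr 1 0 p he e'' h3 h5 h4
  · subst h1 h2
    exact absurd (congrArg Sum.inr (inr_unique n p p' he he')) hee

/-- The twist can be moved along a cycle. -/
theorem Eqv.cycle {M : ℕ} {B : Finset (Nd M)} (z : Vt M) (hz : ∀ k, ((z, k) : Nd M) ∉ B)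
    (k : Fin 8) : Eqv B (tw z) (Pi.single (Sum.inl (z, k)) 1) := by
  refine Fin.induction (n := 7)
    (motive := fun k => Eqv B (tw z) (Pi.single (Sum.inl (z, k)) 1)) (Eqv.refl B _) ?_ k
  intro i ih
  refine ih.trans (Eqv.node (z, i.succ) (hz _) _ _ ?_ ?_ (Or.inl rfl))
  · intro h
    have h2 : i.castSucc = i.succ := congrArg Prod.snd (Sum.inl.inj h)
    exact absurd h2 (ne_of_lt (Fin.castSucc_lt_succ))
  · right
    rw [tgt_inl, Fin.coeSucc_eq_succ]

/-- The twist can be moved along an edge of the Margulis graph. -/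
theorem Eqv.step {M : ℕ} {B : Finset (Nd M)} (z : Vt M) (j : Fin 4)
    (hz : ∀ k, ((z, k) : Nd M) ∉ B) (hz' : ∀ k, ((T j z, k) : Nd M) ∉ B) :
    Eqv B (tw z) (tw (T j z)) := by
  refine (Eqv.cycle z hz (Fin.castAdd 4 j)).trans ?_
  refine Eqv.trans ?_ (Eqv.cycle (T j z) hz' (Fin.natAdd 4 j)).symm
  refine Eqv.trans (c' := Pi.single (Sum.inr (z, j)) 1) ?_ ?_
  · refine Eqv.node (z, Fin.castAdd 4 j) (hz _) _ _ ?_ (Or.inl rfl) (Or.inl rfl)
    intro h
    cases h
  · refine Eqv.node (T j z, Fin.natAdd 4 j) (hz' _) _ _ ?_ (Or.inr rfl) (Or.inl rfl)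
    intro h
    cases h

end Pool.Agent.PSY
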