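import Pool.Agent.PSY.Par
import Pool.Agent.PSY.Moves
import Pool.Agent.PSY.Giant

set_option autoImplicit false

/-!
# The twist can be moved off any small set of blocks
-/

namespace Pool.Agent.PSY

open Pool.Agent.NXL

/-- The good places for a set `B` of nodes. -/
def Good {M : ℕ} [NeZero M] (B : Finset (Nd M)) (z : Vt M) : Prop :=
  Big (B.image Prod.fst) z

theorem not_mem_of_fst {M : ℕ} {B : Finset (Nd M)} {z : Vt M} (h : z ∉ B.image Prod.fst)
    (k : Fin 8) : ((z, k) : Nd M) ∉ B := by
  intro hk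
  exact h (Finset.mem_image.2 ⟨(z, k), hk, rfl⟩)

theorem Good.not_mem {M : ℕ} [NeZero M] {B : Finset (Nd M)} {z : Vt M} (h : Good B z)
    (k : Fin 8) : ((z, k) : Nd M) ∉ B :=
  not_mem_of_fst h.1 k

theorem Good.mono {M : ℕ} [NeZero M] {B B' : Finset (Nd M)} (hB : B ⊆ B') {z : Vt M}
    (h : Good B' z) : Good B z :=
  Big.mono (Finset.image_subset_image hB) h

/-- Two good places have equivalent twists. -/
theorem Good.eqv {M : ℕ} [NeZero M] {B : Finset (Nd M)} {z z' : Vt M} (h : Good B z)
    (h' : Good B z') : Eqv B (tw z) (tw z') := by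
  have h1 := Big.conn h h'
  clear h h'
  induction h1 with
  | refl => exact Eqv.refl B (tw z)
  | @tail y y' _ hs ih =>
    refine ih.trans ?_
    obtain ⟨hy, hy', j, hj | hj⟩ := hs
    · subst hj
      exact Eqv.step y j (not_mem_of_fst hy) (not_mem_of_fst hy')
    · subst hj
      exact (Eqv.step y' j (not_mem_of_fst hy') (not_mem_of_fst hy)).symm

/-- The twist can be moved. -/
theorem Good.move {M : ℕ} [NeZero M] (hM : Odd M) (m : ℕ) (hm : 1280 * m < 7 * M ^ 2)
    (B B' : Finset (Nd M)) (hB : B.card ≤ m) (hB' : B'.card ≤ m) (z : Vt M) (hz : Good B z) :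
    ∃ z', Good B' z' ∧ Eqv B (tw z) (tw z') := by
  classical
  have h1 : 640 * ((B ∪ B').image Prod.fst).card < 7 * M ^ 2 := by
    have h2 : ((B ∪ B').image Prod.fst).card ≤ (B ∪ B').card := Finset.card_image_le
    have h3 := Finset.card_union_le B B'
    omega
  obtain ⟨z', hz'⟩ := exists_big hM ((B ∪ B').image Prod.fst) h1
  have hg : Good (B ∪ B') z' := hz'
  exact ⟨z', Good.mono Finset.subset_union_right hg,
    Good.eqv hz (Good.mono Finset.subset_union_left hg)⟩

/-- Without removed nodes there is a good place. -/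
theorem exists_good {M : ℕ} [NeZero M] (hM : Odd M) : ∃ z : Vt M, Good (∅ : Finset (Nd M)) z := by
  have h0 : 0 < M ^ 2 := pow_pos (NeZero.pos M) 2
  have h1 : 640 * ((∅ : Finset (Nd M)).image Prod.fst).card < 7 * M ^ 2 := by
    rw [Finset.image_empty, Finset.card_empty]
    omega
  exact exists_big hM _ h1

end Pool.Agent.PSY
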