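import Pool.Agent.PSY.IndH
import Pool.Agent.PSY.Move
import Pool.Agent.PSY.Grp5
import Pool.Agent.PSY.CspM

set_option autoImplicit false

/-!
# The constraint satisfaction function on the cubic Margulis graph
-/

namespace Pool.Agent.PSY

open Pool.Agent.NXL

/-- The action of the even permutations inside the blocks on the inputs. -/
def act {M : ℕ} : (Nd M → A5) →* Equiv.Perm (In M) where
  toFun a := ⟨fun i => (i.1, (a (src i.1) : Equiv.Perm (Fin 5)) i.2.1,
      (a (tgt i.1) : Equiv.Perm (Fin 5)) i.2.2),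
    fun i => (i.1, (a (src i.1) : Equiv.Perm (Fin 5)).symm i.2.1,
      (a (tgt i.1) : Equiv.Perm (Fin 5)).symm i.2.2), fun i => by simp, fun i => by simp⟩
  map_one' := by ext i <;> simp
  map_mul' a a' := by ext i <;> simp

theorem act_apply {M : ℕ} (a : Nd M → A5) (e : Eg M) (p q : Fin 5) :
    act a (e, p, q) = (e, (a (src e) : Equiv.Perm (Fin 5)) p,
      (a (tgt e) : Equiv.Perm (Fin 5)) q) := rfl

theorem csp_zero {M : ℕ} : csp (cinst (0 : Eg M → ZMod 2)) = true := by
  classical
  unfold csp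
  exact decide_eq_true ⟨fun _ => 0, fun e => cons_zero e⟩

theorem csp_twist {M : ℕ} [NeZero M] (z : Vt M) : csp (cinst (tw z)) = false := by
  rw [← Bool.not_eq_true]
  intro h
  simp only [csp, decide_eq_true_eq] at h
  obtain ⟨y, hy⟩ := h
  exact not_sol z y hy

open Classical in
/-- The blocks an input depends on. -/
noncomputable def csp_sp {M : ℕ} (i : In M) : Finset (Nd M) := {src i.1, tgt i.1}

theorem card_csp_sp {M : ℕ} (i : In M) : (csp_sp i).card ≤ 2 := by
  classical
  unfold csp_sp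
  exact Finset.card_le_two

theorem csp_sp_act {M : ℕ} (a : Nd M → A5) (i : In M) : csp_sp (act a i) = csp_sp i := rfl

theorem cinst_local {M : ℕ} [NeZero M] (z : Vt M) (B : Finset (Nd M)) (i : In M)
    (hz : Good B z) (hi : csp_sp i ⊆ B) : cinst (tw z) i = cinst 0 i := by
  classical
  have h1 : src i.1 ∈ B := hi (by unfold csp_sp; simp)
  have h2 : i.1 ≠ Sum.inl (z, 0) := by
    intro h
    rw [h] at h1
    exact hz.not_mem 0 h1
  have h3 : tw z i.1 = (0 : Eg M → ZMod 2) i.1 := by
    unfold tw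
    rw [Pi.single_eq_of_ne h2]
    rfl
  unfold cinst cons
  rw [h3]

theorem cinst_move {M : ℕ} (B : Finset (Nd M)) (c c' : Eg M → ZMod 2) (h : Eqv B c c') :
    ∃ a : Nd M → A5, (∀ n ∈ B, a n = 1) ∧ ∀ i, cinst c' (act a i) = cinst c i := by
  obtain ⟨a, ha, h⟩ := h
  exact ⟨a, ha, fun i => h i.1 i.2.1 i.2.2⟩

/-- **The main inequality.** All blocks outside `D` consist of symmetries of the circuit up to the
gates of `U`. -/
theorem csp_main {M : ℕ} [NeZero M] (hM : Odd M) (C : Circuit (In M)) (hC : C.Computes csp)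
    (U : Finset C.Gate) (D : Finset (Nd M))
    (hD : ∀ i, i ∉ D → ∀ x : A5, ∃ π, C.AutU U (act (Pi.mulSingle i x)) π)
    (m : ℕ) (hm2 : 2 ≤ m) (hsize : C.size < 2 ^ (m + 1)) :
    7 * M ^ 2 ≤ 1280 * ((C.wiresInto U + 1) * m) + 640 * D.card := by
  classical
  by_contra hlt
  push Not at hlt
  have hs : IsSimpleGroup A5 := alternatingGroup.isSimpleGroup (by simp)
  obtain ⟨B, hB, hBs⟩ := main_outH Pool.Agent.SYM.a5_noncomm C U act D hD m hsize hm2
    (fun i => csp_sp i) card_csp_sp (fun a i => csp_sp_act a i) (Vt M)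
    (fun B z => Good B z) (cinst 0) (fun z => cinst (tw z))
    (fun z B B' hBB hg => Good.mono hBB hg)
    (fun z B i hg hi => cinst_local z B i hg hi)
    (fun B B' z hB hB' hg => by
      have h1 : 640 * ((B ∪ D ∪ (B' ∪ D)).image Prod.fst).card < 7 * M ^ 2 := by
        have h2 : ((B ∪ D ∪ (B' ∪ D)).image Prod.fst).card ≤ (B ∪ D ∪ (B' ∪ D)).card :=
          Finset.card_image_le
        have h3 : B ∪ D ∪ (B' ∪ D) = B ∪ B' ∪ D := by
          ext x
          simp only [Finset.mem_union]
          tauto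
        rw [h3] at h2
        have h4 := Finset.card_union_le (B ∪ B') D
        have h5 := Finset.card_union_le B B'
        rw [h3]
        omega
      obtain ⟨z', hz'⟩ := exists_big hM _ h1
      have hg' : Good (B ∪ D ∪ (B' ∪ D)) z' := hz'
      obtain ⟨a, ha, h⟩ := cinst_move (B ∪ D) (tw z) (tw z')
        (Good.eqv hg (Good.mono Finset.subset_union_left hg'))
      exact ⟨z', Good.mono Finset.subset_union_right hg', a, ha, h⟩)
  have h1 : 640 * ((B ∪ D).image Prod.fst).card < 7 * M ^ 2 := by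
    have h2 : ((B ∪ D).image Prod.fst).card ≤ (B ∪ D).card := Finset.card_image_le
    have h3 := Finset.card_union_le B D
    have h4 : C.wiresInto U * m ≤ (C.wiresInto U + 1) * m := Nat.mul_le_mul_right m (by omega)
    omega
  obtain ⟨z, hz⟩ := exists_big hM _ h1
  have h5 := hBs z hz
  rw [hC, hC, csp_zero, csp_twist] at h5
  exact Bool.false_ne_true h5

end Pool.Agent.PSY
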