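import Mathlib

set_option autoImplicit false

/-!
# Numbers: from supports to the number of symmetries
-/

namespace Pool.Agent.PSY

/-- `2 ^ n` against the index of the group of symmetries and the size of the circuit. -/
theorem num_H (M S F idx : ℕ) (hS : 1 ≤ S) (hidx : 1 ≤ idx)
    (h : ∀ m b : ℕ, 2 ≤ m → S < 2 ^ (m + 1) → idx < 5 ^ (b + 1) →
      7 * M ^ 2 < 8000 * ((F + 1) * m + b)) :
    2 ^ (300 * M ^ 2 / 350000) ≤ idx * (S + 1) ^ (2 * (F + 1)) := by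
  obtain ⟨m, hm⟩ : ∃ m, m = max 2 (Nat.log 2 S) := ⟨_, rfl⟩
  obtain ⟨b, hb⟩ : ∃ b, b = Nat.log 5 idx := ⟨_, rfl⟩
  have h2 : 2 ≤ m := by rw [hm]; exact le_max_left _ _
  have h3 : S < 2 ^ (m + 1) := by
    refine lt_of_lt_of_le (Nat.lt_pow_succ_log_self (b := 2) (by norm_num) S) ?_
    refine Nat.pow_le_pow_right (by norm_num) ?_
    rw [hm]
    exact Nat.succ_le_succ (le_max_right _ _)
  have h4 : idx < 5 ^ (b + 1) := by
    rw [hb]
    exact Nat.lt_pow_succ_log_self (b := 5) (by norm_num) idx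
  have h5 := h m b h2 h3 h4
  have h6 : 2 ^ m ≤ (S + 1) ^ 2 := by
    rcases le_total (Nat.log 2 S) 2 with h7 | h7
    · rw [hm, max_eq_left h7]
      nlinarith
    · rw [hm, max_eq_right h7]
      have h8 : 2 ^ Nat.log 2 S ≤ S := Nat.pow_log_le_self 2 (by omega)
      nlinarith
  have h7 : 2 ^ b ≤ idx := by
    rw [hb]
    exact (Nat.pow_le_pow_left (by norm_num) _).trans (Nat.pow_log_le_self 5 (by omega))
  have h8 : 300 * M ^ 2 / 350000 ≤ (F + 1) * m + b := by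
    obtain ⟨X, hX⟩ : ∃ X, X = (F + 1) * m + b := ⟨_, rfl⟩
    obtain ⟨n, hn⟩ : ∃ n, n = M ^ 2 := ⟨_, rfl⟩
    rw [← hX, ← hn] at h5
    rw [← hX, ← hn]
    omega
  calc 2 ^ (300 * M ^ 2 / 350000) ≤ 2 ^ ((F + 1) * m + b) :=
        Nat.pow_le_pow_right (by norm_num) h8
    _ = 2 ^ b * (2 ^ m) ^ (F + 1) := by
        rw [pow_add, mul_comm (F + 1) m, pow_mul]
        ring
    _ ≤ idx * ((S + 1) ^ 2) ^ (F + 1) := Nat.mul_le_mul h7 (Nat.pow_le_pow_left h6 _)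
    _ = idx * (S + 1) ^ (2 * (F + 1)) := by rw [← pow_mul]

end Pool.Agent.PSY
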