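import Pool.Agent.PSY.Half

set_option autoImplicit false

/-!
# Almost all places are good
-/

namespace Pool.Agent.PSY

open Pool.Agent.NXL

open Classical in
/-- **Almost all places are good** for a small set of nodes. -/
theorem many_good {M : ℕ} [NeZero M] (hM : Odd M) (B : Finset (Nd M))
    (hB : 640 * B.card < 7 * M ^ 2) :
    7 * M ^ 2 ≤ 7 * (Finset.univ.filter fun z : Vt M => Good B z).card + 160 * B.card := by
  have hcard : (B.image Prod.fst).card ≤ B.card := Finset.card_image_le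
  have h1 : 640 * (B.image Prod.fst).card < 7 * M ^ 2 :=
    lt_of_le_of_lt (Nat.mul_le_mul_left 640 hcard) hB
  obtain ⟨z, hz⟩ := exists_big hM _ h1
  have hC1 : ∀ y ∈ comp (B.image Prod.fst) z, ∀ y', Step (B.image Prod.fst) y y' →
      y' ∈ comp (B.image Prod.fst) z := by
    intro y hy y' hyy
    rw [mem_comp] at hy ⊢
    exact hy.tail hyy
  have hC2 : Disjoint (comp (B.image Prod.fst) z) (B.image Prod.fst) := by
    rw [Finset.disjoint_left]
    intro u hu
    exact (hz.of_mem hu).1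
  have h2 := closed_bound hM (B.image Prod.fst) _ hC1 hC2
  have h3 : (comp (B.image Prod.fst) z).card ≤
      (Finset.univ.filter fun z : Vt M => Good B z).card := by
    refine Finset.card_le_card ?_
    intro z' hz'
    rw [Finset.mem_filter]
    exact ⟨Finset.mem_univ _, hz.of_mem hz'⟩
  have h4 : M ^ 2 < 2 * (comp (B.image Prod.fst) z).card := hz.2
  obtain ⟨K, hK⟩ : ∃ K, K = (comp (B.image Prod.fst) z).card := ⟨_, rfl⟩
  obtain ⟨d, hd⟩ : ∃ d, d = (B.image Prod.fst).card := ⟨_, rfl⟩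
  obtain ⟨n, hn⟩ : ∃ n, n = M ^ 2 := ⟨_, rfl⟩
  rw [← hK] at h2 h3 h4
  rw [← hd] at h2 hcard
  rw [← hn] at h2 h4 ⊢
  have hKpos : 0 < K := by omega
  have h5 : K * (7 * (n - K)) ≤ K * (160 * d) := by
    calc K * (7 * (n - K)) = 7 * (K * (n - K)) := by ring
      _ ≤ 80 * (n * d) := h2
      _ ≤ 80 * ((2 * K) * d) := Nat.mul_le_mul_left _ (Nat.mul_le_mul_right _ h4.le)
      _ = K * (160 * d) := by ring
  have h6 := Nat.le_of_mul_le_mul_left h5 hKpos
  omega

end Pool.Agent.PSY
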