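import Pool.Agent.PSY.Csp
import Pool.Agent.PSY.SymC
import Pool.Agent.PSY.Many
import Pool.Agent.PSY.CspN

set_option autoImplicit false

/-!
# Average case: circuits with symmetric gates that are right with probability above 51 per cent
-/

namespace Pool.Agent.PSY

open Pool.Agent.NXL

theorem Right.val {M : ℕ} [NeZero M] {C : SymCircuit (In M)} {X : In M → Bool}
    (h : Right C X) : C.toCircuit.val X C.toCircuit.out = csp X := by
  obtain ⟨v, hv, ho⟩ := h
  rw [← ho]
  exact (C.toCircuit_val X v hv C.out).symm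

theorem card_A5_pow {M : ℕ} [NeZero M] : Nat.card (Nd M → A5) = 60 ^ (8 * M ^ 2) := by
  have h := nat_card_alternatingGroup (α := Fin 5)
  have h1 : Nat.card A5 = 60 := by
    rw [h]
    simp [Nat.factorial]
  have h2 : Nat.card (Nd M) = 8 * M ^ 2 := by
    rw [Nat.card_eq_fintype_card, Fintype.card_prod, Fintype.card_fin]
    simp [Vt, ZMod.card]
    ring
  rw [Nat.card_fun, h1, h2]

/-- The number of input bits. -/
theorem card_In {M : ℕ} [NeZero M] : Nat.card (In M) = 300 * M ^ 2 := by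
  rw [Nat.card_eq_fintype_card]
  simp only [In, Eg, Vt, Fintype.card_prod, Fintype.card_sum, ZMod.card, Fintype.card_fin]
  ring

/-- The main inequality in the average case. -/
theorem csp_main51 {M : ℕ} [NeZero M] (hM : Odd M) (C : SymCircuit (In M))
    (h51 : (51 : ℝ) / 100 < success C) (U : Finset C.Gate) (D : Finset (Nd M))
    (hD : ∀ i, i ∉ D → ∀ x : A5, ∃ π, C.toCircuit.AutU U (act (Pi.mulSingle i x)) π)
    (m b : ℕ) (hm2 : 2 ≤ m) (hsize : C.toCircuit.size < 2 ^ (m + 1)) (hDb : D.card ≤ b) :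
    7 * M ^ 2 < 8000 * ((C.toCircuit.wiresInto U + 1) * m + b) := by
  classical
  by_contra hlt
  push Not at hlt
  have hM0 : 0 < M ^ 2 := pow_pos (NeZero.pos M) 2
  have hs : IsSimpleGroup A5 := alternatingGroup.isSimpleGroup (by simp)
  obtain ⟨F, hF⟩ : ∃ F, F = C.toCircuit.wiresInto U := ⟨_, rfl⟩
  have hFm : F * m ≤ (F + 1) * m := Nat.mul_le_mul_right m (by omega)
  rw [← hF] at hlt
  obtain ⟨B, hB, hBs⟩ := main_outH Pool.Agent.SYM.a5_noncomm C.toCircuit U act D hD m hsize hm2
    (fun i => csp_sp i) card_csp_sp (fun a i => csp_sp_act a i) (Vt M)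
    (fun B z => Good B z) (cinst 0) (fun z => cinst (tw z))
    (fun z B B' hBB hg => Good.mono hBB hg)
    (fun z B i hg hi => cinst_local z B i hg hi)
    (fun B B' z hB hB' hg => by
      rw [← hF] at hB hB'
      have h1 : 640 * ((B ∪ D ∪ (B' ∪ D)).image Prod.fst).card < 7 * M ^ 2 := by
        have h2 : ((B ∪ D ∪ (B' ∪ D)).image Prod.fst).card ≤ (B ∪ D ∪ (B' ∪ D)).card :=
          Finset.card_image_le
        have h3 := Finset.card_union_le (B ∪ D) (B' ∪ D)
        have h4 := Finset.card_union_le B D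
        have h5 := Finset.card_union_le B' D
        omega
      obtain ⟨z', hz'⟩ := exists_big hM _ h1
      have hg' : Good (B ∪ D ∪ (B' ∪ D)) z' := hz'
      obtain ⟨a, ha, h⟩ := cinst_move (B ∪ D) (tw z) (tw z')
        (Good.eqv hg (Good.mono Finset.subset_union_left hg'))
      exact ⟨z', Good.mono Finset.subset_union_right hg', a, ha, h⟩)
  rw [← hF] at hB
  have hBD := Finset.card_union_le B D
  have hmany := many_good hM (B ∪ D) (by omega)
  obtain ⟨G, hG⟩ : ∃ G, G = (Finset.univ.filter fun z : Vt M => Good (B ∪ D) z).card := ⟨_, rfl⟩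
  rw [← hG] at hmany
  obtain ⟨R, hR⟩ : ∃ R, R = (Finset.univ.filter fun z : Vt M => Right C (cinst (tw z))).card :=
    ⟨_, rfl⟩
  have hM0' : (0 : ℝ) < (M : ℝ) ^ 2 := by exact_mod_cast hM0
  unfold success at h51
  rw [← hR] at h51
  by_cases h0 : Right C (cinst (0 : Eg M → ZMod 2))
  · rw [if_pos h0] at h51
    have hdisj : Disjoint (Finset.univ.filter fun z : Vt M => Good (B ∪ D) z)
        (Finset.univ.filter fun z : Vt M => Right C (cinst (tw z))) := by
      rw [Finset.disjoint_filter]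
      intro z _ hz hr
      have h1 := hBs z hz
      rw [Right.val h0, Right.val hr, csp_zero, csp_twist] at h1
      exact Bool.false_ne_true h1
    have hsum : G + R ≤ M ^ 2 := by
      rw [hG, hR, ← Finset.card_union_of_disjoint hdisj, ← card_Vt_nat M]
      exact Finset.card_le_univ _
    have h50 : 50 * R ≤ M ^ 2 := by omega
    have h50' : (50 : ℝ) * R ≤ (M : ℝ) ^ 2 := by exact_mod_cast h50
    have h1 : (R : ℝ) / (2 * (M : ℝ) ^ 2) ≤ 1 / 100 := by
      rw [div_le_iff₀ (by positivity)]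
      linarith
    linarith
  · rw [if_neg h0] at h51
    have hsum : R ≤ M ^ 2 := by
      rw [hR, ← card_Vt_nat M]
      exact Finset.card_le_univ _
    have hsum' : (R : ℝ) ≤ (M : ℝ) ^ 2 := by exact_mod_cast hsum
    have h1 : (R : ℝ) / (2 * (M : ℝ) ^ 2) ≤ 1 / 2 := by
      rw [div_le_iff₀ (by positivity)]
      linarith
    linarith

/-- **Every circuit that is right with probability above 51 per cent is nearly asymmetric.** -/
theorem csp_frac51 {M : ℕ} [NeZero M] (hM : Odd M) (C : SymCircuit (In M))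
    (h51 : (51 : ℝ) / 100 < success C) (U : Finset C.Gate) :
    Nat.card {a : Nd M → A5 // C.IsSymmetry U (act a)} * 2 ^ (300 * M ^ 2 / 350000) ≤
      60 ^ (8 * M ^ 2) * (C.size + 1) ^ (2 * (C.wires U + 1)) := by
  classical
  obtain ⟨K, hK⟩ : ∃ K, K = KgU C.toCircuit U act C.toCircuit.out := ⟨_, rfl⟩
  have hH : Nat.card {a : Nd M → A5 // C.IsSymmetry U (act a)} ≤ Nat.card K := by
    refine Nat.card_le_card_of_injective
      (fun x : {a : Nd M → A5 // C.IsSymmetry U (act a)} => (⟨x.1, by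
        obtain ⟨π, hπ⟩ := C.toCircuit_autU U _ x.2
        rw [hK]
        exact mem_KgU.2 ⟨π, hπ, hπ.2.1⟩⟩ : K)) ?_
    intro x y hxy
    exact Subtype.ext (congrArg (fun z : K => z.1) hxy)
  have hidx : 5 ^ (BsU C.toCircuit U act C.toCircuit.out).card ≤ K.index := by
    rw [hK]
    exact support5_le _ _ (fun i hi => mem_BsU.1 hi)
  have hcard : Nat.card K * K.index = 60 ^ (8 * M ^ 2) := by
    rw [Subgroup.card_mul_index, card_A5_pow]
  have hS : 1 ≤ C.toCircuit.size := by
    have : Nonempty C.toCircuit.Gate := ⟨C.toCircuit.out⟩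
    exact Fintype.card_pos
  have hidx1 : 1 ≤ K.index := Nat.one_le_iff_ne_zero.2 Subgroup.index_ne_zero_of_finite
  have hnum := num_H M C.toCircuit.size (C.toCircuit.wiresInto U) K.index hS hidx1
    (fun m b hm2 hsize hb => by
      refine csp_main51 hM C h51 U (BsU C.toCircuit U act C.toCircuit.out) (fun i hi x => ?_)
        m b hm2 hsize ?_
      · by_contra hcon
        refine hi (mem_BsU.2 ⟨x, fun h => hcon ?_⟩)
        obtain ⟨π, hπ, -⟩ := mem_KgU.1 h
        exact ⟨π, hπ⟩
      · have h2 := (Nat.pow_lt_pow_iff_right (by norm_num : 1 < 5)).1 (lt_of_le_of_lt hidx hb)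
        omega)
  have hw : C.toCircuit.wiresInto U ≤ C.wires U := C.toCircuit_wires U
  have hsz : C.toCircuit.size = C.size := rfl
  rw [hsz] at hnum
  calc Nat.card {a : Nd M → A5 // C.IsSymmetry U (act a)} * 2 ^ (300 * M ^ 2 / 350000)
      ≤ Nat.card K * (K.index * (C.size + 1) ^ (2 * (C.toCircuit.wiresInto U + 1))) :=
        Nat.mul_le_mul hH hnum
    _ = 60 ^ (8 * M ^ 2) * (C.size + 1) ^ (2 * (C.toCircuit.wiresInto U + 1)) := by
        rw [← mul_assoc, hcard]
    _ ≤ 60 ^ (8 * M ^ 2) * (C.size + 1) ^ (2 * (C.wires U + 1)) := by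
        refine Nat.mul_le_mul_left _ (Nat.pow_le_pow_right (Nat.succ_pos _) ?_)
        omega

end Pool.Agent.PSY
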