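import Pool.Agent.PSY.Csp

set_option autoImplicit false

/-!
# The constraint satisfaction function is invariant; the number of inputs
-/

namespace Pool.Agent.PSY

open Pool.Agent.NXL

/-- The function is invariant under the group. -/
theorem csp_act {M : ℕ} (a : Nd M → A5) (X : In M → Bool) :
    csp (fun i => X (act a i)) = csp X := by
  classical
  unfold csp
  refine decide_eq_decide.mpr ⟨?_, ?_⟩
  · rintro ⟨y, hy⟩
    exact ⟨fun n => (a n : Equiv.Perm (Fin 5)) (y n), fun e => hy e⟩
  · rintro ⟨y, hy⟩
    refine ⟨fun n => (a n : Equiv.Perm (Fin 5)).symm (y n), fun e => ?_⟩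
    have h : act a (e, (a (src e) : Equiv.Perm (Fin 5)).symm (y (src e)),
        (a (tgt e) : Equiv.Perm (Fin 5)).symm (y (tgt e))) = (e, y (src e), y (tgt e)) := by
      rw [act_apply, Equiv.apply_symm_apply, Equiv.apply_symm_apply]
    exact (congrArg X h).trans (hy e)

/-- The group acts faithfully. -/
theorem act_injective {M : ℕ} : Function.Injective (act (M := M)) := by
  intro a a' h
  funext n
  ext p : 2
  obtain ⟨z, k⟩ := n
  have h1 : act a (Sum.inl (z, k), p, 0) = act a' (Sum.inl (z, k), p, 0) := by rw [h]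
  rw [act_apply, act_apply] at h1
  have h2 := congrArg (fun i => i.2.1) h1
  exact h2

theorem move_eq {M : ℕ} (a : Nd M → A5) (i : In M) : move a i = act a i := rfl

theorem csp_move {M : ℕ} (a : Nd M → A5) (X : In M → Bool) :
    csp (fun i => X (move a i)) = csp X :=
  csp_act a X

/-- The statement without the homomorphism `act`. -/
theorem card_move {M : ℕ} (C : SymCircuit (In M)) (U : Finset C.Gate) :
    Nat.card {a : Nd M → A5 // ∃ s : Equiv.Perm (In M), (∀ i, s i = move a i) ∧
      C.IsSymmetry U s} = Nat.card {a : Nd M → A5 // C.IsSymmetry U (act a)} := by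
  refine Nat.card_congr (Equiv.subtypeEquivRight fun a => ⟨?_, ?_⟩)
  · rintro ⟨s, hs, h⟩
    have h1 : s = act a := Equiv.ext fun i => (hs i).trans (move_eq a i)
    rwa [h1] at h
  · intro h
    exact ⟨act a, fun i => (move_eq a i).symm, h⟩

end Pool.Agent.PSY
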