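import Pool.Agent.PSY.Csp

set_option autoImplicit false

/-!
# Left empty

The numbers for `csp` are in `Pool.Agent.PSY.CspN` and `Pool.Agent.PSY.CspA`.
-/
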