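import Pool.Agent.NXL.Marg

set_option autoImplicit false

/-!
# The cubic Margulis graph and the twisted instances: definitions
-/

namespace Pool.Agent.PSY

open Pool.Agent.NXL

/-- The nodes: every vertex of the Margulis graph is replaced by a cycle of eight nodes. -/
abbrev Nd (M : ℕ) : Type := Vt M × Fin 8

/-- The edges: `inl (z, k)` joins `(z, k)` and `(z, k + 1)`; `inr (z, j)` joins `(z, j)` and
`(T j z, j + 4)`. -/
abbrev Eg (M : ℕ) : Type := (Vt M × Fin 8) ⊕ (Vt M × Fin 4)

/-- The first end of an edge. -/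
def src {M : ℕ} : Eg M → Nd M
  | Sum.inl p => p
  | Sum.inr p => (p.1, Fin.castAdd 4 p.2)

/-- The second end of an edge. -/
def tgt {M : ℕ} : Eg M → Nd M
  | Sum.inl p => (p.1, p.2 + 1)
  | Sum.inr p => (T p.2 p.1, Fin.natAdd 4 p.2)

/-- The first coordinate of the points 0, 1, 2, 3 of a block. -/
def fu : Fin 5 → ZMod 2 := ![0, 1, 0, 1, 0]

/-- The second coordinate. -/
def fv : Fin 5 → ZMod 2 := ![0, 0, 1, 1, 0]

/-- The form at the first end of an edge. -/
def fS {M : ℕ} : Eg M → Fin 5 → ZMod 2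
  | Sum.inl _ => fv
  | Sum.inr _ => fu + fv

/-- The form at the second end of an edge. -/
def fT {M : ℕ} : Eg M → Fin 5 → ZMod 2
  | Sum.inl _ => fu
  | Sum.inr _ => fu + fv

/-- The constraint of the edge `e` with right hand side `c e`. -/
def cons {M : ℕ} (c : Eg M → ZMod 2) (e : Eg M) (p q : Fin 5) : Bool :=
  decide (p ≠ 4 ∧ q ≠ 4 ∧ fS e p + fT e q = c e)

/-- Even permutations of a block. -/
abbrev A5 : Type := alternatingGroup (Fin 5)

/-- The twist in the first edge of the cycle of `z`. -/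
def tw {M : ℕ} (z : Vt M) : Eg M → ZMod 2 := Pi.single (Sum.inl (z, 0)) 1

/-- Even permutations inside the blocks of the nodes outside `B` transform `c` into `c'`. -/
def Eqv {M : ℕ} (B : Finset (Nd M)) (c c' : Eg M → ZMod 2) : Prop :=
  ∃ a : Nd M → A5, (∀ n ∈ B, a n = 1) ∧
    ∀ e p q, cons c' e ((a (src e) : Equiv.Perm (Fin 5)) p)
      ((a (tgt e) : Equiv.Perm (Fin 5)) q) = cons c e p q

/-- The untwisted instance has the solution 0. -/
theorem cons_zero {M : ℕ} (e : Eg M) : cons (0 : Eg M → ZMod 2) e 0 0 = true := by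
  cases e <;> rfl

end Pool.Agent.PSY
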