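import Pool.Agent.PSY.BlkA

set_option autoImplicit false

/-!
# The group moves the instances
-/

namespace Pool.Agent.PSY

open Pool.Agent.NXL

/-- Every active point of a block is allowed together with some point at the other end. -/
theorem exists_cons {M : ℕ} (c : Eg M → ZMod 2) (e : Eg M) (p : Fin 5) (hp : p ≠ 4) :
    ∃ q, cons c e p q = true := by
  have key : ∀ r : ZMod 2, ∃ q : Fin 5, q ≠ 4 ∧ fT e q = r := by
    intro r
    cases e with
    | inl x => revert r; change ∀ r, ∃ q : Fin 5, q ≠ 4 ∧ fu q = r; decide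
    | inr x => revert r; change ∀ r, ∃ q : Fin 5, q ≠ 4 ∧ (fu + fv) q = r; decide
  obtain ⟨q, hq, hq'⟩ := key (c e - fS e p)
  refine ⟨q, ?_⟩
  unfold cons
  rw [decide_eq_true_eq]
  exact ⟨hp, hq, by rw [hq']; ring⟩

/-- A permutation which transforms the constraints fixes the dummy points. -/
theorem move_ne_four {M : ℕ} {c c' : Eg M → ZMod 2} {a : Nd M → A5}
    (h : ∀ e p q, cons c' e ((a (src e) : Equiv.Perm (Fin 5)) p)
      ((a (tgt e) : Equiv.Perm (Fin 5)) q) = cons c e p q) (n : Nd M) (p : Fin 5) (hp : p ≠ 4) :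
    (a n : Equiv.Perm (Fin 5)) p ≠ 4 := by
  obtain ⟨q, hq⟩ := exists_cons c (Sum.inl n) p hp
  have h1 := (h (Sum.inl n) p q).trans hq
  unfold cons at h1
  rw [decide_eq_true_eq] at h1
  exact h1.1

theorem adj_move {M : ℕ} {V : Type} (b : Nd M × Fin 5 ↪ V) (Q : Finset V)
    (hQ : ∀ x ∈ Q, x ∉ Set.range b) {c c' : Eg M → ZMod 2} {a : Nd M → A5}
    (h : ∀ e p q, cons c' e ((a (src e) : Equiv.Perm (Fin 5)) p)
      ((a (tgt e) : Equiv.Perm (Fin 5)) q) = cons c e p q) {x y : V} (hxy : Adj b Q c x y) :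
    Adj b Q c' (blk b a x) (blk b a y) := by
  have hq : ∀ x ∈ Q, blk b a x = x := fun x hx => blk_apply_of_not b a x (hQ x hx)
  rcases hxy with h1 | ⟨h1, n, p, h2, rfl⟩ | ⟨h1, n, p, h2, rfl⟩ |
    ⟨n, p, n', p', h1, h2, h3, rfl, rfl, h6, h7⟩
  · refine Or.inl ⟨?_, ?_⟩
    · rw [hq x h1.1]; exact h1.1
    · rw [hq y h1.2]; exact h1.2
  · refine Or.inr (Or.inl ⟨?_, n, (a n : Equiv.Perm (Fin 5)) p, move_ne_four h n p h2,
      blk_apply b a n p⟩)
    rw [hq x h1]; exact h1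
  · refine Or.inr (Or.inr (Or.inl ⟨?_, n, (a n : Equiv.Perm (Fin 5)) p, move_ne_four h n p h2,
      blk_apply b a n p⟩))
    rw [hq y h1]; exact h1
  · refine Or.inr (Or.inr (Or.inr ⟨n, (a n : Equiv.Perm (Fin 5)) p, n',
      (a n' : Equiv.Perm (Fin 5)) p', h1, move_ne_four h n p h2, move_ne_four h n' p' h3,
      blk_apply b a n p, blk_apply b a n' p', ?_, ?_⟩))
    · rintro e rfl rfl
      rw [h]; exact h6 e rfl rfl
    · rintro e rfl rfl
      rw [h]; exact h7 e rfl rfl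

theorem adj_move_iff {M : ℕ} {V : Type} (b : Nd M × Fin 5 ↪ V) (Q : Finset V)
    (hQ : ∀ x ∈ Q, x ∉ Set.range b) {c c' : Eg M → ZMod 2} {a : Nd M → A5}
    (h : ∀ e p q, cons c' e ((a (src e) : Equiv.Perm (Fin 5)) p)
      ((a (tgt e) : Equiv.Perm (Fin 5)) q) = cons c e p q) (x y : V) :
    Adj b Q c' (blk b a x) (blk b a y) ↔ Adj b Q c x y := by
  refine ⟨fun h1 => ?_, adj_move b Q hQ h⟩
  have h' : ∀ e p q, cons c e ((a⁻¹ (src e) : Equiv.Perm (Fin 5)) p)
      ((a⁻¹ (tgt e) : Equiv.Perm (Fin 5)) q) = cons c' e p q := by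
    intro e p q
    rw [← h]
    simp
  have h2 := adj_move b Q hQ h' h1
  have h3 : ∀ x, blk b a⁻¹ (blk b a x) = x := by
    intro x
    rw [map_inv]
    simp
  rw [h3, h3] at h2
  exact h2

theorem inst_eq_iff {M : ℕ} {V : Type} (b : Nd M × Fin 5 ↪ V) (Q : Finset V)
    (c c' : Eg M → ZMod 2) (x y x' y' : V) :
    inst b Q c s(x, y) = inst b Q c' s(x', y') ↔ (Adj b Q c x y ↔ Adj b Q c' x' y') := by
  rw [← inst_mk, ← inst_mk]
  cases inst b Q c s(x, y) <;> cases inst b Q c' s(x', y') <;> simp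

/-- **The group moves the instances.** -/
theorem inst_move {M : ℕ} {V : Type} (b : Nd M × Fin 5 ↪ V) (Q : Finset V)
    (hQ : ∀ x ∈ Q, x ∉ Set.range b) (B : Finset (Nd M)) (c c' : Eg M → ZMod 2)
    (h : Eqv B c c') :
    ∃ a : Nd M → A5, (∀ n ∈ B, a n = 1) ∧
      ∀ e, inst b Q c' (pairs (blk b a) e) = inst b Q c e := by
  obtain ⟨a, ha, h⟩ := h
  refine ⟨a, ha, fun e => ?_⟩
  induction e using Sym2.ind with
  | _ x y =>
    rw [pairs_mk, inst_eq_iff]
    exact adj_move_iff b Q hQ h x y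

/-- The group `A_5` is not commutative. -/
theorem A5_noncomm : ∃ a b : A5, a * b ≠ b * a := by
  refine ⟨⟨finRotate 5, by rw [Equiv.Perm.mem_alternatingGroup]; decide⟩,
    ⟨Equiv.swap 0 1 * Equiv.swap 1 2, by rw [Equiv.Perm.mem_alternatingGroup]; decide⟩, ?_⟩
  intro h
  have h1 := congrArg (fun x : A5 => (x : Equiv.Perm (Fin 5)) 2) h
  revert h1
  decide

/-- The group `A_5` is simple. -/
theorem A5_simple : IsSimpleGroup A5 := alternatingGroup.isSimpleGroup (by simp)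

end Pool.Agent.PSY
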