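import Pool.Agent.PSY.ClqD

set_option autoImplicit false

/-!
# The support of a pair of vertices
-/

namespace Pool.Agent.PSY

open Pool.Agent.NXL

private theorem blk_ap {V ι : Type} (b : ι × Fin 5 ↪ V) (a : ι → A5) (n : ι) (p : Fin 5) :
    blk b a (b (n, p)) = b (n, (a n : Equiv.Perm (Fin 5)) p) := by
  simp only [blk, MonoidHom.coe_comp, Function.comp_apply, Equiv.Perm.viaEmbeddingHom_apply]
  rw [Equiv.Perm.viaEmbedding_apply]
  rfl

private theorem blk_ap_not {V ι : Type} (b : ι × Fin 5 ↪ V) (a : ι → A5) (x : V)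
    (hx : x ∉ Set.range b) : blk b a x = x := by
  simp only [blk, MonoidHom.coe_comp, Function.comp_apply, Equiv.Perm.viaEmbeddingHom_apply]
  rw [Equiv.Perm.viaEmbedding_apply_of_notMem _ _ _ hx]

theorem mem_sp {ι V : Type} [Fintype ι] (b : ι × Fin 5 ↪ V) (e : Sym2 V) (n : ι) :
    n ∈ sp b e ↔ ∃ p, b (n, p) ∈ e := by
  simp [sp]

theorem card_sp {ι V : Type} [Fintype ι] (b : ι × Fin 5 ↪ V) (e : Sym2 V) :
    (sp b e).card ≤ 2 := by
  classical
  induction e using Sym2.ind with
  | _ x y =>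
    have h1 : ∀ z : V, (Finset.univ.filter fun n : ι => ∃ p, b (n, p) = z).card ≤ 1 := by
      intro z
      rw [Finset.card_le_one]
      intro n hn n' hn'
      obtain ⟨p, hp⟩ := (Finset.mem_filter.mp hn).2
      obtain ⟨p', hp'⟩ := (Finset.mem_filter.mp hn').2
      exact congrArg Prod.fst (b.injective (hp.trans hp'.symm))
    have h2 : sp b s(x, y) ⊆ (Finset.univ.filter fun n : ι => ∃ p, b (n, p) = x) ∪
        (Finset.univ.filter fun n : ι => ∃ p, b (n, p) = y) := by
      intro n hn
      rw [mem_sp] at hn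
      obtain ⟨p, hp⟩ := hn
      rw [Sym2.mem_iff] at hp
      rcases hp with hp | hp
      · exact Finset.mem_union_left _ (by simpa using ⟨p, hp⟩)
      · exact Finset.mem_union_right _ (by simpa using ⟨p, hp⟩)
    have h3 := (Finset.card_le_card h2).trans (Finset.card_union_le _ _)
    have h4 := h1 x
    have h5 := h1 y
    omega

private theorem mem_pairs {V : Type} (σ : Equiv.Perm V) (e : Sym2 V) (x : V) :
    x ∈ pairs σ e ↔ σ.symm x ∈ e := by
  induction e using Sym2.ind with
  | _ y z =>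
    rw [pairs_mk, Sym2.mem_iff, Sym2.mem_iff, Equiv.symm_apply_eq, Equiv.symm_apply_eq]

private theorem blk_symm_ap {V ι : Type} (b : ι × Fin 5 ↪ V) (a : ι → A5) (n : ι) (p : Fin 5) :
    (blk b a).symm (b (n, p)) = b (n, ((a n)⁻¹ : A5).1 p) := by
  rw [Equiv.symm_apply_eq, blk_ap]
  simp

theorem sp_act {ι V : Type} [Fintype ι] (b : ι × Fin 5 ↪ V) (a : ι → A5) (e : Sym2 V) :
    sp b (pairs (blk b a) e) = sp b e := by
  classical
  ext n
  rw [mem_sp, mem_sp]
  constructor
  · rintro ⟨p, hp⟩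
    rw [mem_pairs, blk_symm_ap] at hp
    exact ⟨_, hp⟩
  · rintro ⟨p, hp⟩
    refine ⟨(a n : Equiv.Perm (Fin 5)) p, ?_⟩
    rw [mem_pairs, blk_symm_ap]
    simpa using hp

theorem sp_fix {ι V : Type} [Fintype ι] (b : ι × Fin 5 ↪ V) (a : ι → A5) (e : Sym2 V)
    (h : ∀ n ∈ sp b e, a n = 1) : pairs (blk b a) e = e := by
  classical
  have key : ∀ x ∈ e, blk b a x = x := by
    intro x hx
    by_cases hr : x ∈ Set.range b
    · obtain ⟨⟨n, p⟩, rfl⟩ := hr
      rw [blk_ap, h n ((mem_sp b e n).mpr ⟨p, hx⟩)]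
      simp
    · exact blk_ap_not b a x hr
  induction e using Sym2.ind with
  | _ x y =>
    rw [pairs_mk, key x (Sym2.mem_mk_left x y), key y (Sym2.mem_mk_right x y)]

/-- Away from its place the twisted instance agrees with the untwisted one. -/
theorem inst_sp0 {M : ℕ} [NeZero M] {V : Type} (b : Nd M × Fin 5 ↪ V) (Q : Finset V)
    (B : Finset (Nd M)) (z : Vt M) (hz : ((z, 0) : Nd M) ∉ B)
    (e : Sym2 V) (he : sp b e ⊆ B) : inst b Q (tw z) e = inst b Q 0 e := by
  classical
  induction e using Sym2.ind with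
  | _ x y =>
    have htw : ∀ (n n' : Nd M) (p p' : Fin 5), x = b (n, p) → y = b (n', p') →
        ∀ e' : Eg M, (src e' = n ∨ src e' = n') → tw z e' = 0 := by
      intro n n' p p' hx hy e' hsrc
      have hn : n ∈ B := he ((mem_sp b _ n).mpr ⟨p, by rw [hx]; exact Sym2.mem_mk_left _ _⟩)
      have hn' : n' ∈ B := he ((mem_sp b _ n').mpr ⟨p', by rw [hy]; exact Sym2.mem_mk_right _ _⟩)
      have hne : e' ≠ Sum.inl (z, 0) := by
        intro h
        rw [h] at hsrc
        rcases hsrc with h | h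
        · exact hz (by rw [show ((z, 0) : Nd M) = n from h]; exact hn)
        · exact hz (by rw [show ((z, 0) : Nd M) = n' from h]; exact hn')
      exact Pi.single_eq_of_ne hne 1
    have hcons : ∀ (n n' : Nd M) (p p' : Fin 5), x = b (n, p) → y = b (n', p') →
        ∀ e' : Eg M, (src e' = n ∨ src e' = n') → ∀ q q', cons (tw z) e' q q' = cons 0 e' q q' := by
      intro n n' p p' hx hy e' hsrc q q'
      unfold cons
      rw [htw n n' p p' hx hy e' hsrc]
      rfl
    have hiff : Adj b Q (tw z) x y ↔ Adj b Q 0 x y := by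
      unfold Adj
      constructor
      · rintro (h | h | h | ⟨n, p, n', p', h1, h2, h3, h4, h5, h6, h7⟩)
        · exact Or.inl h
        · exact Or.inr (Or.inl h)
        · exact Or.inr (Or.inr (Or.inl h))
        · refine Or.inr (Or.inr (Or.inr ⟨n, p, n', p', h1, h2, h3, h4, h5, ?_, ?_⟩))
          · intro e' hs ht
            rw [← hcons n n' p p' h4 h5 e' (Or.inl hs)]
            exact h6 e' hs ht
          · intro e' hs ht
            rw [← hcons n n' p p' h4 h5 e' (Or.inr hs)]
            exact h7 e' hs ht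
      · rintro (h | h | h | ⟨n, p, n', p', h1, h2, h3, h4, h5, h6, h7⟩)
        · exact Or.inl h
        · exact Or.inr (Or.inl h)
        · exact Or.inr (Or.inr (Or.inl h))
        · refine Or.inr (Or.inr (Or.inr ⟨n, p, n', p', h1, h2, h3, h4, h5, ?_, ?_⟩))
          · intro e' hs ht
            rw [hcons n n' p p' h4 h5 e' (Or.inl hs)]
            exact h6 e' hs ht
          · intro e' hs ht
            rw [hcons n n' p p' h4 h5 e' (Or.inr hs)]
            exact h7 e' hs ht
    rw [Bool.eq_iff_iff, inst_mk, inst_mk]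
    exact hiff

end Pool.Agent.PSY
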