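import Pool.Agent.PSY.Ind
import Pool.Agent.PSY.Move
import Pool.Agent.PSY.InstM
import Pool.Agent.PSY.Sp
import Pool.Agent.PSY.Cliq
import Pool.Agent.PSY.Emb
import Pool.Agent.PSY.Num2

set_option autoImplicit false

/-!
# Partly symmetric circuits do not distinguish two graphs
-/

namespace Pool.Agent.PSY

open Pool.Agent.NXL

/-- The even permutations inside each of the `t` five-element blocks are induced by
automorphisms of the circuit. -/
def BlockInvariant {V : Type} {t : ℕ} (b : Fin t × Fin 5 ↪ V) (C : Circuit (Sym2 V)) : Prop :=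
  ∀ (a : Fin t → alternatingGroup (Fin 5)) (σ : Equiv.Perm V),
    (∀ i p, σ (b (i, p)) = b (i, (a i : Equiv.Perm (Fin 5)) p)) →
    (∀ x, x ∉ Set.range b → σ x = x) → ∃ π, C.Aut (pairs σ) π

/-- **Indistinguishability.** -/
theorem indist {V : Type} [Fintype V] [DecidableEq V] (t k : ℕ) (b : Fin t × Fin 5 ↪ V)
    (ht : 4000 ≤ t) (hk : t ≤ k) (hkV : k + 5 * t ≤ Fintype.card V) :
    ∃ G₀ G₁ : Sym2 V → Bool, clique k G₀ = true ∧ clique k G₁ = false ∧
      ∀ C : Circuit (Sym2 V), BlockInvariant b C → C.size < 2 ^ (t / 4000) →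
        C.val G₁ C.out = C.val G₀ C.out := by
  obtain ⟨M, hM, h8, h5, h441⟩ := choose_M2 t (by omega)
  have : NeZero M := ⟨by rintro rfl; norm_num at h441⟩
  obtain ⟨b', Q, hQ, hQc, hext⟩ := exists_emb t k b h8 hk hkV
  obtain ⟨z, hz⟩ := exists_good hM
  refine ⟨inst b' Q 0, inst b' Q (tw z), ?_, ?_, ?_⟩
  · rw [← hQc]
    exact clique_zero b' Q hQ
  · rw [← hQc]
    exact clique_twist b' Q hQ z
  · intro C hC hsize
    have : IsSimpleGroup A5 := A5_simple
    obtain ⟨e, he⟩ : ∃ e, e = t / 4000 := ⟨_, rfl⟩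
    have he1 : 1 ≤ e := by omega
    have hte : 4000 * (0 + 1) * e ≤ t := by omega
    have hnum := num_final t 0 e M he1 hte h5
    rw [← he] at hsize
    have hnum2 : 1280 * max (e - 1) 2 < 7 * M ^ 2 := by omega
    have hsz : C.size < 2 ^ (max (e - 1) 2 + 1) :=
      hsize.trans_le (Nat.pow_le_pow_right (by norm_num) (by omega))
    refine main_out A5_noncomm C (pairs.comp (blk b')) ?_ (max (e - 1) 2) hsz
      (le_max_right _ _) (sp b') (card_sp b') (fun a i => sp_act b' a i) (Vt M)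
      (fun B z => Good B z) (inst b' Q 0) (fun z => inst b' Q (tw z)) ?_ ?_ z hz
    · intro a
      obtain ⟨a', h1, h2⟩ := hext a
      exact hC a' (blk b' a) h1 h2
    · intro z B i hz' hi
      exact inst_sp0 b' Q B z (hz'.not_mem 0) i hi
    · intro B B' z hB hB' hz'
      obtain ⟨z', hg, heq⟩ := Good.move hM _ hnum2 B B' hB hB' z hz'
      obtain ⟨a, ha1, ha2⟩ := inst_move b' Q hQ B (tw z) (tw z') heq
      exact ⟨z', hg, a, ha1, ha2⟩

end Pool.Agent.PSY
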