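import Pool.Agent.PSY.Frac
import Pool.Agent.PSY.FracN
import Pool.Agent.PSY.SymC

set_option autoImplicit false

/-!
# Every circuit with symmetric gates for CLIQUE is nearly asymmetric
-/

namespace Pool.Agent.PSY

theorem even_iff {V : Type} {t : ℕ} (b : Fin t × Fin 5 ↪ V) (σ : Equiv.Perm V) :
    EvenInBlocks b σ ↔ ∃ a : Fin t → A5, σ = blk b a := by
  constructor
  · rintro ⟨h1, h2⟩
    choose a ha h3 using h1
    exact ⟨fun i => ⟨a i, ha i⟩, eq_blk b _ σ h3 h2⟩
  · rintro ⟨a, rfl⟩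
    exact ⟨fun i => ⟨(a i : Equiv.Perm (Fin 5)), (a i).2, fun p => blk_apply b a i p⟩,
      fun x hx => blk_apply_of_not b a x hx⟩

theorem blk_injective {V : Type} {t : ℕ} (b : Fin t × Fin 5 ↪ V) :
    Function.Injective (fun a : Fin t → A5 => blk b a) := by
  intro a a' h
  funext i
  ext p : 2
  have h1 : blk b a (b (i, p)) = blk b a' (b (i, p)) := by
    have h' : blk b a = blk b a' := h
    rw [h']
  rw [blk_apply, blk_apply] at h1
  have h2 := b.injective h1
  simpa using h2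

/-- There are `60 ^ t` such permutations. -/
theorem card_even {V : Type} {t : ℕ} (b : Fin t × Fin 5 ↪ V) :
    Nat.card {σ : Equiv.Perm V // EvenInBlocks b σ} = 60 ^ t := by
  rw [← card_pow t]
  refine (Nat.card_congr (Equiv.ofBijective
    (fun a : Fin t → A5 => (⟨blk b a, (even_iff b _).2 ⟨a, rfl⟩⟩ :
      {σ : Equiv.Perm V // EvenInBlocks b σ})) ⟨?_, ?_⟩)).symm
  · intro a a' h
    exact blk_injective b (congrArg Subtype.val h)
  · rintro ⟨σ, hσ⟩
    obtain ⟨a, rfl⟩ := (even_iff b σ).1 hσ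
    exact ⟨a, rfl⟩

theorem fracS (N t k : ℕ) (b : Fin t × Fin 5 ↪ Fin N) (ht : t ≤ k) (hk : k + 5 * t ≤ N)
    (C : SymCircuit (Sym2 (Fin N))) (hC : C.Computes (clique k)) (U : Finset C.Gate) :
    Nat.card {σ : Equiv.Perm (Fin N) // EvenInBlocks b σ ∧ C.IsSymmetry U (pairs σ)} ≤
      12 ^ t * (C.size + 1) ^ (24000 * (C.wires U + 1)) := by
  have h1 := frac N t k b ht hk C.toCircuit (C.toCircuit_computes _ hC) U
  have h2 : 12 ^ t * (C.toCircuit.size + 1) ^ (24000 * (C.toCircuit.wiresInto U + 1)) ≤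
      12 ^ t * (C.size + 1) ^ (24000 * (C.wires U + 1)) := by
    have h3 : C.toCircuit.size = C.size := rfl
    rw [h3]
    refine Nat.mul_le_mul_left _ (Nat.pow_le_pow_right (Nat.succ_pos _) ?_)
    exact Nat.mul_le_mul_left _ (Nat.succ_le_succ (C.toCircuit_wires U))
  refine le_trans ?_ (h1.trans h2)
  have h4 : ∀ x : {σ : Equiv.Perm (Fin N) // EvenInBlocks b σ ∧ C.IsSymmetry U (pairs σ)},
      ∃ a : {a : Fin t → alternatingGroup (Fin 5) // IsSym b C.toCircuit U a},
        x.1 = blk b a.1 := by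
    rintro ⟨σ, h5, h6⟩
    obtain ⟨a, rfl⟩ := (even_iff b σ).1 h5
    exact ⟨⟨a, isSym_iff.2 (mem_SymOf.2 (C.toCircuit_autU U _ h6))⟩, rfl⟩
  choose f hf using h4
  refine Nat.card_le_card_of_injective f fun x y hxy => Subtype.ext ?_
  rw [hf x, hf y, hxy]

theorem fracNS (N t k : ℕ) (ht : t ≤ k) (hk : k + 5 * t ≤ N)
    (C : SymCircuit (Sym2 (Fin N))) (hC : C.Computes (clique k)) (U : Finset C.Gate) :
    Nat.card {σ : Equiv.Perm (Fin N) // C.IsSymmetry U (pairs σ)} * 5 ^ t ≤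
      N.factorial * (C.size + 1) ^ (24000 * (C.wires U + 1)) := by
  obtain ⟨b⟩ : Nonempty (Fin t × Fin 5 ↪ Fin N) := by
    refine Function.Embedding.nonempty_of_card_le ?_
    rw [Fintype.card_prod, Fintype.card_fin, Fintype.card_fin, Fintype.card_fin]
    omega
  have h1 := frac N t k b ht hk C.toCircuit (C.toCircuit_computes _ hC) U
  have h2 : (C.toCircuit.size + 1) ^ (24000 * (C.toCircuit.wiresInto U + 1)) ≤
      (C.size + 1) ^ (24000 * (C.wires U + 1)) := by
    have h3 : C.toCircuit.size = C.size := rfl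
    rw [h3]
    refine Nat.pow_le_pow_right (Nat.succ_pos _) ?_
    exact Nat.mul_le_mul_left _ (Nat.succ_le_succ (C.toCircuit_wires U))
  have h3 : Nat.card {a : Fin t → A5 // ∃ π, C.toCircuit.AutU U (pairs (blk b a)) π} ≤
      12 ^ t * (C.size + 1) ^ (24000 * (C.wires U + 1)) := by
    refine le_trans (le_of_eq ?_) (h1.trans (Nat.mul_le_mul_left _ h2))
    exact Nat.card_congr (Equiv.subtypeEquivRight fun a => (isSym_iff.trans mem_SymOf).symm)
  have h4 := card_sym_le N t _ b C.toCircuit U h3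
  refine le_trans (Nat.mul_le_mul_right _ ?_) h4
  refine Nat.card_le_card_of_injective
    (fun x : {σ : Equiv.Perm (Fin N) // C.IsSymmetry U (pairs σ)} =>
      (⟨x.1, C.toCircuit_autU U _ x.2⟩ :
        {σ : Equiv.Perm (Fin N) // ∃ π, C.toCircuit.AutU U (pairs σ) π})) ?_
  intro x y hxy
  exact Subtype.ext (congrArg (fun z => z.1) hxy)

end Pool.Agent.PSY
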