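import Pool.Agent.SYM.Support

set_option autoImplicit false

/-!
# Subgroups of small index of a power of a simple group
-/

namespace Pool.Agent.PSY

/-- **Supports.** A subgroup of small index of a power `T^ι` of a nonabelian simple group
contains nearly all factors. -/
theorem support_le {T : Type} [Group T] [Finite T] [IsSimpleGroup T]
    (hT : ∃ a b : T, a * b ≠ b * a) {ι : Type} [Finite ι] [DecidableEq ι]
    (K : Subgroup (ι → T)) (B : Finset ι) (hB : ∀ i ∈ B, ∃ x : T, Pi.mulSingle i x ∉ K) :
    2 ^ B.card ≤ K.index := by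
  have : Fintype ι := Fintype.ofFinite ι
  obtain ⟨B', h1, h2⟩ := Pool.Agent.SYM.support_fintype hT K
  refine (Nat.pow_le_pow_right (by norm_num) (Finset.card_le_card ?_)).trans h1
  intro i hi
  by_contra h
  obtain ⟨x, hx⟩ := hB i hi
  exact hx (h2 i h x)

end Pool.Agent.PSY
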