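import Pool.Agent.PSY.Move

set_option autoImplicit false

/-!
# More than half of all places are good
-/

namespace Pool.Agent.PSY

open Pool.Agent.NXL

/-- All vertices of the giant component are good. -/
theorem Big.of_mem {M : ℕ} [NeZero M] {D : Finset (Vt M)} {z z' : Vt M} (h : Big D z)
    (h' : z' ∈ comp D z) : Big D z' := by
  rw [mem_comp] at h'
  have h1 : z' ∉ D := by
    rcases Relation.ReflTransGen.cases_tail h' with h2 | ⟨w, _, hw⟩
    · rw [h2]; exact h.1
    · exact hw.2.1
  refine ⟨h1, lt_of_lt_of_le h.2 (Nat.mul_le_mul_left 2 (Finset.card_le_card ?_))⟩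
  intro w hw
  rw [mem_comp] at hw ⊢
  exact (rtg_symm D z z' h').trans hw

open Classical in
/-- **More than half of all places are good** for a small set of nodes. -/
theorem half_good {M : ℕ} [NeZero M] (hM : Odd M) (B : Finset (Nd M))
    (hB : 640 * B.card < 7 * M ^ 2) :
    M ^ 2 < 2 * (Finset.univ.filter fun z : Vt M => Good B z).card := by
  have h1 : 640 * (B.image Prod.fst).card < 7 * M ^ 2 :=
    lt_of_le_of_lt (Nat.mul_le_mul_left 640 Finset.card_image_le) hB
  obtain ⟨z, hz⟩ := exists_big hM _ h1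
  refine lt_of_lt_of_le hz.2 (Nat.mul_le_mul_left 2 (Finset.card_le_card ?_))
  intro z' hz'
  rw [Finset.mem_filter]
  exact ⟨Finset.mem_univ _, hz.of_mem hz'⟩

end Pool.Agent.PSY
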