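import Pool.Agent.PSY.Circ
import Pool.Agent.PSY.Grp

set_option autoImplicit false

/-!
# The induction over the gates
-/

namespace Pool.Agent.PSY

variable {T : Type} [Group T] {ι : Type} [DecidableEq ι] {I : Type}

/-- The elements of the group which are induced by an automorphism fixing the gate `g`. -/
def Kg (C : Circuit I) (ρ : (ι → T) →* Equiv.Perm I) (g : C.Gate) : Subgroup (ι → T) where
  carrier := {a | ∃ π, C.Aut (ρ a) π ∧ π g = g}
  one_mem' := ⟨1, by rw [map_one]; exact aut_one C, rfl⟩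
  mul_mem' := by
    rintro a a' ⟨π, h, hg⟩ ⟨π', h', hg'⟩
    exact ⟨π * π', by rw [map_mul]; exact aut_mul C _ _ _ _ h h', by
      rw [Equiv.Perm.mul_apply, hg', hg]⟩
  inv_mem' := by
    rintro a ⟨π, h, hg⟩
    exact ⟨π⁻¹, by rw [map_inv]; exact aut_inv C _ _ h, by
      rw [Equiv.Perm.inv_eq_iff_eq]; exact hg.symm⟩

omit [DecidableEq ι] in
theorem mem_Kg {C : Circuit I} {ρ : (ι → T) →* Equiv.Perm I} {g : C.Gate} {a : ι → T} :
    a ∈ Kg C ρ g ↔ ∃ π, C.Aut (ρ a) π ∧ π g = g := Iff.rfl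

open Classical in
/-- The support of a gate. -/
noncomputable def Bs [Fintype ι] (C : Circuit I) (ρ : (ι → T) →* Equiv.Perm I) (g : C.Gate) :
    Finset ι :=
  Finset.univ.filter fun i => ∃ x : T, Pi.mulSingle i x ∉ Kg C ρ g

theorem mem_Bs [Fintype ι] {C : Circuit I} {ρ : (ι → T) →* Equiv.Perm I} {g : C.Gate} {i : ι} :
    i ∈ Bs C ρ g ↔ ∃ x : T, Pi.mulSingle i x ∉ Kg C ρ g := by
  simp [Bs]

theorem index_Kg_le (C : Circuit I) (ρ : (ι → T) →* Equiv.Perm I)
    (hinv : ∀ a, ∃ π, C.Aut (ρ a) π) (g : C.Gate) : (Kg C ρ g).index ≤ C.size := by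
  classical
  choose lift hlift using hinv
  have hinj : Function.Injective (fun q : (ι → T) ⧸ Kg C ρ g => lift q.out g) := by
    intro q r hqr
    have hqr' : lift q.out g = lift r.out g := hqr
    rw [← Quotient.out_eq q, ← Quotient.out_eq r]
    change (QuotientGroup.mk q.out : (ι → T) ⧸ Kg C ρ g) = QuotientGroup.mk r.out
    rw [QuotientGroup.eq, mem_Kg]
    refine ⟨(lift q.out)⁻¹ * lift r.out, ?_, ?_⟩
    · rw [map_mul, map_inv]
      exact aut_mul C _ _ _ _ (aut_inv C _ _ (hlift _)) (hlift _)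
    · rw [Equiv.Perm.mul_apply, ← hqr', perm_inv_left]
  rw [Subgroup.index, Circuit.size, ← Nat.card_eq_fintype_card]
  exact Nat.card_le_card_of_injective _ hinj

theorem card_Bs_le [Fintype ι] [Finite T] [IsSimpleGroup T] (hT : ∃ a b : T, a * b ≠ b * a)
    (C : Circuit I) (ρ : (ι → T) →* Equiv.Perm I)
    (hinv : ∀ a, ∃ π, C.Aut (ρ a) π) (g : C.Gate) : 2 ^ (Bs C ρ g).card ≤ C.size :=
  (support_le hT (Kg C ρ g) (Bs C ρ g) (fun _ hi => mem_Bs.1 hi)).trans (index_Kg_le C ρ hinv g)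

theorem mem_Kg_of_off [Fintype ι] (C : Circuit I) (ρ : (ι → T) →* Equiv.Perm I) (g : C.Gate)
    (a : ι → T) (ha : ∀ i ∈ Bs C ρ g, a i = 1) : a ∈ Kg C ρ g := by
  refine Subgroup.pi_mem_of_mulSingle_mem a (fun i => ?_)
  by_cases hi : i ∈ Bs C ρ g
  · rw [ha i hi, Pi.mulSingle_one]
    exact one_mem _
  · by_contra hcon
    exact hi (mem_Bs.2 ⟨_, hcon⟩)

/-- conjugation of an element of one factor -/
theorem conj_mulSingle (a : ι → T) (i : ι) (x : T) :
    (Pi.mulSingle i x : ι → T) = a * Pi.mulSingle i ((a i)⁻¹ * x * a i) * a⁻¹ := by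
  funext j
  by_cases h : j = i
  · subst h
    simp [mul_assoc]
  · simp [Pi.mulSingle_eq_of_ne h]

theorem Bs_aut_subset [Fintype ι] (C : Circuit I) (ρ : (ι → T) →* Equiv.Perm I) (g : C.Gate)
    (a : ι → T) (π : Equiv.Perm C.Gate) (hπ : C.Aut (ρ a) π) : Bs C ρ (π g) ⊆ Bs C ρ g := by
  intro i hi
  by_contra hcon
  rw [mem_Bs] at hi hcon
  push Not at hcon
  obtain ⟨x, hx⟩ := hi
  apply hx
  obtain ⟨τ, hτ, h1⟩ := mem_Kg.1 (hcon ((a i)⁻¹ * x * a i))
  refine mem_Kg.2 ⟨π * τ * π⁻¹, ?_, ?_⟩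
  · rw [conj_mulSingle a i x, map_mul, map_mul, map_inv]
    exact aut_mul C _ _ _ _ (aut_mul C _ _ _ _ hπ hτ) (aut_inv C _ _ hπ)
  · rw [Equiv.Perm.mul_apply, perm_inv_left, Equiv.Perm.mul_apply, h1]

theorem Bs_aut [Fintype ι] (C : Circuit I) (ρ : (ι → T) →* Equiv.Perm I) (g : C.Gate)
    (a : ι → T) (π : Equiv.Perm C.Gate) (hπ : C.Aut (ρ a) π) : Bs C ρ (π g) = Bs C ρ g := by
  refine Finset.Subset.antisymm (Bs_aut_subset C ρ g a π hπ) ?_
  have h2 : C.Aut (ρ a⁻¹) π⁻¹ := by rw [map_inv]; exact aut_inv C _ _ hπ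
  have := Bs_aut_subset C ρ (π g) a⁻¹ π⁻¹ h2
  rwa [perm_inv_left] at this

theorem Bs_out [Fintype ι] (C : Circuit I) (ρ : (ι → T) →* Equiv.Perm I)
    (hinv : ∀ a, ∃ π, C.Aut (ρ a) π) : Bs C ρ C.out = ∅ := by
  rw [Finset.eq_empty_iff_forall_notMem]
  intro i hi
  obtain ⟨x, hx⟩ := mem_Bs.1 hi
  apply hx
  obtain ⟨π, hπ⟩ := hinv (Pi.mulSingle i x)
  exact mem_Kg.2 ⟨π, hπ, hπ.2.2.2⟩

/-- A sum over the members of a class which is mapped to itself by a permutation. -/
theorem sum_class {α : Type} [Fintype α] (σ : Equiv.Perm α) (S : α → Finset ι)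
    (hS : ∀ x, S (σ x) = S x) (B : Finset ι) (F : α → ℝ) :
    ∑ x ∈ Finset.univ.filter (fun x => S x = B), F (σ x) =
      ∑ x ∈ Finset.univ.filter (fun x => S x = B), F x := by
  refine Finset.sum_bij (fun x _ => σ x) ?_ ?_ ?_ ?_
  · intro h hh
    rw [Finset.mem_filter] at hh ⊢
    exact ⟨Finset.mem_univ _, by rw [hS]; exact hh.2⟩
  · intro a _ b _ hab
    exact σ.injective hab
  · intro h hh
    refine ⟨σ⁻¹ h, ?_, perm_inv_right _ _⟩
    rw [Finset.mem_filter] at hh ⊢
    refine ⟨Finset.mem_univ _, ?_⟩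
    have := hS (σ⁻¹ h)
    rw [perm_inv_right] at this
    rw [← this]
    exact hh.2
  · intro a _
    rfl

/-- The value of a gate is the same on the instance `X0` and on the instances `X z`, where the
place `z` is good for the support of the gate. -/
theorem main_gate [Fintype ι] [Fintype I] (C : Circuit I) (ρ : (ι → T) →* Equiv.Perm I)
    (m : ℕ) (hm : ∀ g, (Bs C ρ g).card ≤ m)
    (sp : I → Finset ι) (hsp : ∀ a i, sp (ρ a i) = sp i) (hspm : ∀ i, (sp i).card ≤ m)
    (P : Type) (Good : Finset ι → P → Prop) (X0 : I → Bool) (X : P → I → Bool)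
    (H1 : ∀ (z : P) (B : Finset ι) (i : I), Good B z → sp i ⊆ B → X z i = X0 i)
    (H2 : ∀ (B B' : Finset ι) (z : P), B.card ≤ m → B'.card ≤ m → Good B z →
      ∃ z', Good B' z' ∧ ∃ a : ι → T, (∀ j ∈ B, a j = 1) ∧ ∀ i, X z' (ρ a i) = X z i)
    (g : C.Gate) : ∀ z, Good (Bs C ρ g) z → C.val (X z) g = C.val X0 g := by
  induction hn : C.rank g using Nat.strong_induction_on generalizing g with
  | _ n ih =>
    subst hn
    intro z hz
    rw [val_eq, val_eq C X0 g]
    -- moving the place away from a small set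
    have hmv : ∀ B : Finset ι, B.card ≤ m → ∃ z', Good B z' ∧ ∃ a : ι → T,
        (∀ i, X z' (ρ a i) = X z i) ∧ ∃ π, C.Aut (ρ a) π ∧ π g = g := by
      intro B hB
      obtain ⟨z', h1, a, h2, h3⟩ := H2 (Bs C ρ g) B z (hm g) hB hz
      exact ⟨z', h1, a, h3, mem_Kg.1 (mem_Kg_of_off C ρ g a h2)⟩
    congr 2
    · rw [← Finset.sum_fiberwise (Finset.univ : Finset C.Gate) (fun h => Bs C ρ h),
        ← Finset.sum_fiberwise (Finset.univ : Finset C.Gate) (fun h => Bs C ρ h)
          (fun h => if C.val X0 h = true then C.w g h else 0)]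
      refine Finset.sum_congr rfl (fun B _ => ?_)
      rcases Finset.eq_empty_or_nonempty (Finset.univ.filter (fun h => Bs C ρ h = B)) with
        hempty | ⟨h₀, hh₀⟩
      · rw [hempty]; simp
      · have hBs : B.card ≤ m := by
          rw [Finset.mem_filter] at hh₀
          rw [← hh₀.2]
          exact hm h₀
        obtain ⟨e, he, a, h2, π, hπ, hπg⟩ := hmv B hBs
        have h3 : ∀ h, (if C.val (X z) h = true then C.w g h else 0) =
            (fun h' => if C.val (X e) h' = true then C.w g h' else 0) (π h) := by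
          intro h
          have h4 : C.w g (π h) = C.w g h := by
            have := hπ.1 g h
            rwa [hπg] at this
          simp only [h4, val_aut C _ _ hπ (X z) (X e) h2 h]
        rw [Finset.sum_congr rfl (fun h _ => h3 h),
          sum_class π (fun h => Bs C ρ h) (fun h => Bs_aut C ρ h a π hπ) B
            (fun h' => if C.val (X e) h' = true then C.w g h' else 0)]
        refine Finset.sum_congr rfl (fun h hh => ?_)
        rw [Finset.mem_filter] at hh
        by_cases h0 : C.w g h = 0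
        · simp [h0]
        · have := ih (C.rank h) (C.rank_lt g h h0) h rfl e (by rw [hh.2]; exact he)
          simp only [this]
    · rw [← Finset.sum_fiberwise (Finset.univ : Finset I) (fun i => sp i),
        ← Finset.sum_fiberwise (Finset.univ : Finset I) (fun i => sp i)
          (fun i => if X0 i = true then C.wi g i else 0)]
      refine Finset.sum_congr rfl (fun B _ => ?_)
      rcases Finset.eq_empty_or_nonempty (Finset.univ.filter (fun i => sp i = B)) with
        hempty | ⟨i₀, hi₀⟩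
      · rw [hempty]; simp
      · have hBs : B.card ≤ m := by
          rw [Finset.mem_filter] at hi₀
          rw [← hi₀.2]
          exact hspm i₀
        obtain ⟨e, he, a, h2, π, hπ, hπg⟩ := hmv B hBs
        have h3 : ∀ i, (if X z i = true then C.wi g i else 0) =
            (fun i' => if X e i' = true then C.wi g i' else 0) (ρ a i) := by
          intro i
          have h4 : C.wi g (ρ a i) = C.wi g i := by
            have := hπ.2.1 g i
            rwa [hπg] at this
          simp only [h4, h2 i]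
        rw [Finset.sum_congr rfl (fun i _ => h3 i),
          sum_class (ρ a) (fun i => sp i) (fun i => hsp a i) B
            (fun i' => if X e i' = true then C.wi g i' else 0)]
        refine Finset.sum_congr rfl (fun i hi => ?_)
        rw [Finset.mem_filter] at hi
        have h5 : X e i = X0 i := H1 e B i he (by rw [hi.2])
        simp only [h5]

/-- **The induction.** An invariant circuit with fewer than `2^(m+1)` gates does not distinguish
`X0` from the instances `X z`. -/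
theorem main_out [Fintype ι] [Fintype I] [Finite T] [IsSimpleGroup T]
    (hT : ∃ a b : T, a * b ≠ b * a)
    (C : Circuit I) (ρ : (ι → T) →* Equiv.Perm I)
    (hinv : ∀ a, ∃ π, C.Aut (ρ a) π) (m : ℕ) (hm : C.size < 2 ^ (m + 1)) (hm2 : 2 ≤ m)
    (sp : I → Finset ι) (hsp2 : ∀ i, (sp i).card ≤ 2) (hsp : ∀ a i, sp (ρ a i) = sp i)
    (P : Type) (Good : Finset ι → P → Prop) (X0 : I → Bool) (X : P → I → Bool)
    (H1 : ∀ (z : P) (B : Finset ι) (i : I), Good B z → sp i ⊆ B → X z i = X0 i)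
    (H2 : ∀ (B B' : Finset ι) (z : P), B.card ≤ m → B'.card ≤ m → Good B z →
      ∃ z', Good B' z' ∧ ∃ a : ι → T, (∀ j ∈ B, a j = 1) ∧ ∀ i, X z' (ρ a i) = X z i)
    (z : P) (hz : Good ∅ z) : C.val (X z) C.out = C.val X0 C.out := by
  refine main_gate C ρ m (fun g => ?_) sp hsp (fun i => (hsp2 i).trans hm2) P Good X0 X H1 H2
    C.out z ?_
  · have h1 := (card_Bs_le hT C ρ hinv g).trans_lt hm
    exact Nat.lt_succ_iff.mp ((Nat.pow_lt_pow_iff_right (by norm_num)).mp h1)
  · rw [Bs_out C ρ hinv]; exact hz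

/-- The induction for a circuit that computes `f`. -/
theorem main_ind [Fintype ι] [Fintype I] [Finite T] [IsSimpleGroup T]
    (hT : ∃ a b : T, a * b ≠ b * a)
    (C : Circuit I) (ρ : (ι → T) →* Equiv.Perm I)
    (hinv : ∀ a, ∃ π, C.Aut (ρ a) π) (m : ℕ) (hm : C.size < 2 ^ (m + 1)) (hm2 : 2 ≤ m)
    (sp : I → Finset ι) (hsp2 : ∀ i, (sp i).card ≤ 2) (hsp : ∀ a i, sp (ρ a i) = sp i)
    (P : Type) (Good : Finset ι → P → Prop) (X0 : I → Bool) (X : P → I → Bool)
    (H1 : ∀ (z : P) (B : Finset ι) (i : I), Good B z → sp i ⊆ B → X z i = X0 i)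
    (H2 : ∀ (B B' : Finset ι) (z : P), B.card ≤ m → B'.card ≤ m → Good B z →
      ∃ z', Good B' z' ∧ ∃ a : ι → T, (∀ j ∈ B, a j = 1) ∧ ∀ i, X z' (ρ a i) = X z i)
    (f : (I → Bool) → Bool) (hf : C.Computes f) (z : P) (hz : Good ∅ z) : f (X z) = f X0 := by
  rw [← hf (X z), ← hf X0]
  exact main_out hT C ρ hinv m hm hm2 sp hsp2 hsp P Good X0 X H1 H2 z hz

end Pool.Agent.PSY
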