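import Pool.Agent.PSY.IndU

set_option autoImplicit false

/-!
# The induction over the gates for the blocks outside a set `D`
-/

namespace Pool.Agent.PSY

variable {T : Type} [Group T] {ι : Type} [DecidableEq ι] {I : Type}

/-- Extension by `1` on `D`. -/
def extD (T : Type) [Group T] (D : Finset ι) : ({i : ι // i ∉ D} → T) →* (ι → T) where
  toFun a i := if h : i ∉ D then a ⟨i, h⟩ else 1
  map_one' := by
    funext i
    by_cases h : i ∈ D
    · rw [dif_neg (not_not.2 h)]
      rfl
    · rw [dif_pos h]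
      rfl
  map_mul' a a' := by
    funext i
    rw [Pi.mul_apply]
    by_cases h : i ∈ D
    · rw [dif_neg (not_not.2 h), dif_neg (not_not.2 h), dif_neg (not_not.2 h), one_mul]
    · rw [dif_pos h, dif_pos h, dif_pos h, Pi.mul_apply]

theorem extD_restrict (D : Finset ι) (a : ι → T) (ha : ∀ i ∈ D, a i = 1) :
    extD T D (fun j => a j.1) = a := by
  funext i
  by_cases h : i ∈ D
  · simp [extD, h, ha i h]
  · simp [extD, h]

/-- **The induction for the blocks outside `D`.** Let all factors `i ∉ D` consist of symmetries of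
the circuit up to `U`, and let there be fewer than `2 ^ (m + 1)` gates. There is a set `B` of at
most `m F` indices, `F` the number of wires into `U`, such that the circuit does not distinguish
`X0` from the instances `X z` with `z` good for `B ∪ D`. -/
theorem main_outH [Fintype ι] [Fintype I] [Finite T] [IsSimpleGroup T]
    (hT : ∃ a b : T, a * b ≠ b * a)
    (C : Circuit I) (U : Finset C.Gate) (ρ : (ι → T) →* Equiv.Perm I) (D : Finset ι)
    (hD : ∀ i, i ∉ D → ∀ x : T, ∃ π, C.AutU U (ρ (Pi.mulSingle i x)) π)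
    (m : ℕ) (hm : C.size < 2 ^ (m + 1)) (hm2 : 2 ≤ m)
    (sp : I → Finset ι) (hsp2 : ∀ i, (sp i).card ≤ 2) (hsp : ∀ a i, sp (ρ a i) = sp i)
    (P : Type) (Good : Finset ι → P → Prop) (X0 : I → Bool) (X : P → I → Bool)
    (hanti : ∀ (z : P) (B B' : Finset ι), B ⊆ B' → Good B' z → Good B z)
    (H1 : ∀ (z : P) (B : Finset ι) (i : I), Good B z → sp i ⊆ B → X z i = X0 i)
    (H2 : ∀ (B B' : Finset ι) (z : P), B.card ≤ (C.wiresInto U + 1) * m →
      B'.card ≤ (C.wiresInto U + 1) * m → Good (B ∪ D) z →
      ∃ z', Good (B' ∪ D) z' ∧ ∃ a : ι → T, (∀ j ∈ B ∪ D, a j = 1) ∧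
        ∀ i, X z' (ρ a i) = X z i) :
    ∃ B : Finset ι, B.card ≤ C.wiresInto U * m ∧
      ∀ z, Good (B ∪ D) z → C.val (X z) C.out = C.val X0 C.out := by
  classical
  let up : Finset {i : ι // i ∉ D} → Finset ι := fun B => B.map (Function.Embedding.subtype _)
  have hup : ∀ B, (up B).card = B.card := fun B => Finset.card_map _
  have mem_up : ∀ (B : Finset {i : ι // i ∉ D}) (j : ι) (h : j ∉ D), ⟨j, h⟩ ∈ B → j ∈ up B := by
    intro B j h hj
    exact Finset.mem_map.2 ⟨⟨j, h⟩, hj, rfl⟩
  have hinv : ∀ a : {i : ι // i ∉ D} → T, ∃ π, C.AutU U ((ρ.comp (extD T D)) a) π := by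
    intro a
    have h1 : extD T D a ∈ KgU C U ρ C.out := by
      refine Subgroup.pi_mem_of_mulSingle_mem _ (fun i => ?_)
      by_cases hi : i ∈ D
      · have h2 : extD T D a i = 1 := by simp [extD, hi]
        rw [h2, Pi.mulSingle_one]
        exact one_mem _
      · obtain ⟨π, hπ⟩ := hD i hi (extD T D a i)
        exact mem_KgU.2 ⟨π, hπ, hπ.2.1⟩
    obtain ⟨π, hπ, -⟩ := mem_KgU.1 h1
    exact ⟨π, hπ⟩
  obtain ⟨B, hB, hBs⟩ := main_outU hT C U (ρ.comp (extD T D)) hinv m hm hm2
    (fun i => (sp i).subtype (fun j => j ∉ D))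
    (fun i => by
      rw [Finset.card_subtype]
      exact (Finset.card_filter_le _ _).trans (hsp2 i))
    (fun a i => by
      have := hsp (extD T D a) i
      simp only [MonoidHom.comp_apply]
      rw [this])
    P (fun B z => Good (up B ∪ D) z) X0 X
    (fun z B B' hBB hg => hanti z _ _
      (Finset.union_subset_union_left (Finset.map_subset_map.2 hBB)) hg)
    (fun z B i hg hs => by
      refine H1 z (up B ∪ D) i hg (fun j hj => ?_)
      by_cases h : j ∈ D
      · exact Finset.mem_union_right _ h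
      · refine Finset.mem_union_left _ (mem_up B j h (hs ?_))
        rw [Finset.mem_subtype]
        exact hj)
    (fun B B' z hB hB' hg => by
      obtain ⟨z', hz', a, ha, hX⟩ := H2 (up B) (up B') z (by rw [hup]; exact hB)
        (by rw [hup]; exact hB') hg
      refine ⟨z', hz', fun j => a j.1, fun j hj => ?_, fun i => ?_⟩
      · exact ha j.1 (Finset.mem_union_left _ (mem_up B j.1 j.2 hj))
      · rw [MonoidHom.comp_apply, extD_restrict D a
          (fun i hi => ha i (Finset.mem_union_right _ hi))]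
        exact hX i)
  exact ⟨up B, by rw [hup]; exact hB, hBs⟩

end Pool.Agent.PSY
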