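import Pool.Agent.PSY.Ind

set_option autoImplicit false

/-!
# The induction over the gates, with few exceptional gates
-/

namespace Pool.Agent.PSY

/-- `π` is a permutation of the gates which fixes the output and every gate of `U`, and which
preserves the functions of the gates outside `U` and the wires into them, where the inputs are
permuted by `s`. -/
def Circuit.AutU {I : Type} (C : Circuit I) (U : Finset C.Gate) (s : Equiv.Perm I)
    (π : Equiv.Perm C.Gate) : Prop :=
  (∀ g ∈ U, π g = g) ∧ π C.out = C.out ∧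
    ∀ g, g ∉ U → (∀ h, C.w (π g) (π h) = C.w g h) ∧ (∀ i, C.wi (π g) (s i) = C.wi g i) ∧
      C.fn (π g) = C.fn g

open Classical in
/-- The number of wires into the gates of `U`. -/
noncomputable def Circuit.wiresInto {I : Type} [Fintype I] (C : Circuit I) (U : Finset C.Gate) :
    ℕ :=
  ((U ×ˢ (Finset.univ : Finset C.Gate)).filter (fun p => C.w p.1 p.2 ≠ 0)).card +
    ((U ×ˢ (Finset.univ : Finset I)).filter (fun p => C.wi p.1 p.2 ≠ 0)).card

variable {T : Type} [Group T] {ι : Type} [DecidableEq ι] {I : Type}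

theorem AutU.not_mem {C : Circuit I} {U : Finset C.Gate} {s : Equiv.Perm I}
    {π : Equiv.Perm C.Gate} (h : C.AutU U s π) {g : C.Gate} (hg : g ∉ U) : π g ∉ U := by
  intro hcon
  have := h.1 _ hcon
  exact hg (π.injective this ▸ hcon)

theorem autU_one (C : Circuit I) (U : Finset C.Gate) : C.AutU U 1 1 :=
  ⟨fun _ _ => rfl, rfl, fun _ _ => ⟨fun _ => rfl, fun _ => rfl, rfl⟩⟩

theorem autU_mul (C : Circuit I) (U : Finset C.Gate) (s s' : Equiv.Perm I)
    (π π' : Equiv.Perm C.Gate) (h : C.AutU U s π) (h' : C.AutU U s' π') :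
    C.AutU U (s * s') (π * π') := by
  refine ⟨fun g hg => ?_, ?_, fun g hg => ⟨fun k => ?_, fun i => ?_, ?_⟩⟩
  · rw [Equiv.Perm.mul_apply, h'.1 g hg, h.1 g hg]
  · rw [Equiv.Perm.mul_apply, h'.2.1, h.2.1]
  · rw [Equiv.Perm.mul_apply, Equiv.Perm.mul_apply, (h.2.2 _ (AutU.not_mem h' hg)).1,
      (h'.2.2 g hg).1]
  · rw [Equiv.Perm.mul_apply, Equiv.Perm.mul_apply, (h.2.2 _ (AutU.not_mem h' hg)).2.1,
      (h'.2.2 g hg).2.1]
  · rw [Equiv.Perm.mul_apply, (h.2.2 _ (AutU.not_mem h' hg)).2.2, (h'.2.2 g hg).2.2]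

theorem autU_inv (C : Circuit I) (U : Finset C.Gate) (s : Equiv.Perm I)
    (π : Equiv.Perm C.Gate) (h : C.AutU U s π) : C.AutU U s⁻¹ π⁻¹ := by
  have hmem : ∀ g, g ∉ U → π⁻¹ g ∉ U := by
    intro g hg hcon
    have h1 := h.1 _ hcon
    rw [perm_inv_right] at h1
    exact hg (h1 ▸ hcon)
  refine ⟨fun g hg => ?_, ?_, fun g hg => ⟨fun k => ?_, fun i => ?_, ?_⟩⟩
  · rw [Equiv.Perm.inv_eq_iff_eq]; exact (h.1 g hg).symm
  · rw [Equiv.Perm.inv_eq_iff_eq]; exact h.2.1.symm
  · have := (h.2.2 (π⁻¹ g) (hmem g hg)).1 (π⁻¹ k)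
    rw [perm_inv_right, perm_inv_right] at this
    exact this.symm
  · have := (h.2.2 (π⁻¹ g) (hmem g hg)).2.1 (s⁻¹ i)
    rw [perm_inv_right, perm_inv_right] at this
    exact this.symm
  · have := (h.2.2 (π⁻¹ g) (hmem g hg)).2.2
    rw [perm_inv_right] at this
    exact this.symm

/-- The elements of the group which are induced by a permutation fixing the gate `g`. -/
def KgU (C : Circuit I) (U : Finset C.Gate) (ρ : (ι → T) →* Equiv.Perm I) (g : C.Gate) :
    Subgroup (ι → T) where
  carrier := {a | ∃ π, C.AutU U (ρ a) π ∧ π g = g}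
  one_mem' := ⟨1, by rw [map_one]; exact autU_one C U, rfl⟩
  mul_mem' := by
    rintro a a' ⟨π, h, hg⟩ ⟨π', h', hg'⟩
    exact ⟨π * π', by rw [map_mul]; exact autU_mul C U _ _ _ _ h h', by
      rw [Equiv.Perm.mul_apply, hg', hg]⟩
  inv_mem' := by
    rintro a ⟨π, h, hg⟩
    exact ⟨π⁻¹, by rw [map_inv]; exact autU_inv C U _ _ h, by
      rw [Equiv.Perm.inv_eq_iff_eq]; exact hg.symm⟩

omit [DecidableEq ι] in
theorem mem_KgU {C : Circuit I} {U : Finset C.Gate} {ρ : (ι → T) →* Equiv.Perm I} {g : C.Gate}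
    {a : ι → T} : a ∈ KgU C U ρ g ↔ ∃ π, C.AutU U (ρ a) π ∧ π g = g := Iff.rfl

open Classical in
/-- The support of a gate. -/
noncomputable def BsU [Fintype ι] (C : Circuit I) (U : Finset C.Gate)
    (ρ : (ι → T) →* Equiv.Perm I) (g : C.Gate) : Finset ι :=
  Finset.univ.filter fun i => ∃ x : T, Pi.mulSingle i x ∉ KgU C U ρ g

theorem mem_BsU [Fintype ι] {C : Circuit I} {U : Finset C.Gate} {ρ : (ι → T) →* Equiv.Perm I}
    {g : C.Gate} {i : ι} : i ∈ BsU C U ρ g ↔ ∃ x : T, Pi.mulSingle i x ∉ KgU C U ρ g := by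
  simp [BsU]

omit [DecidableEq ι] in
theorem index_KgU_le (C : Circuit I) (U : Finset C.Gate) (ρ : (ι → T) →* Equiv.Perm I)
    (hinv : ∀ a, ∃ π, C.AutU U (ρ a) π) (g : C.Gate) : (KgU C U ρ g).index ≤ C.size := by
  classical
  choose lift hlift using hinv
  have hinj : Function.Injective (fun q : (ι → T) ⧸ KgU C U ρ g => lift q.out g) := by
    intro q r hqr
    have hqr' : lift q.out g = lift r.out g := hqr
    rw [← Quotient.out_eq q, ← Quotient.out_eq r]
    change (QuotientGroup.mk q.out : (ι → T) ⧸ KgU C U ρ g) = QuotientGroup.mk r.out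
    rw [QuotientGroup.eq, mem_KgU]
    refine ⟨(lift q.out)⁻¹ * lift r.out, ?_, ?_⟩
    · rw [map_mul, map_inv]
      exact autU_mul C U _ _ _ _ (autU_inv C U _ _ (hlift _)) (hlift _)
    · rw [Equiv.Perm.mul_apply, ← hqr', perm_inv_left]
  rw [Subgroup.index, Circuit.size, ← Nat.card_eq_fintype_card]
  exact Nat.card_le_card_of_injective _ hinj

theorem card_BsU_le [Fintype ι] [Finite T] [IsSimpleGroup T] (hT : ∃ a b : T, a * b ≠ b * a)
    (C : Circuit I) (U : Finset C.Gate) (ρ : (ι → T) →* Equiv.Perm I)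
    (hinv : ∀ a, ∃ π, C.AutU U (ρ a) π) (g : C.Gate) : 2 ^ (BsU C U ρ g).card ≤ C.size :=
  (support_le hT (KgU C U ρ g) (BsU C U ρ g) (fun _ hi => mem_BsU.1 hi)).trans
    (index_KgU_le C U ρ hinv g)

theorem mem_KgU_of_off [Fintype ι] (C : Circuit I) (U : Finset C.Gate)
    (ρ : (ι → T) →* Equiv.Perm I) (g : C.Gate)
    (a : ι → T) (ha : ∀ i ∈ BsU C U ρ g, a i = 1) : a ∈ KgU C U ρ g := by
  refine Subgroup.pi_mem_of_mulSingle_mem a (fun i => ?_)
  by_cases hi : i ∈ BsU C U ρ g
  · rw [ha i hi, Pi.mulSingle_one]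
    exact one_mem _
  · by_contra hcon
    exact hi (mem_BsU.2 ⟨_, hcon⟩)

theorem BsU_aut_subset [Fintype ι] (C : Circuit I) (U : Finset C.Gate)
    (ρ : (ι → T) →* Equiv.Perm I) (g : C.Gate) (a : ι → T) (π : Equiv.Perm C.Gate)
    (hπ : C.AutU U (ρ a) π) : BsU C U ρ (π g) ⊆ BsU C U ρ g := by
  intro i hi
  by_contra hcon
  rw [mem_BsU] at hi hcon
  push Not at hcon
  obtain ⟨x, hx⟩ := hi
  apply hx
  obtain ⟨τ, hτ, h1⟩ := mem_KgU.1 (hcon ((a i)⁻¹ * x * a i))
  refine mem_KgU.2 ⟨π * τ * π⁻¹, ?_, ?_⟩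
  · rw [conj_mulSingle a i x, map_mul, map_mul, map_inv]
    exact autU_mul C U _ _ _ _ (autU_mul C U _ _ _ _ hπ hτ) (autU_inv C U _ _ hπ)
  · rw [Equiv.Perm.mul_apply, perm_inv_left, Equiv.Perm.mul_apply, h1]

theorem BsU_aut [Fintype ι] (C : Circuit I) (U : Finset C.Gate) (ρ : (ι → T) →* Equiv.Perm I)
    (g : C.Gate) (a : ι → T) (π : Equiv.Perm C.Gate) (hπ : C.AutU U (ρ a) π) :
    BsU C U ρ (π g) = BsU C U ρ g := by
  refine Finset.Subset.antisymm (BsU_aut_subset C U ρ g a π hπ) ?_
  have h2 : C.AutU U (ρ a⁻¹) π⁻¹ := by rw [map_inv]; exact autU_inv C U _ _ hπ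
  have := BsU_aut_subset C U ρ (π g) a⁻¹ π⁻¹ h2
  rwa [perm_inv_left] at this

theorem BsU_empty [Fintype ι] (C : Circuit I) (U : Finset C.Gate) (ρ : (ι → T) →* Equiv.Perm I)
    (g : C.Gate) (hinv : ∀ a, ∃ π, C.AutU U (ρ a) π ∧ π g = g) : BsU C U ρ g = ∅ := by
  rw [Finset.eq_empty_iff_forall_notMem]
  intro i hi
  obtain ⟨x, hx⟩ := mem_BsU.1 hi
  exact hx (mem_KgU.2 (hinv (Pi.mulSingle i x)))

open Classical in
/-- The union of the supports of all gates and inputs with a wire to a gate of `U`. -/
noncomputable def StarU [Fintype ι] [Fintype I] (C : Circuit I) (U : Finset C.Gate)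
    (ρ : (ι → T) →* Equiv.Perm I) (sp : I → Finset ι) : Finset ι :=
  (((U ×ˢ (Finset.univ : Finset C.Gate)).filter (fun p => C.w p.1 p.2 ≠ 0)).biUnion
      (fun p => BsU C U ρ p.2)) ∪
    (((U ×ˢ (Finset.univ : Finset I)).filter (fun p => C.wi p.1 p.2 ≠ 0)).biUnion
      (fun p => sp p.2))

theorem card_StarU_le [Fintype ι] [Fintype I] (C : Circuit I) (U : Finset C.Gate)
    (ρ : (ι → T) →* Equiv.Perm I) (sp : I → Finset ι) (m : ℕ)
    (hm : ∀ g, (BsU C U ρ g).card ≤ m) (hsp : ∀ i, (sp i).card ≤ m) :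
    (StarU C U ρ sp).card ≤ C.wiresInto U * m := by
  unfold StarU Circuit.wiresInto
  refine (Finset.card_union_le _ _).trans ?_
  rw [Nat.add_mul]
  refine Nat.add_le_add ?_ ?_
  · exact Finset.card_biUnion_le_card_mul _ _ m (fun (p : C.Gate × C.Gate) _ => hm p.2)
  · exact Finset.card_biUnion_le_card_mul _ _ m (fun (p : C.Gate × I) _ => hsp p.2)

theorem subset_StarU_gate [Fintype ι] [Fintype I] (C : Circuit I) (U : Finset C.Gate)
    (ρ : (ι → T) →* Equiv.Perm I) (sp : I → Finset ι) (g h : C.Gate) (hg : g ∈ U)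
    (hw : C.w g h ≠ 0) : BsU C U ρ h ⊆ StarU C U ρ sp := by
  classical
  intro j hj
  unfold StarU
  refine Finset.mem_union_left _ (Finset.mem_biUnion.2 ⟨(g, h), ?_, hj⟩)
  exact Finset.mem_filter.2 ⟨Finset.mem_product.2 ⟨hg, Finset.mem_univ _⟩, hw⟩

theorem subset_StarU_input [Fintype ι] [Fintype I] (C : Circuit I) (U : Finset C.Gate)
    (ρ : (ι → T) →* Equiv.Perm I) (sp : I → Finset ι) (g : C.Gate) (i : I) (hg : g ∈ U)
    (hw : C.wi g i ≠ 0) : sp i ⊆ StarU C U ρ sp := by
  classical
  intro j hj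
  unfold StarU
  refine Finset.mem_union_right _ (Finset.mem_biUnion.2 ⟨(g, i), ?_, hj⟩)
  exact Finset.mem_filter.2 ⟨Finset.mem_product.2 ⟨hg, Finset.mem_univ _⟩, hw⟩

/-- The value of a gate is the same on the instance `X0` and on the instances `X z`, where the
place `z` is good for the support of the gate and the support of `U`. -/
theorem main_gateU [Fintype ι] [Fintype I] (C : Circuit I) (U : Finset C.Gate)
    (ρ : (ι → T) →* Equiv.Perm I) (hinv : ∀ a, ∃ π, C.AutU U (ρ a) π)
    (m : ℕ) (hm : ∀ g, (BsU C U ρ g).card ≤ m)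
    (sp : I → Finset ι) (hsp : ∀ a i, sp (ρ a i) = sp i) (hspm : ∀ i, (sp i).card ≤ m)
    (P : Type) (Good : Finset ι → P → Prop) (X0 : I → Bool) (X : P → I → Bool)
    (hanti : ∀ (z : P) (B B' : Finset ι), B ⊆ B' → Good B' z → Good B z)
    (H1 : ∀ (z : P) (B : Finset ι) (i : I), Good B z → sp i ⊆ B → X z i = X0 i)
    (H2 : ∀ (B B' : Finset ι) (z : P), B.card ≤ (C.wiresInto U + 1) * m →
      B'.card ≤ (C.wiresInto U + 1) * m → Good B z →
      ∃ z', Good B' z' ∧ ∃ a : ι → T, (∀ j ∈ B, a j = 1) ∧ ∀ i, X z' (ρ a i) = X z i)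
    (g : C.Gate) :
    ∀ z, Good (StarU C U ρ sp ∪ BsU C U ρ g) z → C.val (X z) g = C.val X0 g := by
  have hcardU : ∀ B : Finset ι, B.card ≤ m →
      (StarU C U ρ sp ∪ B).card ≤ (C.wiresInto U + 1) * m := by
    intro B hB
    have h1 := Finset.card_union_le (StarU C U ρ sp) B
    have h2 := card_StarU_le C U ρ sp m hm hspm
    calc (StarU C U ρ sp ∪ B).card ≤ C.wiresInto U * m + m := by omega
      _ = (C.wiresInto U + 1) * m := by ring
  induction hn : C.rank g using Nat.strong_induction_on generalizing g with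
  | _ n ih =>
    subst hn
    intro z hz
    rw [val_eq, val_eq C X0 g]
    by_cases hgU : g ∈ U
    · -- an exceptional gate
      congr 2
      · refine Finset.sum_congr rfl (fun h _ => ?_)
        by_cases h0 : C.w g h = 0
        · simp [h0]
        · have h1 : Good (StarU C U ρ sp ∪ BsU C U ρ h) z := by
            refine hanti z _ _ ?_ hz
            refine Finset.union_subset Finset.subset_union_left ?_
            exact (subset_StarU_gate C U ρ sp g h hgU h0).trans Finset.subset_union_left
          rw [ih (C.rank h) (C.rank_lt g h h0) h rfl z h1]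
      · refine Finset.sum_congr rfl (fun i _ => ?_)
        by_cases h0 : C.wi g i = 0
        · simp [h0]
        · have h1 : X z i = X0 i := by
            refine H1 z (StarU C U ρ sp ∪ BsU C U ρ g) i hz ?_
            exact (subset_StarU_input C U ρ sp g i hgU h0).trans Finset.subset_union_left
          rw [h1]
    · -- moving the place away from a small set
      have hmv : ∀ B : Finset ι, B.card ≤ m → ∃ z', Good (StarU C U ρ sp ∪ B) z' ∧
          ∃ a : ι → T, (∀ i, X z' (ρ a i) = X z i) ∧ ∃ π, C.AutU U (ρ a) π ∧ π g = g := by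
        intro B hB
        obtain ⟨z', h1, a, h2, h3⟩ := H2 (StarU C U ρ sp ∪ BsU C U ρ g) (StarU C U ρ sp ∪ B) z
          (hcardU _ (hm g)) (hcardU _ hB) hz
        exact ⟨z', h1, a, h3, mem_KgU.1 (mem_KgU_of_off C U ρ g a
          (fun i hi => h2 i (Finset.mem_union_right _ hi)))⟩
      -- transport of the values of the gates below
      have htr : ∀ (B : Finset ι) (z' : P) (a : ι → T) (π : Equiv.Perm C.Gate),
          Good (StarU C U ρ sp ∪ B) z' → (∀ i, X z' (ρ a i) = X z i) → C.AutU U (ρ a) π →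
          ∀ h, C.rank h < C.rank g → C.val (X z') (π h) = C.val (X z) h := by
        intro B z' a π hz' hX hπ h
        induction hk : C.rank h using Nat.strong_induction_on generalizing h with
        | _ k ihk =>
          subst hk
          intro hlt
          by_cases hhU : h ∈ U
          · have hB : BsU C U ρ h = ∅ := by
              refine BsU_empty C U ρ h (fun b => ?_)
              obtain ⟨τ, hτ⟩ := hinv b
              exact ⟨τ, hτ, hτ.1 h hhU⟩
            have h1 := ih (C.rank h) hlt h rfl z' (by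
              rw [hB, Finset.union_empty]
              exact hanti z' _ _ Finset.subset_union_left hz')
            have h2 := ih (C.rank h) hlt h rfl z (by
              rw [hB, Finset.union_empty]
              exact hanti z _ _ Finset.subset_union_left hz)
            rw [hπ.1 h hhU, h1, h2]
          · obtain ⟨e1, e2, e3⟩ := hπ.2.2 h hhU
            rw [val_eq, val_eq C (X z) h, e3]
            congr 2
            · rw [← Equiv.sum_comp π]
              refine Finset.sum_congr rfl (fun k _ => ?_)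
              rw [e1]
              by_cases h0 : C.w h k = 0
              · simp [h0]
              · have hk := C.rank_lt h k h0
                rw [ihk (C.rank k) hk k rfl (hk.trans hlt)]
            · rw [← Equiv.sum_comp (ρ a)]
              refine Finset.sum_congr rfl (fun i _ => ?_)
              rw [e2, hX]
      congr 2
      · rw [← Finset.sum_fiberwise (Finset.univ : Finset C.Gate) (fun h => BsU C U ρ h),
          ← Finset.sum_fiberwise (Finset.univ : Finset C.Gate) (fun h => BsU C U ρ h)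
            (fun h => if C.val X0 h = true then C.w g h else 0)]
        refine Finset.sum_congr rfl (fun B _ => ?_)
        rcases Finset.eq_empty_or_nonempty (Finset.univ.filter (fun h => BsU C U ρ h = B)) with
          hempty | ⟨h₀, hh₀⟩
        · rw [hempty]; simp
        · have hBs : B.card ≤ m := by
            rw [Finset.mem_filter] at hh₀
            rw [← hh₀.2]
            exact hm h₀
          obtain ⟨e, he, a, h2, π, hπ, hπg⟩ := hmv B hBs
          have h3 : ∀ h, (if C.val (X z) h = true then C.w g h else 0) =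
              (fun h' => if C.val (X e) h' = true then C.w g h' else 0) (π h) := by
            intro h
            have h4 : C.w g (π h) = C.w g h := by
              have := (hπ.2.2 g hgU).1 h
              rwa [hπg] at this
            by_cases h0 : C.w g h = 0
            · simp [h4, h0]
            · simp only [h4, htr B e a π he h2 hπ h (C.rank_lt g h h0)]
          rw [Finset.sum_congr rfl (fun h _ => h3 h),
            sum_class π (fun h => BsU C U ρ h) (fun h => BsU_aut C U ρ h a π hπ) B
              (fun h' => if C.val (X e) h' = true then C.w g h' else 0)]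
          refine Finset.sum_congr rfl (fun h hh => ?_)
          rw [Finset.mem_filter] at hh
          by_cases h0 : C.w g h = 0
          · simp [h0]
          · have := ih (C.rank h) (C.rank_lt g h h0) h rfl e (by rw [hh.2]; exact he)
            simp only [this]
      · rw [← Finset.sum_fiberwise (Finset.univ : Finset I) (fun i => sp i),
          ← Finset.sum_fiberwise (Finset.univ : Finset I) (fun i => sp i)
            (fun i => if X0 i = true then C.wi g i else 0)]
        refine Finset.sum_congr rfl (fun B _ => ?_)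
        rcases Finset.eq_empty_or_nonempty (Finset.univ.filter (fun i => sp i = B)) with
          hempty | ⟨i₀, hi₀⟩
        · rw [hempty]; simp
        · have hBs : B.card ≤ m := by
            rw [Finset.mem_filter] at hi₀
            rw [← hi₀.2]
            exact hspm i₀
          obtain ⟨e, he, a, h2, π, hπ, hπg⟩ := hmv B hBs
          have h3 : ∀ i, (if X z i = true then C.wi g i else 0) =
              (fun i' => if X e i' = true then C.wi g i' else 0) (ρ a i) := by
            intro i
            have h4 : C.wi g (ρ a i) = C.wi g i := by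
              have := (hπ.2.2 g hgU).2.1 i
              rwa [hπg] at this
            simp only [h4, h2 i]
          rw [Finset.sum_congr rfl (fun i _ => h3 i),
            sum_class (ρ a) (fun i => sp i) (fun i => hsp a i) B
              (fun i' => if X e i' = true then C.wi g i' else 0)]
          refine Finset.sum_congr rfl (fun i hi => ?_)
          rw [Finset.mem_filter] at hi
          have h5 : X e i = X0 i := H1 e _ i he (by rw [hi.2]; exact Finset.subset_union_right)
          simp only [h5]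

/-- **The induction with exceptional gates.** Let all elements of `T^ι` be induced by
permutations of the gates that respect all gates outside `U` and fix the gates of `U`, and let
there be fewer than `2^(m+1)` gates. There is a set `B` of at most `m F` indices, `F` the number
of wires into `U`, such that the circuit does not distinguish `X0` from the instances `X z` with
`z` good for `B`. -/
theorem main_outU [Fintype ι] [Fintype I] [Finite T] [IsSimpleGroup T]
    (hT : ∃ a b : T, a * b ≠ b * a)
    (C : Circuit I) (U : Finset C.Gate) (ρ : (ι → T) →* Equiv.Perm I)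
    (hinv : ∀ a, ∃ π, C.AutU U (ρ a) π) (m : ℕ) (hm : C.size < 2 ^ (m + 1)) (hm2 : 2 ≤ m)
    (sp : I → Finset ι) (hsp2 : ∀ i, (sp i).card ≤ 2) (hsp : ∀ a i, sp (ρ a i) = sp i)
    (P : Type) (Good : Finset ι → P → Prop) (X0 : I → Bool) (X : P → I → Bool)
    (hanti : ∀ (z : P) (B B' : Finset ι), B ⊆ B' → Good B' z → Good B z)
    (H1 : ∀ (z : P) (B : Finset ι) (i : I), Good B z → sp i ⊆ B → X z i = X0 i)
    (H2 : ∀ (B B' : Finset ι) (z : P), B.card ≤ (C.wiresInto U + 1) * m →
      B'.card ≤ (C.wiresInto U + 1) * m → Good B z →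
      ∃ z', Good B' z' ∧ ∃ a : ι → T, (∀ j ∈ B, a j = 1) ∧ ∀ i, X z' (ρ a i) = X z i) :
    ∃ B : Finset ι, B.card ≤ C.wiresInto U * m ∧
      ∀ z, Good B z → C.val (X z) C.out = C.val X0 C.out := by
  have hs : ∀ g, (BsU C U ρ g).card ≤ m := by
    intro g
    have h1 := (card_BsU_le hT C U ρ hinv g).trans_lt hm
    exact Nat.lt_succ_iff.mp ((Nat.pow_lt_pow_iff_right (by norm_num)).mp h1)
  have hspm : ∀ i, (sp i).card ≤ m := fun i => (hsp2 i).trans hm2
  refine ⟨StarU C U ρ sp, card_StarU_le C U ρ sp m hs hspm, fun z hz => ?_⟩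
  refine main_gateU C U ρ hinv m hs sp hsp hspm P Good X0 X hanti H1 H2 C.out z ?_
  have : BsU C U ρ C.out = ∅ := by
    refine BsU_empty C U ρ C.out (fun a => ?_)
    obtain ⟨π, hπ⟩ := hinv a
    exact ⟨π, hπ, hπ.2.1⟩
  rw [this, Finset.union_empty]
  exact hz

end Pool.Agent.PSY
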