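import Pool.Agent.PSY.Cliq
import Pool.Agent.PSY.InstM
import Pool.Agent.PSY.Move
import Pool.Agent.PSY.Sp
import Pool.Agent.PSY.Ind

set_option autoImplicit false

/-!
# The lower bound with `8 M ^ 2` blocks
-/

namespace Pool.Agent.PSY

open Pool.Agent.NXL

/-- The lower bound with `8 M ^ 2` blocks. -/
theorem clique_lower {M : ℕ} [NeZero M] (hM : Odd M) {V : Type} [Fintype (Sym2 V)]
    (b : Nd M × Fin 5 ↪ V) (Q : Finset V) (hQ : ∀ x ∈ Q, x ∉ Set.range b) (m : ℕ) (hm2 : 2 ≤ m)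
    (hm : 1280 * m < 7 * M ^ 2) (C : Circuit (Sym2 V))
    (hinv : ∀ a : Nd M → A5, ∃ π, C.Aut (pairs (blk b a)) π)
    (hC : C.Computes (clique (Q.card + 8 * M ^ 2))) : 2 ^ (m + 1) ≤ C.size := by
  by_contra hlt
  push Not at hlt
  have := A5_simple
  obtain ⟨z, hz⟩ := exists_good (M := M) hM
  have h := main_ind A5_noncomm C ((pairs (V := V)).comp (blk b)) hinv m hlt hm2
    (fun e => sp b e) (fun e => card_sp b e) (fun a e => sp_act b a e) (Vt M)
    (fun B z => Good B z) (inst b Q 0) (fun z => inst b Q (tw z))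
    (fun z B e hg he => inst_sp0 b Q B z (hg.not_mem 0) e he)
    (fun B B' z hB hB' hg => by
      obtain ⟨z', hz', he⟩ := Good.move hM m hm B B' hB hB' z hg
      obtain ⟨a, ha, h⟩ := inst_move b Q hQ B (tw z) (tw z') he
      exact ⟨z', hz', a, ha, h⟩)
    (clique (Q.card + 8 * M ^ 2)) hC z hz
  rw [clique_zero b Q hQ, clique_twist b Q hQ] at h
  exact Bool.false_ne_true h

end Pool.Agent.PSY
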