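import Pool.Agent.PSY.Cliq
import Pool.Agent.PSY.InstM
import Pool.Agent.PSY.Half
import Pool.Agent.PSY.Sp
import Pool.Agent.PSY.IndU

set_option autoImplicit false

/-!
# The lower bound with `8 M ^ 2` blocks and a few exceptional gates
-/

namespace Pool.Agent.PSY

open Pool.Agent.NXL

/-- A small circuit which is invariant up to the gates in `U` has on more than half of the
twisted instances the same value as on the untwisted one. -/
theorem half_same {M : ℕ} [NeZero M] (hM : Odd M) {V : Type} [Fintype (Sym2 V)]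
    (b : Nd M × Fin 5 ↪ V) (Q : Finset V) (hQ : ∀ x ∈ Q, x ∉ Set.range b) (m : ℕ) (hm2 : 2 ≤ m)
    (C : Circuit (Sym2 V)) (U : Finset C.Gate)
    (hm : 1280 * ((C.wiresInto U + 1) * m) < 7 * M ^ 2)
    (hinv : ∀ a : Nd M → A5, ∃ π, C.AutU U (pairs (blk b a)) π)
    (hsize : C.size < 2 ^ (m + 1)) :
    M ^ 2 < 2 * (Finset.univ.filter fun z : Vt M =>
      C.val (inst b Q (tw z)) C.out = C.val (inst b Q 0) C.out).card := by
  classical
  have := A5_simple
  obtain ⟨B, hB, hsame⟩ := main_outU A5_noncomm C U ((pairs (V := V)).comp (blk b)) hinv m hsize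
    hm2 (fun e => sp b e) (fun e => card_sp b e) (fun a e => sp_act b a e) (Vt M)
    (fun B z => Good B z) (inst b Q 0) (fun z => inst b Q (tw z))
    (fun z B B' hBB hg => Good.mono hBB hg)
    (fun z B e hg he => inst_sp0 b Q B z (hg.not_mem 0) e he)
    (fun B B' z hB hB' hg => by
      obtain ⟨z', hz', he⟩ := Good.move hM ((C.wiresInto U + 1) * m) hm B B' hB hB' z hg
      obtain ⟨a, ha, h⟩ := inst_move b Q hQ B (tw z) (tw z') he
      exact ⟨z', hz', a, ha, h⟩)
  have h1 : 640 * B.card < 7 * M ^ 2 := by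
    have h2 : C.wiresInto U * m ≤ (C.wiresInto U + 1) * m := Nat.mul_le_mul_right m (by omega)
    omega
  refine lt_of_lt_of_le (half_good hM B h1) (Nat.mul_le_mul_left 2 (Finset.card_le_card ?_))
  intro z hz
  rw [Finset.mem_filter] at hz ⊢
  exact ⟨Finset.mem_univ _, hsame z hz.2⟩

/-- The worst case lower bound with a few exceptional gates. -/
theorem clique_lowerU {M : ℕ} [NeZero M] (hM : Odd M) {V : Type} [Fintype (Sym2 V)]
    (b : Nd M × Fin 5 ↪ V) (Q : Finset V) (hQ : ∀ x ∈ Q, x ∉ Set.range b) (m : ℕ) (hm2 : 2 ≤ m)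
    (C : Circuit (Sym2 V)) (U : Finset C.Gate)
    (hm : 1280 * ((C.wiresInto U + 1) * m) < 7 * M ^ 2)
    (hinv : ∀ a : Nd M → A5, ∃ π, C.AutU U (pairs (blk b a)) π)
    (hC : C.Computes (clique (Q.card + 8 * M ^ 2))) : 2 ^ (m + 1) ≤ C.size := by
  classical
  by_contra hlt
  push Not at hlt
  have h := half_same hM b Q hQ m hm2 C U hm hinv hlt
  have h0 : (Finset.univ.filter fun z : Vt M =>
      C.val (inst b Q (tw z)) C.out = C.val (inst b Q 0) C.out) = ∅ := by
    rw [Finset.filter_eq_empty_iff]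
    intro z _ hz
    rw [hC, hC, clique_zero b Q hQ, clique_twist b Q hQ] at hz
    exact Bool.false_ne_true hz
  rw [h0, Finset.card_empty] at h
  omega

end Pool.Agent.PSY
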