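import Pool.Agent.PSY.ClqD

set_option autoImplicit false

/-!
# Numbers, and the invariance of the clique function
-/

namespace Pool.Agent.PSY

/-- The size of the cubic graph for `t` blocks. -/
theorem choose_M (t : ℕ) (ht : 8 ≤ t) :
    ∃ M m : ℕ, Odd M ∧ 8 * M ^ 2 ≤ t ∧ 1280 * m < 7 * M ^ 2 ∧ t ≤ 14000 * (m + 1) := by
  obtain ⟨k, hk⟩ : ∃ k, k = Nat.findGreatest (fun k => 8 * (2 * k + 1) ^ 2 ≤ t) t := ⟨_, rfl⟩
  have h0 : 8 * (2 * k + 1) ^ 2 ≤ t := by
    rw [hk]
    exact Nat.findGreatest_spec (P := fun k => 8 * (2 * k + 1) ^ 2 ≤ t) (m := 0) (Nat.zero_le t)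
      (by simpa using ht)
  have h1 : t < 8 * (2 * (k + 1) + 1) ^ 2 := by
    by_contra h
    push Not at h
    have h2 : k + 1 ≤ t := by nlinarith
    have h3 := Nat.le_findGreatest (P := fun k => 8 * (2 * k + 1) ^ 2 ≤ t) h2 h
    omega
  refine ⟨2 * k + 1, (7 * (2 * k + 1) ^ 2 - 1) / 1280, odd_two_mul_add_one k, h0, ?_, ?_⟩
  · have h2 : 0 < (2 * k + 1) ^ 2 := by positivity
    omega
  · have h3 : (2 * (k + 1) + 1) ^ 2 ≤ 9 * (2 * k + 1) ^ 2 := by nlinarith
    have h2 : 0 < (2 * k + 1) ^ 2 := by positivity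
    omega

/-- The clique function is invariant. -/
theorem clique_pairs {V : Type} (k : ℕ) (σ : Equiv.Perm V) (X : Sym2 V → Bool) :
    clique k (fun e => X (pairs σ e)) = clique k X := by
  classical
  unfold clique
  rw [decide_eq_decide]
  constructor
  · rintro ⟨s, hs, h⟩
    refine ⟨s.map σ.toEmbedding, by rw [Finset.card_map]; exact hs, ?_⟩
    intro x hx y hy hxy
    rw [Finset.mem_map] at hx hy
    obtain ⟨x', hx', rfl⟩ := hx
    obtain ⟨y', hy', rfl⟩ := hy
    have h1 := h x' hx' y' hy' (fun he => hxy (by rw [he]))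
    exact h1
  · rintro ⟨s, hs, h⟩
    refine ⟨s.map σ.symm.toEmbedding, by rw [Finset.card_map]; exact hs, ?_⟩
    intro x hx y hy hxy
    rw [Finset.mem_map] at hx hy
    obtain ⟨x', hx', rfl⟩ := hx
    obtain ⟨y', hy', rfl⟩ := hy
    have h1 := h x' hx' y' hy' (fun he => hxy (by rw [he]))
    have h2 : X s(σ (σ.symm x'), σ (σ.symm y')) = true := by
      rw [Equiv.apply_symm_apply, Equiv.apply_symm_apply]
      exact h1
    exact h2

end Pool.Agent.PSY
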