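import Mathlib

set_option autoImplicit false

/-!
# Numbers
-/

namespace Pool.Agent.PSY

/-- The size of the cubic graph for `t` blocks. -/
theorem choose_M3 (t : ℕ) (ht : 8 ≤ t) :
    ∃ M : ℕ, Odd M ∧ 8 * M ^ 2 ≤ t ∧ t < 72 * M ^ 2 ∧
      ∀ F q : ℕ, 200000 * (F + 1) * q ≤ t → 1200 * ((F + 1) * (2 * q)) ≤ M ^ 2 := by
  obtain ⟨k, hk⟩ : ∃ k, k = Nat.findGreatest (fun k => 8 * (2 * k + 1) ^ 2 ≤ t) t := ⟨_, rfl⟩
  have h0 : 8 * (2 * k + 1) ^ 2 ≤ t := by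
    rw [hk]
    exact Nat.findGreatest_spec (P := fun k => 8 * (2 * k + 1) ^ 2 ≤ t) (m := 0) (Nat.zero_le t)
      (by simpa using ht)
  have h1 : t < 8 * (2 * (k + 1) + 1) ^ 2 := by
    by_contra h
    push Not at h
    have h2 : k + 1 ≤ t := by nlinarith
    have h3 := Nat.le_findGreatest (P := fun k => 8 * (2 * k + 1) ^ 2 ≤ t) h2 h
    omega
  have h3 : (2 * (k + 1) + 1) ^ 2 ≤ 9 * (2 * k + 1) ^ 2 := by nlinarith
  have h4 : t < 72 * (2 * k + 1) ^ 2 := by omega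
  refine ⟨2 * k + 1, odd_two_mul_add_one k, h0, h4, ?_⟩
  intro F q hq
  have h5 : 200000 * (F + 1) * q = 200000 * ((F + 1) * q) := by ring
  have h6 : 1200 * ((F + 1) * (2 * q)) = 2400 * ((F + 1) * q) := by ring
  rw [h5] at hq
  rw [h6]
  omega

end Pool.Agent.PSY
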